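import Pool.Agent.H324R2.PQ.Defs
import Pool.Agent.Helper967.DxSys

set_option autoImplicit false

namespace Pool.Agent.H324R2.PQ

open Pool.Agent.Helper967.Dio.Sys

/-- the left-hand side of the equation `q` at a rational point -/
def evalQ {V : Type} (x : V → ℚ) (q : Eqn V) : ℚ :=
  q.e * (x q.i * x q.j) + q.a * x q.k + q.b * x q.l + q.c * x q.m + q.d

/-- codes solvability over `ℤ` of the system `L` with `x f = 1 - 4 X`; the integer unknown `n v` is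
coded by `x v = (C ^ k - C ^ k') / (C - 1)`, `n v = k - k'`, `C = 2 ^ (S ^ 3)`. -/
def Code {V : Type} (f : V) (L : List (Eqn V)) (A : ℕ) (X : ℚ) : Prop :=
  ∃ S C G : ℚ, P2 S ∧ P2 C ∧ P2 G ∧ Le4 A S ∧ Le4 X S ∧ E1 (S ^ 3) C ∧ E1 (S ^ 4) G ∧
    ∃ l l' x : V → ℚ,
      (∀ v, P2 (l v) ∧ P2 (l' v) ∧ Le4 (l v) G ∧ Le4 (l' v) G ∧ Test3 (C - 1) (l v - 1) ∧
        Test3 (C - 1) (l' v - 1) ∧ x v * (C - 1) = l v - l' v) ∧
      (∀ q ∈ L, Test3 (C - 1) (evalQ x q)) ∧ Test3 (C - 1) (x f - (1 - 4 * X))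

end Pool.Agent.H324R2.PQ
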