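import Pool.Agent.H324R2.PQ.Defs

/-! Task N1: the predicate `DD` on powers of two. -/

set_option autoImplicit false

namespace Pool.Agent.H324R2.PQ

theorem N1_even {n : ℕ} (hn : n ≠ 0) {a b : ℚ} (h : (n : ℚ) = a ^ 2 + b ^ 2) {q : ℕ}
    (hq : q.Prime) (hq4 : q % 4 = 3) : Even (padicValNat q n) := by
  haveI : Fact q.Prime := ⟨hq⟩
  set D : ℕ := a.den * b.den with hD
  have hDpos : D ≠ 0 := Nat.mul_ne_zero a.den_nz b.den_nz
  set A : ℤ := a.num * b.den with hA
  set B : ℤ := b.num * a.den with hB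
  have ha : (a.den : ℚ) ≠ 0 := by exact_mod_cast a.den_nz
  have hb : (b.den : ℚ) ≠ 0 := by exact_mod_cast b.den_nz
  have h1 : ((n * D ^ 2 : ℕ) : ℚ) = ((A ^ 2 + B ^ 2 : ℤ) : ℚ) := by
    rw [hD, hA, hB]
    push_cast
    rw [h]
    have ea : a * a.den = a.num := Rat.mul_den_eq_num a
    have eb : b * b.den = b.num := Rat.mul_den_eq_num b
    rw [← ea, ← eb]
    ring
  have h2 : ((n * D ^ 2 : ℕ) : ℤ) = A ^ 2 + B ^ 2 := by exact_mod_cast h1
  have h3 : n * D ^ 2 = A.natAbs ^ 2 + B.natAbs ^ 2 := by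
    zify
    rw [sq_abs, sq_abs]
    exact_mod_cast h2
  have h4 := (Nat.eq_sq_add_sq_iff (n := n * D ^ 2)).1 ⟨_, _, h3⟩
  have h5 : Even (padicValNat q (n * D ^ 2)) := by
    by_cases hd : q ∣ n * D ^ 2
    · exact h4 q (Nat.mem_primeFactors.2 ⟨hq, hd, Nat.mul_ne_zero hn (pow_ne_zero 2 hDpos)⟩) hq4
    · rw [padicValNat.eq_zero_of_not_dvd hd]; exact Even.zero
  rw [padicValNat.mul hn (pow_ne_zero 2 hDpos), padicValNat.pow] at h5
  exact (Nat.even_add.1 h5).2 (even_two_mul _)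

theorem N1_mpr (s : ℕ) : ∃ a b : ℚ, (2 : ℚ) ^ (2 ^ (s + 1)) - 1 = 3 * (a ^ 2 + b ^ 2) := by
  induction s with
  | zero => exact ⟨1, 0, by norm_num⟩
  | succ s ih =>
    obtain ⟨a, b, h⟩ := ih
    set c : ℚ := 2 ^ (2 ^ s) with hc
    have e1 : (2 : ℚ) ^ (2 ^ (s + 1)) = c ^ 2 := by rw [hc, ← pow_mul, ← pow_succ]
    have e2 : (2 : ℚ) ^ (2 ^ (s + 1 + 1)) = (c ^ 2) ^ 2 := by rw [← e1, ← pow_mul, ← pow_succ]
    rw [e1] at h
    refine ⟨a * c - b, a + b * c, ?_⟩
    rw [e2]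
    linear_combination (c ^ 2 + 1) * h

theorem DD_pow {d : ℕ} : DD ((2 : ℚ) ^ d) ↔ ∃ s : ℕ, 1 ≤ s ∧ d = 2 ^ s := by
  constructor
  · rintro ⟨hne, a, b, hab⟩
    have hd0 : d ≠ 0 := by rintro rfl; exact hne (by norm_num)
    have hpos : 1 ≤ 2 ^ d := Nat.one_le_two_pow
    have hlt : 1 < 2 ^ d := Nat.one_lt_two_pow hd0
    have hn : 3 * (2 ^ d - 1) ≠ 0 := by omega
    have hcast : ((3 * (2 ^ d - 1) : ℕ) : ℚ) = (3 * a) ^ 2 + (3 * b) ^ 2 := by
      rw [Nat.cast_mul, Nat.cast_sub hpos]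
      push_cast
      linear_combination 3 * hab
    have hev := fun {q : ℕ} (hq : q.Prime) (hq4 : q % 4 = 3) => N1_even hn hcast hq hq4
    obtain ⟨k, m, hm, hdm⟩ := Nat.exists_eq_two_pow_mul_odd hd0
    have hsub : 2 ^ d - 1 ≠ 0 := by omega
    -- `d` is even
    have hdeven : Even d := by
      have h3 := hev Nat.prime_three (by norm_num)
      haveI : Fact (Nat.Prime 3) := ⟨Nat.prime_three⟩
      rw [padicValNat.mul (by norm_num) hsub, padicValNat.self (by norm_num)] at h3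
      by_contra hodd
      rw [Nat.not_even_iff_odd] at hodd
      have hnd : ¬ 3 ∣ 2 ^ d - 1 := by
        obtain ⟨r, rfl⟩ := hodd
        have h7 : 2 ^ (2 * r + 1) % 3 = 2 := by
          rw [pow_succ, pow_mul, Nat.mul_mod, Nat.pow_mod]
          norm_num
        intro h8
        generalize 2 ^ (2 * r + 1) = z at *
        omega
      rw [padicValNat.eq_zero_of_not_dvd hnd] at h3
      exact absurd h3 (by decide)
    have hm1 : m = 1 := by
      by_contra hmne
      have hm3 : 3 ≤ m := by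
        obtain ⟨r, rfl⟩ := hm
        omega
      have h4 : (2 ^ m - 1) % 4 = 3 := by
        obtain ⟨r, hr⟩ : ∃ r, m = r + 2 := ⟨m - 2, by omega⟩
        have : 1 ≤ 2 ^ r := Nat.one_le_two_pow
        rw [hr, pow_add]
        omega
      have hex : ∃ q ∈ (2 ^ m - 1).primeFactors, q % 4 = 3 ∧ ¬ Even (padicValNat q (2 ^ m - 1)) := by
        by_contra hcon
        push Not at hcon
        obtain ⟨x, y, hxy⟩ := (Nat.eq_sq_add_sq_iff (n := 2 ^ m - 1)).2 hcon
        have hx : x ^ 2 % 4 = 0 ∨ x ^ 2 % 4 = 1 := by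
          rcases Nat.even_or_odd x with hx | hx
          · left; obtain ⟨r, rfl⟩ := hx; ring_nf; omega
          · right; obtain ⟨r, rfl⟩ := hx; ring_nf; omega
        have hy : y ^ 2 % 4 = 0 ∨ y ^ 2 % 4 = 1 := by
          rcases Nat.even_or_odd y with hx | hx
          · left; obtain ⟨r, rfl⟩ := hx; ring_nf; omega
          · right; obtain ⟨r, rfl⟩ := hx; ring_nf; omega
        omega
      obtain ⟨q, hqm, hq4, hqodd⟩ := hex
      have hq : q.Prime := Nat.prime_of_mem_primeFactors hqm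
      have hqd : q ∣ 2 ^ m - 1 := Nat.dvd_of_mem_primeFactors hqm
      haveI : Fact q.Prime := ⟨hq⟩
      have hq2 : q ≠ 2 := by rintro rfl; omega
      have hq3 : q ≠ 3 := by
        rintro rfl
        obtain ⟨r, rfl⟩ := hm
        have h7 : 2 ^ (2 * r + 1) % 3 = 2 := by
          rw [pow_succ, pow_mul, Nat.mul_mod, Nat.pow_mod]
          norm_num
        have h9 : 1 ≤ 2 ^ (2 * r + 1) := Nat.one_le_two_pow
        clear hdm hm3 h4 hqm hqodd
        generalize 2 ^ (2 * r + 1) = z at *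
        omega
      have hqodd' : Odd q := hq.odd_of_ne_two hq2
      have hlte := padicValNat.pow_sub_pow hqodd' (x := 2 ^ m) (y := 1)
        (Nat.one_lt_two_pow (by omega)) hqd
        (fun h => hq2 ((Nat.prime_dvd_prime_iff_eq hq Nat.prime_two).1 (hq.dvd_of_dvd_pow h)))
        (n := 2 ^ k) (by positivity)
      rw [one_pow, ← pow_mul, mul_comm m, ← hdm] at hlte
      have h2k : padicValNat q (2 ^ k) = 0 := by
        apply padicValNat.eq_zero_of_not_dvd
        intro h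
        exact hq2 ((Nat.prime_dvd_prime_iff_eq hq Nat.prime_two).1 (hq.dvd_of_dvd_pow h))
      have hfin := hev hq hq4
      rw [padicValNat.mul (by norm_num) hsub, hlte, h2k, add_zero,
        padicValNat.eq_zero_of_not_dvd (fun h => hq3
          ((Nat.prime_dvd_prime_iff_eq hq Nat.prime_three).1 h)), zero_add] at hfin
      exact hqodd hfin
    rw [hm1, mul_one] at hdm
    refine ⟨k, ?_, hdm⟩
    rcases Nat.eq_zero_or_pos k with hk | hk
    · rw [hk, pow_zero] at hdm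
      rw [hdm] at hdeven
      exact absurd hdeven (by decide)
    · exact hk
  · rintro ⟨s, hs, rfl⟩
    obtain ⟨r, rfl⟩ : ∃ r, s = r + 1 := ⟨s - 1, by omega⟩
    refine ⟨?_, N1_mpr r⟩
    have : (1 : ℚ) < 2 ^ 2 ^ (r + 1) := one_lt_pow₀ (by norm_num) (by positivity)
    exact this.ne'

end Pool.Agent.H324R2.PQ
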