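import Pool.Agent.H324R2.PQ.Defs

/-! # Task N2 (helper268) -/

set_option autoImplicit false

namespace Pool.Agent.H324R2.PQ

private theorem N2_exists_prime {n : ℕ} (h : n % 3 = 2) :
    ∃ p : ℕ, p.Prime ∧ p % 3 = 2 ∧ Odd (padicValNat p n) := by
  by_contra hcon
  push Not at hcon
  have hn : n ≠ 0 := by rintro rfl; simp at h
  have h1 : ((n : ZMod 3)) ^ 2 = n := by
    conv_rhs => rw [← Nat.prod_factorization_pow_eq_self hn]
    conv_lhs => rw [← Nat.prod_factorization_pow_eq_self hn]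
    rw [Finsupp.prod]
    push_cast
    rw [← Finset.prod_pow]
    apply Finset.prod_congr rfl
    intro p hp
    have hpp : p.Prime := Nat.prime_of_mem_primeFactors (by simpa using hp)
    have hm : p % 3 = 0 ∨ p % 3 = 1 ∨ p % 3 = 2 := by omega
    have hcast : (p : ZMod 3) = ((p % 3 : ℕ) : ZMod 3) := by
      rw [ZMod.natCast_mod]
    rw [hcast]
    rcases hm with h0 | h1 | h2
    · rw [h0]
      rcases Nat.eq_zero_or_pos (n.factorization p) with hz | hz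
      · rw [hz]; simp
      · rw [Nat.cast_zero, zero_pow (by omega)]
        simp
    · rw [h1]; simp
    · rw [h2]
      have hodd := hcon p hpp h2
      rw [Nat.not_odd_iff_even] at hodd
      rw [Nat.factorization_def n hpp]
      obtain ⟨k, hk⟩ := hodd
      rw [hk]
      have : (((2 : ℕ) : ZMod 3)) ^ (k + k) = 1 := by
        rw [← two_mul, pow_mul]
        have h4 : (((2 : ℕ) : ZMod 3)) ^ 2 = 1 := by decide
        rw [h4, one_pow]
      rw [this]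
      simp
  have h2 : (n : ZMod 3) = ((2 : ℕ) : ZMod 3) := by
    rw [← ZMod.natCast_mod n 3, h]
  rw [h2] at h1
  exact absurd h1 (by decide)

theorem vis_c {b : ℕ} (hb : 2 ≤ b) : ∃ p : ℕ, In3 p ∧
    Odd (padicValRat p ((2 : ℚ) ^ (2 ^ b) - 1)) ∧ orderOf (2 : ZMod p) = 2 ^ b := by
  obtain ⟨k, rfl⟩ : ∃ k, b = k + 1 := ⟨b - 1, by omega⟩
  have hk : 1 ≤ k := by omega
  obtain ⟨m, hm⟩ : ∃ m, 2 ^ k = 2 * m := ⟨2 ^ (k - 1), by
    rw [← pow_succ']; congr 1; omega⟩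
  have hF3 : (2 ^ (2 ^ k) + 1) % 3 = 2 := by
    rw [hm, pow_mul, Nat.add_mod, Nat.pow_mod]
    norm_num
  obtain ⟨p, hp, hp3, hodd⟩ := N2_exists_prime hF3
  have : Fact p.Prime := ⟨hp⟩
  have hF0 : 2 ^ (2 ^ k) + 1 ≠ 0 := by positivity
  have hdvd : p ∣ 2 ^ (2 ^ k) + 1 := by
    apply dvd_of_one_le_padicValNat
    exact hodd.pos
  have hFodd : (2 ^ (2 ^ k) + 1) % 2 = 1 := by
    have : 2 ^ k ≠ 0 := by positivity
    have h2 : 2 ∣ 2 ^ (2 ^ k) := dvd_pow_self 2 this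
    omega
  have hp2 : p ≠ 2 := by
    rintro rfl
    omega
  have hz : ((2 : ZMod p)) ^ (2 ^ k) = -1 := by
    have h1 : (((2 ^ (2 ^ k) + 1 : ℕ)) : ZMod p) = 0 := (ZMod.natCast_eq_zero_iff _ _).2 hdvd
    push_cast at h1
    exact eq_neg_of_add_eq_zero_left h1
  have hne : (2 : ZMod p) ≠ 0 := by
    intro h0
    have h1 : (((2 : ℕ)) : ZMod p) = 0 := by exact_mod_cast h0
    rw [ZMod.natCast_eq_zero_iff] at h1
    exact hp2 ((Nat.prime_dvd_prime_iff_eq hp Nat.prime_two).1 h1)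
  have hne1 : ¬ ((2 : ZMod p)) ^ (2 ^ k) = 1 := by
    rw [hz]
    intro h0
    apply hne
    linear_combination -h0
  refine ⟨p, ⟨hp, hp2, hp3⟩, ?_, ?_⟩
  · have e1 : ((2 : ℚ) ^ (2 ^ (k + 1)) - 1) =
        (((2 ^ (2 ^ k) - 1) * (2 ^ (2 ^ k) + 1) : ℕ) : ℚ) := by
      have h1 : 1 ≤ 2 ^ (2 ^ k) := Nat.one_le_two_pow
      push_cast [Nat.cast_sub h1]
      rw [pow_succ 2 k, pow_mul]
      ring
    rw [e1, padicValRat.of_nat]
    have h1 : 2 ≤ 2 ^ (2 ^ k) := by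
      calc 2 = 2 ^ 1 := rfl
        _ ≤ 2 ^ (2 ^ k) := Nat.pow_le_pow_right (by norm_num) Nat.one_le_two_pow
    have h2 : 2 ^ (2 ^ k) - 1 ≠ 0 := by omega
    rw [padicValNat.mul h2 hF0, padicValNat.eq_zero_of_not_dvd, zero_add]
    · exact_mod_cast hodd
    · intro h3
      apply hne1
      have h4 : (((2 ^ (2 ^ k) - 1 : ℕ)) : ZMod p) = 0 := (ZMod.natCast_eq_zero_iff _ _).2 h3
      rw [Nat.cast_sub (by omega)] at h4
      push_cast at h4
      exact sub_eq_zero.1 h4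
  · apply orderOf_eq_prime_pow hne1
    rw [pow_succ 2 k, pow_mul, hz]
    norm_num

end Pool.Agent.H324R2.PQ
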