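import Pool.Agent.H324R2.PQ.Defs

/-! # Task N3 (helper268) -/

set_option autoImplicit false

namespace Pool.Agent.H324R2.PQ

private theorem N3_exists_prime {n : ℕ} (h : n % 3 = 2) :
    ∃ p : ℕ, p.Prime ∧ p % 3 = 2 ∧ Odd (padicValNat p n) := by
  by_contra hcon
  push Not at hcon
  have hn : n ≠ 0 := by rintro rfl; simp at h
  have h1 : ((n : ZMod 3)) ^ 2 = n := by
    conv_rhs => rw [← Nat.prod_factorization_pow_eq_self hn]
    conv_lhs => rw [← Nat.prod_factorization_pow_eq_self hn]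
    rw [Finsupp.prod]
    push_cast
    rw [← Finset.prod_pow]
    apply Finset.prod_congr rfl
    intro p hp
    have hpp : p.Prime := Nat.prime_of_mem_primeFactors (by simpa using hp)
    have hm : p % 3 = 0 ∨ p % 3 = 1 ∨ p % 3 = 2 := by omega
    have hcast : (p : ZMod 3) = ((p % 3 : ℕ) : ZMod 3) := by
      rw [ZMod.natCast_mod]
    rw [hcast]
    rcases hm with h0 | h1 | h2
    · rw [h0]
      rcases Nat.eq_zero_or_pos (n.factorization p) with hz | hz
      · rw [hz]; simp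
      · rw [Nat.cast_zero, zero_pow (by omega)]
        simp
    · rw [h1]; simp
    · rw [h2]
      have hodd := hcon p hpp h2
      rw [Nat.not_odd_iff_even] at hodd
      rw [Nat.factorization_def n hpp]
      obtain ⟨k, hk⟩ := hodd
      rw [hk]
      have : (((2 : ℕ) : ZMod 3)) ^ (k + k) = 1 := by
        rw [← two_mul, pow_mul]
        have h4 : (((2 : ℕ) : ZMod 3)) ^ 2 = 1 := by decide
        rw [h4, one_pow]
      rw [this]
      simp
  have h2 : (n : ZMod 3) = ((2 : ℕ) : ZMod 3) := by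
    rw [← ZMod.natCast_mod n 3, h]
  rw [h2] at h1
  exact absurd h1 (by decide)

private theorem N3_four_pow (m : ℕ) (hm : 1 ≤ m) : 4 ^ m % 6 = 4 := by
  induction m, hm using Nat.le_induction with
  | base => norm_num
  | succ m hm ih => rw [pow_succ]; omega

private theorem N3_sixtyfour (j : ℕ) : 64 ^ j % 9 = 1 := by
  induction j with
  | zero => norm_num
  | succ j ih => rw [pow_succ]; omega

theorem vis_c1 {b : ℕ} (hb : Even b) (hb0 : 0 < b) : ∃ p : ℕ, In3 p ∧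
    Odd (padicValRat p ((2 * (2 : ℚ) ^ (2 ^ b) + 1) / 3)) ∧ p ∣ 2 ^ (2 ^ b + 1) + 1 := by
  obtain ⟨m, hm⟩ := hb
  have hm1 : 1 ≤ m := by omega
  have h4 : 2 ^ b = 4 ^ m := by
    rw [hm, ← two_mul, pow_mul]
    norm_num
  have h6 : 2 ^ b % 6 = 4 := by rw [h4]; exact N3_four_pow m hm1
  obtain ⟨j, hj⟩ : ∃ j, 2 ^ b = 6 * j + 4 := ⟨2 ^ b / 6, by omega⟩
  have h9 : (2 ^ (2 ^ b + 1) + 1) % 9 = 6 := by
    have h1 : 2 ^ (2 ^ b + 1) = 64 ^ j * 32 := by
      rw [hj, show 6 * j + 4 + 1 = 6 * j + 5 by ring, pow_add, pow_mul]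
      norm_num
    rw [h1]
    have := N3_sixtyfour j
    omega
  obtain ⟨n, hn⟩ : ∃ n, 2 ^ (2 ^ b + 1) + 1 = 3 * n := ⟨(2 ^ (2 ^ b + 1) + 1) / 3, by omega⟩
  have hn3 : n % 3 = 2 := by omega
  have hnodd : n % 2 = 1 := by
    have h2 : 2 ∣ 2 ^ (2 ^ b + 1) := dvd_pow_self 2 (by omega)
    omega
  obtain ⟨p, hp, hp3, hodd⟩ := N3_exists_prime hn3
  have : Fact p.Prime := ⟨hp⟩
  have hdvd : p ∣ n := by
    apply dvd_of_one_le_padicValNat
    exact hodd.pos
  have hp2 : p ≠ 2 := by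
    rintro rfl
    omega
  refine ⟨p, ⟨hp, hp2, hp3⟩, ?_, ?_⟩
  · have e1 : (2 * (2 : ℚ) ^ (2 ^ b) + 1) / 3 = (n : ℚ) := by
      have h1 : (((2 ^ (2 ^ b + 1) + 1 : ℕ)) : ℚ) = ((3 * n : ℕ) : ℚ) := by rw [hn]
      push_cast at h1
      rw [pow_succ] at h1
      rw [div_eq_iff (by norm_num)]
      linarith
    rw [e1, padicValRat.of_nat]
    exact_mod_cast hodd
  · rw [hn]
    exact Dvd.dvd.mul_left hdvd 3

end Pool.Agent.H324R2.PQ
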