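import Pool.Agent.H324R2.PQ.Defs

/-! # Task N4 (helper268) -/

set_option autoImplicit false

namespace Pool.Agent.H324R2.PQ

private theorem N4_aux {ε b : ℕ} (hε : 2 < ε) (hb0 : 0 < b) (h1 : (2 : ZMod ε) ^ b = -1) :
    padicValNat 2 (orderOf (2 : ZMod ε)) = padicValNat 2 b + 1 := by
  have : Fact (Nat.Prime 2) := ⟨Nat.prime_two⟩
  have hne : (-1 : ZMod ε) ≠ 1 := by
    intro h
    have h2 : (((2 : ℕ)) : ZMod ε) = 0 := by
      push_cast
      linear_combination -h
    rw [ZMod.natCast_eq_zero_iff] at h2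
    exact absurd (Nat.le_of_dvd (by norm_num) h2) (by omega)
  set n := orderOf (2 : ZMod ε) with hn
  have h2 : n ∣ 2 * b := by
    apply orderOf_dvd_of_pow_eq_one
    rw [mul_comm, pow_mul, h1]
    norm_num
  have h3 : ¬ n ∣ b := by
    intro h
    apply hne
    rw [← h1]
    exact orderOf_dvd_iff_pow_eq_one.1 h
  have hn0 : n ≠ 0 := by
    intro h
    rw [h, zero_dvd_iff] at h2
    omega
  -- write both numbers as a power of two times an odd number
  obtain ⟨k, n', hn', hnk⟩ := Nat.exists_eq_two_pow_mul_odd hn0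
  obtain ⟨l, b', hb', hbl⟩ := Nat.exists_eq_two_pow_mul_odd (by omega : b ≠ 0)
  have v1 : padicValNat 2 n = k := by
    rw [hnk, padicValNat.mul (by positivity) (by rintro rfl; simp at hn'), padicValNat.prime_pow,
      padicValNat.eq_zero_of_not_dvd, add_zero]
    intro h
    exact (Nat.not_even_iff_odd.2 hn') (even_iff_two_dvd.2 h)
  have v2 : padicValNat 2 b = l := by
    rw [hbl, padicValNat.mul (by positivity) (by rintro rfl; simp at hb'), padicValNat.prime_pow,
      padicValNat.eq_zero_of_not_dvd, add_zero]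
    intro h
    exact (Nat.not_even_iff_odd.2 hb') (even_iff_two_dvd.2 h)
  rw [v1, v2]
  have hn'b : n' ∣ b' := by
    have h4 : n' ∣ 2 ^ (l + 1) * b' := by
      have h5 : n' ∣ n := ⟨2 ^ k, by rw [hnk]; ring⟩
      have h6 := h5.trans h2
      rw [hbl] at h6
      rwa [pow_succ', mul_assoc]
    exact (Nat.Coprime.pow_right _ (Nat.coprime_two_right.2 hn')).dvd_of_dvd_mul_left h4
  have hk1 : k ≤ l + 1 := by
    have h4 : 2 ^ k ∣ 2 ^ (l + 1) * b' := by
      have h5 : 2 ^ k ∣ n := ⟨n', hnk⟩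
      have h6 := h5.trans h2
      rw [hbl] at h6
      rwa [pow_succ', mul_assoc]
    have h7 : 2 ^ k ∣ 2 ^ (l + 1) :=
      (Nat.Coprime.pow_left _ (Nat.coprime_two_left.2 hb')).dvd_of_dvd_mul_right h4
    exact (Nat.pow_dvd_pow_iff_le_right (by norm_num)).1 h7
  have hk2 : ¬ k ≤ l := by
    intro h
    apply h3
    rw [hnk, hbl]
    exact mul_dvd_mul (pow_dvd_pow 2 h) hn'b
  omega

theorem twoadic_lt {ε b m : ℕ} (hε : 2 < ε) (hb0 : 0 < b) (hm0 : 0 < m)
    (h1 : (2 : ZMod ε) ^ b = -1) (h2 : (2 : ZMod ε) ^ m = 1) :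
    padicValNat 2 b < padicValNat 2 m := by
  have : Fact (Nat.Prime 2) := ⟨Nat.prime_two⟩
  have h3 := N4_aux hε hb0 h1
  have h4 : orderOf (2 : ZMod ε) ∣ m := orderOf_dvd_of_pow_eq_one h2
  have h5 : padicValNat 2 (orderOf (2 : ZMod ε)) ≤ padicValNat 2 m := by
    obtain ⟨c, hc⟩ := h4
    have hc0 : c ≠ 0 := by rintro rfl; omega
    have ho0 : orderOf (2 : ZMod ε) ≠ 0 := by intro h; rw [h] at hc; omega
    rw [hc, padicValNat.mul ho0 hc0]
    omega
  omega

theorem twoadic_eq {ε b m : ℕ} (hε : 2 < ε) (hb0 : 0 < b) (hm0 : 0 < m)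
    (h1 : (2 : ZMod ε) ^ b = -1) (h2 : (2 : ZMod ε) ^ m = -1) :
    padicValNat 2 b = padicValNat 2 m := by
  have h3 := N4_aux hε hb0 h1
  have h4 := N4_aux hε hm0 h2
  omega

end Pool.Agent.H324R2.PQ
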