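import Pool.Agent.H324R2.PQ.Defs

/-! # Task N5 (helper760): a common prime factor -/

set_option autoImplicit false

namespace Pool.Agent.H324R2.PQ

theorem common_prime {p M N : ℕ} (hp : In3 p) (hM : Odd M) (h1 : p ∣ 2 ^ M + 1)
    (h2 : p ∣ 2 ^ (2 * N) - 1) : ∃ ε : ℕ, ε.Prime ∧ 2 < ε ∧ ε ∣ M ∧ ε ∣ N := by
  obtain ⟨hpp, hp2, hp3⟩ := hp
  haveI : Fact p.Prime := ⟨hpp⟩
  have e1 : (2 : ZMod p) ^ M = -1 := by
    have h := (ZMod.natCast_eq_zero_iff (2 ^ M + 1) p).2 h1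
    push_cast at h
    exact eq_neg_of_add_eq_zero_left h
  have e1' : (2 : ZMod p) ^ (2 * M) = 1 := by
    rw [mul_comm, pow_mul, e1]
    ring
  have e2 : (2 : ZMod p) ^ (2 * N) = 1 := by
    have h := (ZMod.natCast_eq_zero_iff (2 ^ (2 * N) - 1) p).2 h2
    rw [Nat.cast_sub Nat.one_le_two_pow] at h
    push_cast at h
    exact sub_eq_zero.1 h
  have d1 := orderOf_dvd_of_pow_eq_one e1'
  have d2 := orderOf_dvd_of_pow_eq_one e2
  have d3 := Nat.dvd_gcd d1 d2
  rw [Nat.gcd_mul_left] at d3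
  by_cases hg : Nat.gcd M N = 1
  · exfalso
    rw [hg, mul_one] at d3
    have h3 : (2 : ZMod p) ^ 2 = 1 := orderOf_dvd_iff_pow_eq_one.1 d3
    have h4 : ((3 : ℕ) : ZMod p) = 0 := by
      push_cast
      linear_combination h3
    have h5 := (ZMod.natCast_eq_zero_iff 3 p).1 h4
    have h6 := (Nat.prime_dvd_prime_iff_eq hpp Nat.prime_three).1 h5
    omega
  · refine ⟨(Nat.gcd M N).minFac, Nat.minFac_prime hg, ?_,
      (Nat.minFac_dvd _).trans (Nat.gcd_dvd_left _ _),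
      (Nat.minFac_dvd _).trans (Nat.gcd_dvd_right _ _)⟩
    have hpr := Nat.minFac_prime hg
    rcases hpr.two_le.eq_or_lt with h | h
    · exfalso
      have h7 : 2 ∣ M := by
        rw [h]
        exact (Nat.minFac_dvd _).trans (Nat.gcd_dvd_left _ _)
      obtain ⟨c, hc⟩ := hM
      omega
    · exact h

end Pool.Agent.H324R2.PQ
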