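import Mathlib

/-!
# Powers of two in the rationals: shared definitions

`Test3 N F` is an existential formula over `ℚ` which says (for `N > 0` with even `2`-adic valuation)
that `v_q(F) ≥ 1` for all odd primes `q ≡ 2 (mod 3)` such that `v_q(N)` is odd.
-/

set_option autoImplicit false

namespace Pool.Agent.H324R2.PQ

/-- odd primes `q ≡ 2 (mod 3)`, i.e. odd primes inert in `ℚ(√-3)` -/
def In3 (q : ℕ) : Prop := q.Prime ∧ q ≠ 2 ∧ q % 3 = 2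

/-- nonzero norms from `ℚ(√-3)` -/
def N3 (x : ℚ) : Prop := x ≠ 0 ∧ ∃ c e : ℚ, x = c ^ 2 + 3 * e ^ 2

def T3 (N F : ℚ) : Prop := ∃ w : ℚ, N3 (N * (N + F ^ 2 + 3 * w ^ 2))

def Test3 (N F : ℚ) : Prop :=
  ∃ ν e : ℚ, N3 ν ∧ T3 (1 / (N * ν)) 1 ∧ T3 (N * ν) (144 * (e - 1)) ∧ T3 (N * ν) (144 * e * F)

/-- `v_q(x) ≥ k`, with `v_q(0) = ∞` -/
def Vge (q : ℕ) (k : ℤ) (x : ℚ) : Prop := x = 0 ∨ k ≤ padicValRat q x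

/-- for `x = 2 ^ d` this says that `d` is a power of two, `d ≥ 2` -/
def DD (x : ℚ) : Prop := x ≠ 1 ∧ ∃ a b : ℚ, x - 1 = 3 * (a ^ 2 + b ^ 2)

/-- powers of two -/
def P2 (x : ℚ) : Prop := ∃ n : ℕ, x = 2 ^ n

/-- `x ≤ y` -/
def Le4 (x y : ℚ) : Prop := ∃ a b c d : ℚ, y - x = a ^ 2 + b ^ 2 + c ^ 2 + d ^ 2

/-- says that `t = 2 ^ s` and `U = 2 ^ (2 ^ s)` for some `s ≥ 1` -/
def E1 (t U : ℚ) : Prop :=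
  P2 t ∧ P2 U ∧ DD U ∧ ∃ w C y W W' z z' n h : ℚ,
    P2 w ∧ P2 C ∧ P2 y ∧ P2 W ∧ P2 W' ∧ DD w ∧ DD C ∧ DD W ∧ DD W' ∧ Le4 (2 * t) w ∧ Le4 U w ∧
    C = 2 * y ^ 3 ∧ W = 2 * h ∧ z * (C - 1) = W - 1 ∧ z' * (C - 1) = W' - 1 ∧ 3 * n = 2 * C + 1 ∧
    Test3 (C - 1) (W - 1) ∧ Test3 (C - 1) (z - w) ∧ Test3 n (h ^ 2 - 1) ∧
    Test3 (C - 1) (W' - 1) ∧ Test3 (C - 1) (z' - t) ∧ Test3 n ((W' * U) ^ 2 - 1)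

end Pool.Agent.H324R2.PQ
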