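import Mathlib
import Pool.Agent.H324R2.PQ.Defs

/-! Ratios of Mersenne numbers, divisibility by valuations, sums of four squares. -/

set_option autoImplicit false

namespace Pool.Agent.H324R2.PQ

theorem ratio {c k : ℕ} (hc : 0 < c) {z : ℚ} (h : z * ((2 : ℚ) ^ c - 1) = 2 ^ (c * k) - 1) :
    ∃ Z : ℤ, z = Z ∧ ((2 : ℤ) ^ c - 1) ∣ Z - k := by
  refine ⟨∑ i ∈ Finset.range k, ((2 : ℤ) ^ c) ^ i, ?_, ?_⟩
  · have h1 : (2 : ℚ) ^ c - 1 ≠ 0 := by
      have h2 : (1 : ℚ) < 2 ^ c := one_lt_pow₀ (by norm_num) hc.ne'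
      linarith
    have h3 : (∑ i ∈ Finset.range k, ((2 : ℚ) ^ c) ^ i) * ((2 : ℚ) ^ c - 1) = 2 ^ (c * k) - 1 := by
      rw [geom_sum_mul, pow_mul]
    have h4 := mul_right_cancel₀ h1 (h.trans h3.symm)
    rw [h4]
    push_cast
    rfl
  · have h1 : (∑ i ∈ Finset.range k, ((2 : ℤ) ^ c) ^ i) - k
        = ∑ i ∈ Finset.range k, (((2 : ℤ) ^ c) ^ i - 1) := by
      rw [Finset.sum_sub_distrib]
      simp
    rw [h1]
    refine Finset.dvd_sum fun i _ => ?_
    have := sub_dvd_pow_sub_pow ((2 : ℤ) ^ c) 1 i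
    rwa [one_pow] at this

theorem vge_int {q : ℕ} (hq : q.Prime) {F : ℤ} : Vge q 1 (F : ℚ) ↔ (q : ℤ) ∣ F := by
  have := Fact.mk hq
  unfold Vge
  rcases eq_or_ne F 0 with h | h
  · subst h; simp
  · have h1 : (F : ℚ) ≠ 0 := by exact_mod_cast h
    rw [or_iff_right h1, padicValRat.of_int]
    have h2 := padicValInt_dvd_iff (p := q) 1 F
    rw [pow_one] at h2
    rw [h2, or_iff_right h]
    exact_mod_cast Iff.rfl

theorem le4_iff {x y : ℚ} : Le4 x y ↔ x ≤ y := by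
  constructor
  · rintro ⟨a, b, c, d, h⟩
    have : 0 ≤ y - x := by rw [h]; positivity
    linarith
  · intro h
    have h0 : 0 ≤ y - x := by linarith
    set r := y - x with hr
    obtain ⟨a, b, c, d, habcd⟩ := Nat.sum_four_squares (r.num.toNat * r.den)
    have hnum : ((r.num.toNat : ℕ) : ℚ) = r.num := by
      have h1 : (0 : ℤ) ≤ r.num := Rat.num_nonneg.2 h0
      have h2 : ((r.num.toNat : ℕ) : ℤ) = r.num := Int.toNat_of_nonneg h1
      exact_mod_cast congrArg (Int.cast : ℤ → ℚ) h2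
    have hden : (r.den : ℚ) ≠ 0 := by exact_mod_cast r.den_nz
    refine ⟨a / r.den, b / r.den, c / r.den, d / r.den, ?_⟩
    have h3 : (a : ℚ) ^ 2 + b ^ 2 + c ^ 2 + d ^ 2 = r.num * r.den := by
      rw [← hnum]
      exact_mod_cast habcd
    have h4 : r = r.num / r.den := (Rat.num_div_den r).symm
    have h5 : ((a : ℚ) / r.den) ^ 2 + (b / r.den) ^ 2 + (c / r.den) ^ 2 + (d / r.den) ^ 2
        = (a ^ 2 + b ^ 2 + c ^ 2 + d ^ 2) / r.den ^ 2 := by ring
    rw [h5, h3, ← hr]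
    conv_lhs => rw [h4]
    field_simp

end Pool.Agent.H324R2.PQ
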