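import Pool.Agent.H324R2.PQ.K5
import Pool.Agent.H324R2.PQ.N1
import Pool.Agent.H324R2.PQ.N2
import Pool.Agent.H324R2.PQ.N3
import Pool.Agent.H324R2.PQ.N4
import Pool.Agent.H324R2.PQ.N5
import Pool.Agent.H324R2.PQ.R1

/-! # Task EC: completeness of `E1` -/

set_option autoImplicit false

namespace Pool.Agent.H324R2.PQ

/-- `Test3` for an odd positive integer dividing an integer -/
private theorem EC_test {N F : ℤ} (hN : 0 < N) (ho : Odd N) (h : N ∣ F) : Test3 (N : ℚ) (F : ℚ) := by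
  refine Test3.compl (by exact_mod_cast hN) ?_ ?_
  · have h2 : padicValRat 2 (N : ℚ) = 0 := by
      rw [padicValRat.of_int]
      have : padicValInt 2 N = 0 := by
        apply padicValInt.eq_zero_of_not_dvd
        intro h2
        rw [← Int.not_even_iff_odd] at ho
        exact ho (even_iff_two_dvd.2 (by exact_mod_cast h2))
      rw [this]
      rfl
    rw [h2]
    exact Even.zero
  · intro q hq hodd
    rw [vge_int hq.1]
    have hqN : (q : ℤ) ∣ N := by
      by_contra hne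
      rw [padicValRat.of_int, padicValInt.eq_zero_of_not_dvd hne] at hodd
      simp at hodd
    exact hqN.trans h

private theorem EC_pow_dvd (m k : ℕ) : ((2 : ℤ) ^ m + 1) ∣ 2 ^ (2 * (m * k)) - 1 := by
  have h1 : ((2 : ℤ) ^ m + 1) ∣ (2 ^ (2 * m)) - 1 := by
    refine ⟨2 ^ m - 1, ?_⟩
    rw [two_mul, pow_add]
    ring
  have h2 : ((2 : ℤ) ^ (2 * m) - 1) ∣ 2 ^ (2 * (m * k)) - 1 := by
    have := sub_one_dvd_pow_sub_one ((2 : ℤ) ^ (2 * m)) k
    rw [← pow_mul] at this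
    rwa [show 2 * (m * k) = 2 * m * k by ring]
  exact h1.trans h2

/-- task EC -/
theorem E1.compl {s : ℕ} (hs : 1 ≤ s) : E1 (2 ^ s) (2 ^ (2 ^ s)) := by
  set b := 2 ^ s with hb
  have hb2 : 2 ≤ b := by
    calc 2 = 2 ^ 1 := by norm_num
      _ ≤ 2 ^ s := Nat.pow_le_pow_right (by norm_num) hs
  have hbe : Even b := by
    rw [hb]
    exact (Nat.even_pow.2 ⟨even_two, by omega⟩)
  set c := 2 ^ b with hc
  have hc0 : 0 < c := by positivity
  have hc4 : 4 ≤ c := by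
    calc 4 = 2 ^ 2 := by norm_num
      _ ≤ 2 ^ b := Nat.pow_le_pow_right (by norm_num) hb2
  have hc3 : c % 3 = 1 := by
    obtain ⟨r, hr⟩ := hbe
    rw [hc, hr, ← two_mul, pow_mul, Nat.pow_mod]
    norm_num
  -- the quotients
  have hC0 : (0 : ℚ) < 2 ^ c - 1 := by
    have : (1 : ℚ) < 2 ^ c := one_lt_pow₀ (by norm_num) (by omega)
    linarith
  obtain ⟨Z, hZ, hZd⟩ := ratio (c := c) (k := c) hc0
    (z := ((2 : ℚ) ^ (c * c) - 1) / (2 ^ c - 1)) (div_mul_cancel₀ _ hC0.ne')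
  obtain ⟨Z', hZ', hZd'⟩ := ratio (c := c) (k := b) hc0
    (z := ((2 : ℚ) ^ (c * b) - 1) / (2 ^ c - 1)) (div_mul_cancel₀ _ hC0.ne')
  have hZm : (Z : ℚ) * (2 ^ c - 1) = 2 ^ (c * c) - 1 := by
    rw [← hZ]
    exact div_mul_cancel₀ _ hC0.ne'
  have hZm' : (Z' : ℚ) * (2 ^ c - 1) = 2 ^ (c * b) - 1 := by
    rw [← hZ']
    exact div_mul_cancel₀ _ hC0.ne'
  -- the number n
  obtain ⟨n, hn⟩ : ∃ n : ℤ, 3 * n = 2 ^ (c + 1) + 1 := by
    have h3 : (3 : ℤ) ∣ 2 ^ (c + 1) + 1 := by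
      have hce : Odd (c + 1) := by
        have : Even c := by
          rw [hc]
          exact Nat.even_pow.2 ⟨even_two, by omega⟩
        exact this.add_one
      have := Odd.add_dvd_pow_add_pow (2 : ℤ) 1 hce
      norm_num at this
      exact this
    obtain ⟨n, hn⟩ := h3
    exact ⟨n, hn.symm⟩
  have hpos : (0 : ℤ) < 2 ^ (c + 1) := by positivity
  have hn0 : 0 < n := by omega
  have hno : Odd n := by
    have he : Even ((2 : ℤ) ^ (c + 1)) := by
      rw [pow_succ]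
      exact even_two.mul_left _
    by_contra hne
    rw [Int.not_odd_iff_even] at hne
    obtain ⟨r, hr⟩ := hne
    obtain ⟨q, hq⟩ := he
    omega
  have hnd : ∀ k : ℕ, n ∣ 2 ^ (2 * ((c + 1) * k)) - 1 := by
    intro k
    have h1 : n ∣ 2 ^ (c + 1) + 1 := ⟨3, by rw [← hn]; ring⟩
    exact h1.trans (EC_pow_dvd (c + 1) k)
  -- the modulus
  have hCp : (0 : ℤ) < 2 ^ c - 1 := by exact_mod_cast hC0
  have hCo : Odd ((2 : ℤ) ^ c - 1) := by
    have he : Even ((2 : ℤ) ^ c) := by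
      rw [Int.even_pow]
      exact ⟨even_two, by omega⟩
    exact he.sub_odd odd_one
  have hP2 : ∀ d : ℕ, P2 ((2 : ℚ) ^ d) := fun d => ⟨d, rfl⟩
  have hDD : ∀ r : ℕ, 1 ≤ r → DD ((2 : ℚ) ^ (2 ^ r)) := fun r hr => DD_pow.2 ⟨r, hr, rfl⟩
  have hcc : c * c = 2 ^ (2 * b) := by rw [hc, ← pow_add]; congr 1; ring
  have hcb : c * b = 2 ^ (b + s) := by rw [hc, hb, ← pow_add]
  have hcast : (2 : ℚ) ^ b = ((c : ℤ) : ℚ) := by rw [hc]; push_cast; rfl
  have hcast' : (2 : ℚ) ^ s = ((b : ℤ) : ℚ) := by rw [hb]; push_cast; rfl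
  have hccpos : 1 ≤ c * c := Nat.mul_pos hc0 hc0
  refine ⟨hP2 s, hP2 b, hDD s hs, 2 ^ b, 2 ^ c, 2 ^ ((c - 1) / 3), 2 ^ (c * c), 2 ^ (c * b),
    Z, Z', n, 2 ^ (c * c - 1), hP2 _, hP2 _, hP2 _, hP2 _, hP2 _, hDD s hs, hDD b (by omega),
    ?_, ?_, ?_, ?_, ?_, ?_, hZm, hZm', ?_, ?_, ?_, ?_, ?_, ?_, ?_⟩
  · rw [hcc]
    exact hDD _ (by omega)
  · rw [hcb]
    exact hDD _ (by omega)
  · rw [le4_iff, ← pow_succ']
    refine pow_le_pow_right₀ (by norm_num) ?_
    have : s < 2 ^ s := Nat.lt_two_pow_self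
    omega
  · rw [le4_iff]
  · rw [← pow_mul, ← pow_succ']
    congr 1
    omega
  · rw [← pow_succ']
    congr 1
    omega
  · have : ((3 * n : ℤ) : ℚ) = ((2 ^ (c + 1) + 1 : ℤ) : ℚ) := by rw [hn]
    push_cast at this
    rw [this, pow_succ]
    ring
  · have := EC_test hCp hCo (F := 2 ^ (c * c) - 1) ⟨Z, by
      have : (((2 : ℤ) ^ (c * c) - 1 : ℤ) : ℚ) = (((2 ^ c - 1) * Z : ℤ) : ℚ) := by
        push_cast
        rw [← hZm]
        ring
      exact_mod_cast this⟩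
    push_cast at this
    exact this
  · have := EC_test hCp hCo (F := Z - c) (by exact_mod_cast hZd)
    rw [hcast]
    push_cast at this ⊢
    exact this
  · have := EC_test hn0 hno (F := 2 ^ (2 * ((c + 1) * (c - 1))) - 1) (hnd _)
    push_cast at this
    have e : (2 : ℚ) ^ (2 * ((c + 1) * (c - 1))) = (2 ^ (c * c - 1)) ^ 2 := by
      rw [← pow_mul]
      congr 1
      obtain ⟨d, hd⟩ : ∃ d, c = d + 1 := ⟨c - 1, by omega⟩
      rw [hd]
      have : (d + 1) * (d + 1) - 1 = (d + 1 + 1) * (d + 1 - 1) := by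
        rw [Nat.add_sub_cancel]
        have : (d + 1) * (d + 1) = (d + 1 + 1) * d + 1 := by ring
        omega
      rw [this]
      ring
    rw [e] at this
    exact this
  · have := EC_test hCp hCo (F := 2 ^ (c * b) - 1) ⟨Z', by
      have : (((2 : ℤ) ^ (c * b) - 1 : ℤ) : ℚ) = (((2 ^ c - 1) * Z' : ℤ) : ℚ) := by
        push_cast
        rw [← hZm']
        ring
      exact_mod_cast this⟩
    push_cast at this
    exact this
  · have := EC_test hCp hCo (F := Z' - b) (by exact_mod_cast hZd')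
    rw [hcast']
    push_cast at this ⊢
    exact this
  · have := EC_test hn0 hno (F := 2 ^ (2 * ((c + 1) * b)) - 1) (hnd _)
    push_cast at this
    have e : (2 : ℚ) ^ (2 * ((c + 1) * b)) = (2 ^ (c * b) * 2 ^ b) ^ 2 := by
      rw [← pow_add, ← pow_mul]
      congr 1
      ring
    rw [e] at this
    exact this

end Pool.Agent.H324R2.PQ
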