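import Pool.Agent.H324R2.PQ.ES
import Pool.Agent.H324R2.PQ.EC
import Pool.Agent.H324R2.PQ.DefsCode

/-! # Task CC: completeness of the code (helper641) -/

set_option autoImplicit false

namespace Pool.Agent.H324R2.PQ

open Pool.Agent.Helper967.Dio.Sys

private theorem CC_int {c : ℕ} (hc : 0 < c) {F : ℤ} (h : ((2 : ℤ) ^ c - 1) ∣ F) :
    Test3 ((2 : ℚ) ^ c - 1) (F : ℚ) := by
  have h1 : (1 : ℤ) < 2 ^ c := one_lt_pow₀ (by norm_num) (by omega)
  have hcast : ((2 : ℚ) ^ c - 1) = (((2 : ℤ) ^ c - 1 : ℤ) : ℚ) := by push_cast; ring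
  have h0 : ((2 : ℤ) ^ c - 1) ≠ 0 := by omega
  apply Test3.compl
  · rw [hcast]; exact_mod_cast (by omega : (0 : ℤ) < 2 ^ c - 1)
  · rw [hcast, padicValRat.of_int]
    have h2 : ¬ (2 : ℤ) ∣ 2 ^ c - 1 := by
      have : (2 : ℤ) ∣ 2 ^ c := dvd_pow_self 2 (by omega)
      omega
    have : padicValInt 2 ((2 : ℤ) ^ c - 1) = 0 := padicValInt.eq_zero_of_not_dvd (by exact_mod_cast h2)
    rw [this]; simp
  · intro q hq hodd
    have : Fact q.Prime := ⟨hq.1⟩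
    rw [vge_int hq.1]
    refine dvd_trans ?_ h
    by_contra hnd
    rw [hcast, padicValRat.of_int, padicValInt.eq_zero_of_not_dvd hnd] at hodd
    simp at hodd

private theorem CC_X {c : ℕ} (hc : 0 < c) (n : ℤ) : ∃ t : ℤ,
    ((2 : ℚ) ^ (c * n.toNat) - 2 ^ (c * (-n).toNat)) / (2 ^ c - 1)
      = ((n + (2 ^ c - 1) * t : ℤ) : ℚ) := by
  have h1 : (1 : ℚ) < 2 ^ c := one_lt_pow₀ (by norm_num) (by omega)
  have h0 : ((2 : ℚ) ^ c - 1) ≠ 0 := by linarith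
  obtain ⟨Z, hZ, d, hd⟩ := ratio (k := n.toNat) hc
    (z := ((2 : ℚ) ^ (c * n.toNat) - 1) / (2 ^ c - 1)) (div_mul_cancel₀ _ h0)
  obtain ⟨Z', hZ', d', hd'⟩ := ratio (k := (-n).toNat) hc
    (z := ((2 : ℚ) ^ (c * (-n).toNat) - 1) / (2 ^ c - 1)) (div_mul_cancel₀ _ h0)
  refine ⟨d - d', ?_⟩
  have hn : n = (n.toNat : ℤ) - ((-n).toNat : ℤ) := by omega
  have e : ((2 : ℚ) ^ (c * n.toNat) - 2 ^ (c * (-n).toNat)) / (2 ^ c - 1)
      = ((2 : ℚ) ^ (c * n.toNat) - 1) / (2 ^ c - 1)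
        - ((2 : ℚ) ^ (c * (-n).toNat) - 1) / (2 ^ c - 1) := by ring
  rw [e, hZ, hZ']
  have : Z - Z' = n + (2 ^ c - 1) * (d - d') := by
    have h3 : Z = n.toNat + (2 ^ c - 1) * d := by linarith
    have h4 : Z' = (-n).toNat + (2 ^ c - 1) * d' := by linarith
    rw [h3, h4]
    generalize (2 : ℤ) ^ c = C at *
    linear_combination -hn
  rw [← this]; push_cast; ring

/-- task CC -/
theorem Code.compl {V : Type} [Finite V] {f : V} {L : List (Eqn V)} {A K : ℕ}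
    (h : ∃ x : V → ℤ, x f = 1 - 4 * K ∧ ∀ q ∈ L, q.Holds x) :
    Code f L A K := by
  obtain ⟨n, hf, hL⟩ := h
  obtain ⟨M, hM⟩ := (Set.finite_range (fun v => (n v).natAbs)).bddAbove
  have hM' : ∀ v, (n v).natAbs ≤ M := fun v => hM ⟨v, rfl⟩
  obtain ⟨b, hb1, hbA, hba, hbM⟩ : ∃ b : ℕ, 1 ≤ b ∧ A ≤ 2 ^ b ∧ K ≤ 2 ^ b ∧ M ≤ 2 ^ b := by
    have key := (Nat.lt_two_pow_self (n := A + K + M + 1)).le
    refine ⟨A + K + M + 1, Nat.le_add_left _ _, ?_, ?_, ?_⟩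
    · exact le_trans (by
        have := Nat.zero_le (K + M + 1)
        calc A ≤ A + (K + M + 1) := Nat.le_add_right _ _
          _ = A + K + M + 1 := by ring) key
    · exact le_trans (by
        calc K ≤ K + (A + M + 1) := Nat.le_add_right _ _
          _ = A + K + M + 1 := by ring) key
    · exact le_trans (by
        calc M ≤ M + (A + K + 1) := Nat.le_add_right _ _
          _ = A + K + M + 1 := by ring) key
  set c : ℕ := 2 ^ (3 * b) with hc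
  have hc0 : 0 < c := by positivity
  choose t ht using fun v => CC_X hc0 (n v)
  have hk : ∀ k : ℕ, k ≤ M → Le4 ((2 : ℚ) ^ (c * k)) (2 ^ (2 ^ (4 * b))) := by
    intro k hkM
    rw [le4_iff]
    apply pow_le_pow_right₀ (by norm_num)
    calc c * k ≤ c * 2 ^ b := Nat.mul_le_mul_left _ (hkM.trans hbM)
      _ = 2 ^ (4 * b) := by rw [hc, ← pow_add]; congr 1; ring
  have hgeo : ∀ k : ℕ, Test3 ((2 : ℚ) ^ c - 1) ((2 : ℚ) ^ (c * k) - 1) := by
    intro k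
    have := CC_int hc0 (F := (2 : ℤ) ^ (c * k) - 1) (by
      rw [pow_mul]
      simpa using sub_dvd_pow_sub_pow ((2 : ℤ) ^ c) 1 k)
    simpa using this
  refine ⟨2 ^ b, 2 ^ c, 2 ^ (2 ^ (4 * b)), ⟨b, rfl⟩, ⟨c, rfl⟩, ⟨_, rfl⟩, ?_, ?_, ?_, ?_,
    fun v => 2 ^ (c * (n v).toNat), fun v => 2 ^ (c * (-(n v)).toNat),
    fun v => ((2 : ℚ) ^ (c * (n v).toNat) - 2 ^ (c * (-(n v)).toNat)) / (2 ^ c - 1),
    ?_, ?_, ?_⟩
  · rw [le4_iff]; exact_mod_cast hbA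
  · rw [le4_iff]; exact_mod_cast hba
  · have := E1.compl (s := 3 * b) (by omega)
    rw [← pow_mul, mul_comm b 3]; exact this
  · have := E1.compl (s := 4 * b) (by omega)
    rw [← pow_mul, mul_comm b 4]; exact this
  · intro v
    have h1 : (1 : ℚ) < 2 ^ c := one_lt_pow₀ (by norm_num) (by omega)
    have h0 : ((2 : ℚ) ^ c - 1) ≠ 0 := by linarith
    have hv := hM' v
    refine ⟨⟨_, rfl⟩, ⟨_, rfl⟩, hk _ (by omega), hk _ (by omega), hgeo _, hgeo _, ?_⟩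
    exact div_mul_cancel₀ _ h0
  · intro q hq
    have hq0 := hL q hq
    unfold Eqn.Holds at hq0
    unfold evalQ
    simp only [ht]
    have key : ((2 : ℤ) ^ c - 1) ∣
        q.e * ((n q.i + (2 ^ c - 1) * t q.i) * (n q.j + (2 ^ c - 1) * t q.j))
          + q.a * (n q.k + (2 ^ c - 1) * t q.k) + q.b * (n q.l + (2 ^ c - 1) * t q.l)
          + q.c * (n q.m + (2 ^ c - 1) * t q.m) + q.d := by
      refine ⟨q.e * (n q.i * t q.j + t q.i * n q.j + (2 ^ c - 1) * (t q.i * t q.j))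
        + q.a * t q.k + q.b * t q.l + q.c * t q.m, ?_⟩
      generalize (2 : ℤ) ^ c - 1 = m
      linear_combination hq0
    have := CC_int hc0 key
    convert this using 1
    push_cast; ring
  · show Test3 _ (((2 : ℚ) ^ (c * (n f).toNat) - 2 ^ (c * (-(n f)).toNat)) / (2 ^ c - 1)
      - (1 - 4 * K))
    rw [ht f]
    have := CC_int hc0 (F := (2 ^ c - 1) * t f) (Dvd.intro _ rfl)
    convert this using 1
    rw [hf]; push_cast; ring

end Pool.Agent.H324R2.PQ
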