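import Pool.Agent.H324R2.PQ.ES
import Pool.Agent.H324R2.PQ.EC
import Pool.Agent.H324R2.PQ.DefsCode

/-! # Task CS: soundness of `Code` -/

set_option autoImplicit false

namespace Pool.Agent.H324R2.PQ

open Pool.Agent.Helper967.Dio.Sys

/-- the left-hand side of the equation `q` at an integral point -/
private def evZ {V : Type} (n : V → ℤ) (q : Eqn V) : ℤ :=
  q.e * (n q.i * n q.j) + q.a * n q.k + q.b * n q.l + q.c * n q.m + q.d

private theorem CS_evZ_cast {V : Type} (n : V → ℤ) (q : Eqn V) :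
    evalQ (fun v => (n v : ℚ)) q = ((evZ n q : ℤ) : ℚ) := by
  simp [evalQ, evZ]

private theorem CS_evZ_congr {V : Type} {p : ℤ} {X n : V → ℤ} (h : ∀ v, p ∣ X v - n v)
    (q : Eqn V) : p ∣ evZ X q - evZ n q := by
  have e : evZ X q - evZ n q = q.e * ((X q.i - n q.i) * X q.j + n q.i * (X q.j - n q.j)) +
      q.a * (X q.k - n q.k) + q.b * (X q.l - n q.l) + q.c * (X q.m - n q.m) := by
    simp only [evZ]; ring
  rw [e]
  exact dvd_add (dvd_add (dvd_add ((dvd_add ((h _).mul_right _) ((h _).mul_left _)).mul_left _)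
    ((h _).mul_left _)) ((h _).mul_left _)) ((h _).mul_left _)

private theorem CS_evZ_bound {V : Type} {S A : ℤ} {n : V → ℤ} (hS : 1 ≤ S) (h : ∀ v, |n v| ≤ S)
    {q : Eqn V} (hq : |q.e| + |q.a| + |q.b| + |q.c| + |q.d| ≤ A) (hA : A ≤ S) :
    |evZ n q| ≤ S ^ 3 := by
  have hSS : S ≤ S ^ 2 := by nlinarith
  have h1 : |q.e * (n q.i * n q.j)| ≤ |q.e| * S ^ 2 := by
    rw [abs_mul, abs_mul, sq]
    exact mul_le_mul_of_nonneg_left
      (mul_le_mul (h _) (h _) (abs_nonneg _) (by omega)) (abs_nonneg _)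
  have h2 : ∀ (a : ℤ) (v : V), |a * n v| ≤ |a| * S ^ 2 := by
    intro a v
    rw [abs_mul]
    exact mul_le_mul_of_nonneg_left ((h _).trans hSS) (abs_nonneg _)
  have h3 : |q.d| ≤ |q.d| * S ^ 2 := le_mul_of_one_le_right (abs_nonneg _) (by omega)
  calc |evZ n q| ≤ |q.e * (n q.i * n q.j)| + |q.a * n q.k| + |q.b * n q.l| + |q.c * n q.m| +
        |q.d| := by
        unfold evZ
        refine (abs_add_le _ _).trans (add_le_add ?_ le_rfl)
        refine (abs_add_le _ _).trans (add_le_add ?_ le_rfl)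
        refine (abs_add_le _ _).trans (add_le_add ?_ le_rfl)
        exact abs_add_le _ _
    _ ≤ |q.e| * S ^ 2 + |q.a| * S ^ 2 + |q.b| * S ^ 2 + |q.c| * S ^ 2 + |q.d| * S ^ 2 := by
        have := h2 q.a q.k
        have := h2 q.b q.l
        have := h2 q.c q.m
        linarith
    _ = (|q.e| + |q.a| + |q.b| + |q.c| + |q.d|) * S ^ 2 := by ring
    _ ≤ S * S ^ 2 := mul_le_mul_of_nonneg_right (hq.trans hA) (by positivity)
    _ = S ^ 3 := by ring

/-- task CS -/
theorem Code.sound {V : Type} {f : V} {L : List (Eqn V)} {A K : ℕ} (hA : 8 ≤ A)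
    (hL : ∀ q ∈ L, |q.e| + |q.a| + |q.b| + |q.c| + |q.d| ≤ (A : ℤ))
    (h : Code f L A K) :
    ∃ x : V → ℤ, x f = 1 - 4 * K ∧ ∀ q ∈ L, q.Holds x := by
  obtain ⟨S, C, G, ⟨b, hSb⟩, -, -, hAS, hXS, hE1, hE2, l, l', x, hv, hq, hf⟩ := h
  rw [le4_iff] at hAS hXS
  obtain ⟨s, hs1, hs2, hs3⟩ := E1.sound hE1
  obtain ⟨s', hs1', hs2', hs3'⟩ := E1.sound hE2
  have hb1 : s = 3 * b := by
    rw [hSb, ← pow_mul] at hs2
    have := pow_right_injective₀ (a := (2 : ℚ)) (by norm_num) (by norm_num) hs2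
    omega
  have hb2 : s' = 4 * b := by
    rw [hSb, ← pow_mul] at hs2'
    have := pow_right_injective₀ (a := (2 : ℚ)) (by norm_num) (by norm_num) hs2'
    omega
  subst hb1 hb2
  have hb0 : 1 ≤ b := by omega
  obtain ⟨p, hp, hodd, hord⟩ := vis_c (b := 3 * b) (by omega)
  have : Fact p.Prime := ⟨hp.1⟩
  set c : ℕ := 2 ^ (3 * b) with hc
  have hc0 : 0 < c := by positivity
  set Sn : ℕ := 2 ^ b with hSn
  have hcS : c = Sn ^ 3 := by rw [hc, hSn, ← pow_mul, mul_comm]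
  have hSq : S = (Sn : ℚ) := by rw [hSb, hSn]; push_cast; rfl
  have hASn : A ≤ Sn := by rw [hSq] at hAS; exact_mod_cast hAS
  have hXSn : K ≤ Sn := by rw [hSq] at hXS; exact_mod_cast hXS
  have hSn8 : 8 ≤ Sn := hA.trans hASn
  have h20 : (2 : ZMod p) ≠ 0 := by
    intro h0
    have : ((2 : ℕ) : ZMod p) = 0 := by exact_mod_cast h0
    rw [ZMod.natCast_eq_zero_iff] at this
    exact hp.2.1 ((Nat.prime_dvd_prime_iff_eq hp.1 Nat.prime_two).1 this)
  have hcp : c < p := by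
    have h1 : c ∣ p - 1 := by
      rw [← hord]
      exact ZMod.orderOf_dvd_card_sub_one h20
    have h2 := hp.1.two_le
    have := Nat.le_of_dvd (by omega) h1
    omega
  have hC : C - 1 = (2 : ℚ) ^ c - 1 := by rw [hs3]
  have hCne : C - 1 ≠ 0 := by
    rw [hC]
    have : (1 : ℚ) < 2 ^ c := one_lt_pow₀ (by norm_num) (by omega)
    exact ne_of_gt (by linarith)
  have hCodd : Odd (padicValRat p (C - 1)) := by rw [hC]; exact hodd
  -- `p ∣ 2 ^ c - 1`
  have hpc : (p : ℤ) ∣ 2 ^ c - 1 := by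
    rw [← ZMod.intCast_zmod_eq_zero_iff_dvd]
    push_cast
    rw [← hord, pow_orderOf_eq_one, sub_self]
  -- every `l v` is `2 ^ (c k)`
  have key : ∀ y : ℚ, P2 y → Le4 y G → Test3 (C - 1) (y - 1) →
      ∃ k : ℕ, k ≤ Sn ∧ y = 2 ^ (c * k) := by
    intro y hy hyG ht
    obtain ⟨m, hm⟩ := hy
    rw [le4_iff] at hyG
    have h1 := Test3.sound hCne ht hp hCodd
    have h2 : y - 1 = (((2 : ℤ) ^ m - 1 : ℤ) : ℚ) := by rw [hm]; push_cast; rfl
    rw [h2, vge_int hp.1] at h1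
    have h3 : c ∣ m := by
      rw [← hord, orderOf_dvd_iff_pow_eq_one]
      rw [← ZMod.intCast_zmod_eq_zero_iff_dvd] at h1
      push_cast at h1
      exact sub_eq_zero.1 h1
    obtain ⟨k, hk⟩ := h3
    refine ⟨k, ?_, by rw [hm, hk]⟩
    rw [hm, hs3', pow_le_pow_iff_right₀ (by norm_num), hk] at hyG
    have h4 : (2 : ℕ) ^ (4 * b) = c * Sn := by rw [hc, hSn, ← pow_add]; congr 1; ring
    rw [h4] at hyG
    exact Nat.le_of_mul_le_mul_left hyG hc0
  choose k hk hkl using fun v => key (l v) (hv v).1 (hv v).2.2.1 (hv v).2.2.2.2.1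
  choose k' hk' hkl' using fun v => key (l' v) (hv v).2.1 (hv v).2.2.2.1 (hv v).2.2.2.2.2.1
  -- the values `x v` are integers
  have hX : ∀ v, ∃ X : ℤ, x v = X ∧ (p : ℤ) ∣ X - ((k v : ℤ) - k' v) := by
    intro v
    obtain ⟨Z, hZ, hZ'⟩ := ratio (k := k v) (z := (2 ^ (c * k v) - 1) / ((2 : ℚ) ^ c - 1)) hc0
      (div_mul_cancel₀ _ (by rw [← hC]; exact hCne))
    obtain ⟨W, hW, hW'⟩ := ratio (k := k' v) (z := (2 ^ (c * k' v) - 1) / ((2 : ℚ) ^ c - 1)) hc0
      (div_mul_cancel₀ _ (by rw [← hC]; exact hCne))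
    refine ⟨Z - W, ?_, ?_⟩
    · have h1 := (hv v).2.2.2.2.2.2
      have h2 : x v = (l v - l' v) / (C - 1) := by
        rw [eq_div_iff hCne]; exact h1
      rw [h2, hkl v, hkl' v, hC]
      push_cast
      rw [← hZ, ← hW, ← sub_div]
      congr 1
      ring
    · have h1 := dvd_sub (hpc.trans hZ') (hpc.trans hW')
      have h2 : Z - W - ((k v : ℤ) - k' v) = Z - k v - (W - k' v) := by ring
      rw [h2]; exact h1
  choose X hX1 hX2 using hX
  have hxX : x = fun v => (X v : ℚ) := funext hX1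
  have hSpos : (1 : ℤ) ≤ Sn := by exact_mod_cast (by omega : 1 ≤ Sn)
  have hn : ∀ v, |(k v : ℤ) - k' v| ≤ Sn := by
    intro v
    have h1 := hk v
    have h2 := hk' v
    rw [abs_le]
    constructor <;> omega
  refine ⟨fun v => (k v : ℤ) - k' v, ?_, ?_⟩
  · have h1 := Test3.sound hCne hf hp hCodd
    have h2 : x f - (1 - 4 * K) = ((X f - (1 - 4 * K) : ℤ) : ℚ) := by
      rw [hX1]; push_cast; ring
    rw [h2, vge_int hp.1] at h1
    have h3 : (p : ℤ) ∣ ((k f : ℤ) - k' f) - (1 - 4 * K) := by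
      have := dvd_sub h1 (hX2 f)
      have e : (X f - (1 - 4 * K)) - (X f - ((k f : ℤ) - k' f)) =
        ((k f : ℤ) - k' f) - (1 - 4 * K) := by ring
      rwa [e] at this
    have h4 : |((k f : ℤ) - k' f) - (1 - 4 * K)| < p := by
      have h5 := abs_le.1 (hn f)
      have h6 : (K : ℤ) ≤ Sn := by exact_mod_cast hXSn
      have h7 : (0 : ℤ) ≤ K := Int.natCast_nonneg K
      have h8 : (6 : ℤ) * Sn ≤ c := by
        rw [hcS]
        push_cast
        have h9 : (8 : ℤ) ≤ Sn := by exact_mod_cast hSn8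
        nlinarith [mul_pos (by linarith : (0 : ℤ) < Sn) (by linarith : (0 : ℤ) < Sn)]
      have h9 : (c : ℤ) < p := by exact_mod_cast hcp
      rw [abs_lt]
      constructor <;> linarith
    have h5 := Int.eq_zero_of_abs_lt_dvd h3 h4
    exact sub_eq_zero.1 h5
  · intro q hqL
    have h1 := Test3.sound hCne (hq q hqL) hp hCodd
    rw [hxX, CS_evZ_cast, vge_int hp.1] at h1
    have h2 : (p : ℤ) ∣ evZ (fun v => (k v : ℤ) - k' v) q := by
      have := dvd_sub h1 (CS_evZ_congr hX2 q)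
      rwa [sub_sub_cancel] at this
    have h3 := CS_evZ_bound (S := Sn) (A := A) hSpos hn (hL q hqL) (by exact_mod_cast hASn)
    have h4 : |evZ (fun v => (k v : ℤ) - k' v) q| < p := by
      refine lt_of_le_of_lt h3 ?_
      have : (c : ℤ) < p := by exact_mod_cast hcp
      rw [hcS] at this
      push_cast at this
      exact this
    exact Int.eq_zero_of_abs_lt_dvd h2 h4

end Pool.Agent.H324R2.PQ
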