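import Pool.Agent.H324R2.PQ.DefsCode

/-!
# Relations over `ℚ` that are existentially definable with quantification over powers of two
-/

set_option autoImplicit false

namespace Pool.Agent.H324R2.PQ

open MvPolynomial

/-- polynomial functions with integer coefficients -/
def PF {ι : Type} (g : (ι → ℚ) → ℚ) : Prop := ∃ p : MvPolynomial ι ℤ, ∀ v, g v = aeval v p

section PF
variable {ι ι' : Type} {f g : (ι → ℚ) → ℚ}

theorem PF.proj (i : ι) : PF (fun v => v i) := ⟨X i, fun v => by simp⟩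

theorem PF.int (n : ℤ) : PF (fun _ : ι → ℚ => (n : ℚ)) := ⟨C n, fun v => by simp⟩

theorem PF.nat (n : ℕ) : PF (fun _ : ι → ℚ => (n : ℚ)) := by simpa using PF.int (ι := ι) n

theorem PF.zero : PF (fun _ : ι → ℚ => (0 : ℚ)) := by simpa using PF.int (ι := ι) 0

theorem PF.one : PF (fun _ : ι → ℚ => (1 : ℚ)) := by simpa using PF.int (ι := ι) 1

theorem PF.ofNat (n : ℕ) [n.AtLeastTwo] : PF (fun _ : ι → ℚ => (OfNat.ofNat n : ℚ)) := by
  have h := PF.nat (ι := ι) (OfNat.ofNat n)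
  rwa [show ((OfNat.ofNat n : ℕ) : ℚ) = OfNat.ofNat n from Nat.cast_ofNat] at h

theorem PF.add (hf : PF f) (hg : PF g) : PF (fun v => f v + g v) := by
  obtain ⟨p, hp⟩ := hf
  obtain ⟨q, hq⟩ := hg
  exact ⟨p + q, fun v => by simp [hp, hq]⟩

theorem PF.sub (hf : PF f) (hg : PF g) : PF (fun v => f v - g v) := by
  obtain ⟨p, hp⟩ := hf
  obtain ⟨q, hq⟩ := hg
  exact ⟨p - q, fun v => by simp [hp, hq]⟩

theorem PF.mul (hf : PF f) (hg : PF g) : PF (fun v => f v * g v) := by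
  obtain ⟨p, hp⟩ := hf
  obtain ⟨q, hq⟩ := hg
  exact ⟨p * q, fun v => by simp [hp, hq]⟩

theorem PF.pow (hf : PF f) (n : ℕ) : PF (fun v => f v ^ n) := by
  obtain ⟨p, hp⟩ := hf
  exact ⟨p ^ n, fun v => by simp [hp]⟩

theorem PF.reindex (σ : ι → ι') (hf : PF f) : PF (fun v : ι' → ℚ => f (fun i => v (σ i))) := by
  obtain ⟨p, hp⟩ := hf
  refine ⟨rename σ p, fun v => ?_⟩
  rw [aeval_rename]
  exact hp _

end PF

/-- `R` is existentially definable over `ℚ` with quantifiers over `ℚ` and over powers of two -/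
def DP {ι : Type} (R : (ι → ℚ) → Prop) : Prop :=
  ∃ (κ μ : Type) (_ : Finite κ) (_ : Finite μ) (f : MvPolynomial (ι ⊕ κ ⊕ μ) ℤ),
    ∀ v : ι → ℚ, R v ↔ ∃ (u : κ → ℕ) (y : μ → ℚ),
      aeval (Sum.elim v (Sum.elim (fun i => (2 : ℚ) ^ (u i)) y)) f = 0

section DP
variable {ι ι' α : Type}

theorem DP.congr {R R' : (ι → ℚ) → Prop} (h : DP R) (hR : ∀ v, R' v ↔ R v) : DP R' := by
  obtain ⟨κ, μ, hκ, hμ, f, hf⟩ := h
  exact ⟨κ, μ, hκ, hμ, f, fun v => (hR v).trans (hf v)⟩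

theorem DP.eq {f g : (ι → ℚ) → ℚ} (hf : PF f) (hg : PF g) : DP (fun v => f v = g v) := by
  obtain ⟨p, hp⟩ := hf
  obtain ⟨q, hq⟩ := hg
  refine ⟨Empty, Empty, inferInstance, inferInstance, rename Sum.inl (p - q), fun v => ?_⟩
  constructor
  · intro h
    refine ⟨Empty.elim, Empty.elim, ?_⟩
    rw [aeval_rename, Sum.elim_comp_inl, map_sub, ← hp, ← hq, h, sub_self]
  · rintro ⟨u, y, h⟩
    rw [aeval_rename, Sum.elim_comp_inl, map_sub, ← hp, ← hq] at h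
    exact sub_eq_zero.1 h

theorem DP.all [Finite α] {R : α → (ι → ℚ) → Prop} (h : ∀ a, DP (R a)) :
    DP (fun v => ∀ a, R a v) := by
  classical
  have : Fintype α := Fintype.ofFinite α
  choose κ μ hκ hμ f hf using h
  let σ : ∀ a, ι ⊕ κ a ⊕ μ a → ι ⊕ (Σ a, κ a) ⊕ (Σ a, μ a) := fun a =>
    Sum.map id (Sum.map (Sigma.mk a) (Sigma.mk a))
  have key : ∀ (v : ι → ℚ) (u : (Σ a, κ a) → ℕ) (y : (Σ a, μ a) → ℚ) (a : α),
      aeval (Sum.elim v (Sum.elim (fun i => (2 : ℚ) ^ (u i)) y)) (rename (σ a) (f a)) =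
      aeval (Sum.elim v (Sum.elim (fun i => (2 : ℚ) ^ (u ⟨a, i⟩)) (fun j => y ⟨a, j⟩))) (f a) := by
    intro v u y a
    rw [aeval_rename]
    congr 2
    funext i
    rcases i with i | i | i <;> rfl
  refine ⟨Σ a, κ a, Σ a, μ a, inferInstance, inferInstance, ∑ a, (rename (σ a) (f a)) ^ 2,
    fun v => ?_⟩
  constructor
  · intro h
    have h' : ∀ a, ∃ (u : κ a → ℕ) (y : μ a → ℚ),
      aeval (Sum.elim v (Sum.elim (fun i => (2 : ℚ) ^ (u i)) y)) (f a) = 0 :=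
      fun a => (hf a v).1 (h a)
    choose u y huy using h'
    refine ⟨fun i => u i.1 i.2, fun i => y i.1 i.2, ?_⟩
    rw [map_sum]
    refine Finset.sum_eq_zero fun a _ => ?_
    rw [map_pow, key, huy, zero_pow two_ne_zero]
  · rintro ⟨u, y, h⟩ a
    rw [map_sum] at h
    simp only [map_pow] at h
    rw [Finset.sum_eq_zero_iff_of_nonneg (fun a _ => sq_nonneg _)] at h
    have := h a (Finset.mem_univ a)
    rw [key] at this
    rw [hf]
    exact ⟨_, _, pow_eq_zero_iff two_ne_zero |>.1 this⟩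

theorem DP.and {R R' : (ι → ℚ) → Prop} (h : DP R) (h' : DP R') :
    DP (fun v => R v ∧ R' v) := by
  have := DP.all (α := Bool) (R := fun b => bif b then R else R')
    (fun b => by cases b <;> assumption)
  exact this.congr fun v => by simp [and_comm]

theorem DP.true : DP (fun _ : ι → ℚ => True) :=
  (DP.eq (f := fun _ => 0) (g := fun _ => 0) PF.zero PF.zero).congr (by simp)

theorem DP.list {β : Type} (L : List β) {R : β → (ι → ℚ) → Prop} (h : ∀ q ∈ L, DP (R q)) :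
    DP (fun v => ∀ q ∈ L, R q v) := by
  induction L with
  | nil => exact DP.true.congr (by simp)
  | cons q L ih =>
    have h1 := (h q (List.mem_cons_self)).and (ih fun q' hq' => h q' (List.mem_cons_of_mem _ hq'))
    exact h1.congr fun v => by simp

/-- a block of existential quantifiers over `ℚ` -/
theorem DP.exs [Finite α] {R : (ι → ℚ) → (α → ℚ) → Prop}
    (h : DP (fun v : ι ⊕ α → ℚ => R (fun i => v (Sum.inl i)) (fun a => v (Sum.inr a)))) :
    DP (fun v => ∃ y : α → ℚ, R v y) := by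
  obtain ⟨κ, μ, hκ, hμ, f, hf⟩ := h
  let σ : (ι ⊕ α) ⊕ κ ⊕ μ → ι ⊕ κ ⊕ (α ⊕ μ) :=
    Sum.elim (Sum.elim Sum.inl (fun a => Sum.inr (Sum.inr (Sum.inl a))))
      (Sum.elim (fun k => Sum.inr (Sum.inl k)) (fun m => Sum.inr (Sum.inr (Sum.inr m))))
  have key : ∀ (v : ι → ℚ) (y : α → ℚ) (u : κ → ℕ) (w : μ → ℚ),
      aeval (Sum.elim v (Sum.elim (fun i => (2 : ℚ) ^ (u i)) (Sum.elim y w))) (rename σ f) =
      aeval (Sum.elim (Sum.elim v y) (Sum.elim (fun i => (2 : ℚ) ^ (u i)) w)) f := by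
    intro v y u w
    rw [aeval_rename]
    congr 2
    funext i
    rcases i with (i | i) | i | i <;> rfl
  refine ⟨κ, α ⊕ μ, hκ, inferInstance, rename σ f, fun v => ?_⟩
  constructor
  · rintro ⟨y, hy⟩
    obtain ⟨u, w, h⟩ := (hf (Sum.elim v y)).1 hy
    exact ⟨u, Sum.elim y w, by rw [key]; exact h⟩
  · rintro ⟨u, w, h⟩
    refine ⟨fun a => w (Sum.inl a), ?_⟩
    refine (hf (Sum.elim v (fun a => w (Sum.inl a)))).2 ⟨u, fun m => w (Sum.inr m), ?_⟩
    rw [← key]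
    convert h using 6
    funext i
    rcases i with i | i <;> rfl

/-- a block of existential quantifiers over powers of two -/
theorem DP.exPs [Finite α] {R : (ι → ℚ) → (α → ℚ) → Prop}
    (h : DP (fun v : ι ⊕ α → ℚ => R (fun i => v (Sum.inl i)) (fun a => v (Sum.inr a)))) :
    DP (fun v => ∃ y : α → ℚ, (∀ a, P2 (y a)) ∧ R v y) := by
  obtain ⟨κ, μ, hκ, hμ, f, hf⟩ := h
  let σ : (ι ⊕ α) ⊕ κ ⊕ μ → ι ⊕ (α ⊕ κ) ⊕ μ :=
    Sum.elim (Sum.elim Sum.inl (fun a => Sum.inr (Sum.inl (Sum.inl a))))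
      (Sum.elim (fun k => Sum.inr (Sum.inl (Sum.inr k))) (fun m => Sum.inr (Sum.inr m)))
  have key : ∀ (v : ι → ℚ) (e : α ⊕ κ → ℕ) (w : μ → ℚ),
      aeval (Sum.elim v (Sum.elim (fun i => (2 : ℚ) ^ (e i)) w)) (rename σ f) =
      aeval (Sum.elim (Sum.elim v (fun a => (2 : ℚ) ^ (e (Sum.inl a))))
        (Sum.elim (fun i => (2 : ℚ) ^ (e (Sum.inr i))) w)) f := by
    intro v e w
    rw [aeval_rename]
    congr 2
    funext i
    rcases i with (i | i) | i | i <;> rfl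
  refine ⟨α ⊕ κ, μ, inferInstance, hμ, rename σ f, fun v => ?_⟩
  constructor
  · rintro ⟨y, hy1, hy⟩
    choose e he using hy1
    obtain ⟨u, w, h⟩ := (hf (Sum.elim v y)).1 hy
    refine ⟨Sum.elim e u, w, ?_⟩
    rw [key]
    have : y = fun a => (2 : ℚ) ^ (e a) := funext he
    rw [this] at h
    exact h
  · rintro ⟨e, w, h⟩
    refine ⟨fun a => (2 : ℚ) ^ (e (Sum.inl a)), fun a => ⟨_, rfl⟩, ?_⟩
    refine (hf (Sum.elim v (fun a => (2 : ℚ) ^ (e (Sum.inl a))))).2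
      ⟨fun k => e (Sum.inr k), w, ?_⟩
    rw [← key]
    exact h

theorem DP.ex {R : (ι → ℚ) → ℚ → Prop}
    (h : DP (fun v : ι ⊕ Unit → ℚ => R (fun i => v (Sum.inl i)) (v (Sum.inr ())))) :
    DP (fun v => ∃ y : ℚ, R v y) := by
  refine (DP.exs (α := Unit) (R := fun v y => R v (y ())) h).congr fun v => ?_
  exact ⟨fun ⟨y, hy⟩ => ⟨fun _ => y, hy⟩, fun ⟨y, hy⟩ => ⟨y (), hy⟩⟩

theorem DP.exP {R : (ι → ℚ) → ℚ → Prop}
    (h : DP (fun v : ι ⊕ Unit → ℚ => R (fun i => v (Sum.inl i)) (v (Sum.inr ())))) :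
    DP (fun v => ∃ y : ℚ, P2 y ∧ R v y) := by
  refine (DP.exPs (α := Unit) (R := fun v y => R v (y ())) h).congr fun v => ?_
  exact ⟨fun ⟨y, hy1, hy⟩ => ⟨fun _ => y, fun _ => hy1, hy⟩, fun ⟨y, hy1, hy⟩ => ⟨y (), hy1 (), hy⟩⟩

end DP

end Pool.Agent.H324R2.PQ
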