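import Pool.Agent.H324R2.PQ.DP

/-!
# The formulas `Test3`, `E1`, `Code` are existential
-/

set_option autoImplicit false

namespace Pool.Agent.H324R2.PQ

open MvPolynomial

section
variable {ι : Type} {f g : (ι → ℚ) → ℚ}

theorem DP.ne_zero (hf : PF f) : DP (fun v => f v ≠ 0) := by
  have h : DP (fun v => ∃ y : ℚ, f v * y = 1) :=
    DP.ex (DP.eq (PF.mul (PF.reindex Sum.inl hf) (PF.proj _)) PF.one)
  refine h.congr fun v => ⟨fun h => ⟨(f v)⁻¹, mul_inv_cancel₀ h⟩, ?_⟩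
  rintro ⟨y, hy⟩ h0
  rw [h0, zero_mul] at hy
  exact zero_ne_one hy

theorem DP.ne {f g : (ι → ℚ) → ℚ} (hf : PF f) (hg : PF g) : DP (fun v => f v ≠ g v) :=
  (DP.ne_zero (hf.sub hg)).congr fun _ => sub_ne_zero.symm

theorem DP.P2 (hf : PF f) : DP (fun v => P2 (f v)) := by
  have h : DP (fun v => ∃ y : ℚ, PQ.P2 y ∧ y = f v) :=
    DP.exP (DP.eq (PF.proj _) (PF.reindex Sum.inl hf))
  exact h.congr fun v => ⟨fun h => ⟨_, h, rfl⟩, fun ⟨y, hy, e⟩ => e ▸ hy⟩

theorem DP.N3 (hf : PF f) : DP (fun v => N3 (f v)) := by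
  refine (DP.ne_zero hf).and (DP.ex (DP.ex ?_))
  refine DP.eq (PF.reindex (fun i => Sum.inl (Sum.inl i)) hf) ?_
  exact ((PF.proj _).pow 2).add ((PF.ofNat 3).mul ((PF.proj _).pow 2))

theorem DP.T3 (hf : PF f) (hg : PF g) : DP (fun v => T3 (f v) (g v)) := by
  refine DP.ex (DP.N3 ?_)
  have hf' := PF.reindex (Sum.inl : ι → ι ⊕ Unit) hf
  have hg' := PF.reindex (Sum.inl : ι → ι ⊕ Unit) hg
  exact hf'.mul ((hf'.add (hg'.pow 2)).add ((PF.ofNat 3).mul ((PF.proj _).pow 2)))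

theorem not_T3_zero {F : ℚ} : ¬ T3 0 F := by
  rintro ⟨w, h, -⟩
  exact h (zero_mul _)

theorem DP.Test3 (hf : PF f) (hg : PF g) : DP (fun v => Test3 (f v) (g v)) := by
  have h : DP (fun v => ∃ ν e r : ℚ, PQ.N3 ν ∧ r * (f v * ν) = 1 ∧ PQ.T3 r 1 ∧
      PQ.T3 (f v * ν) (144 * (e - 1)) ∧ PQ.T3 (f v * ν) (144 * e * g v)) := by
    refine DP.ex (DP.ex (DP.ex ?_))
    have hf' := PF.reindex (fun i : ι => (Sum.inl (Sum.inl (Sum.inl i)) :
      ((ι ⊕ Unit) ⊕ Unit) ⊕ Unit)) hf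
    have hg' := PF.reindex (fun i : ι => (Sum.inl (Sum.inl (Sum.inl i)) :
      ((ι ⊕ Unit) ⊕ Unit) ⊕ Unit)) hg
    refine (DP.N3 (PF.proj _)).and ((DP.eq ((PF.proj _).mul (hf'.mul (PF.proj _))) PF.one).and
      ((DP.T3 (PF.proj _) PF.one).and ((DP.T3 (hf'.mul (PF.proj _)) ?_).and
        (DP.T3 (hf'.mul (PF.proj _)) ?_))))
    · exact (PF.ofNat 144).mul ((PF.proj _).sub PF.one)
    · exact ((PF.ofNat 144).mul (PF.proj _)).mul hg'
  refine h.congr fun v => ?_
  constructor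
  · rintro ⟨ν, e, h1, h2, h3, h4⟩
    have h0 : f v * ν ≠ 0 := by
      intro h0
      rw [h0, div_zero] at h2
      exact not_T3_zero h2
    exact ⟨ν, e, 1 / (f v * ν), h1, one_div_mul_cancel h0, h2, h3, h4⟩
  · rintro ⟨ν, e, r, h1, h2, h3, h4, h5⟩
    have h0 : f v * ν ≠ 0 := by
      intro h0
      rw [h0, mul_zero] at h2
      exact zero_ne_one h2
    have : r = 1 / (f v * ν) := (eq_div_iff h0).2 h2
    exact ⟨ν, e, h1, this ▸ h3, h4, h5⟩

theorem DP.DD (hf : PF f) : DP (fun v => DD (f v)) := by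
  refine (DP.ne hf PF.one).and (DP.ex (DP.ex ?_))
  have hf' := PF.reindex (fun i : ι => (Sum.inl (Sum.inl i) : (ι ⊕ Unit) ⊕ Unit)) hf
  exact DP.eq (hf'.sub PF.one) ((PF.ofNat 3).mul (((PF.proj _).pow 2).add ((PF.proj _).pow 2)))

theorem DP.Le4 (hf : PF f) (hg : PF g) : DP (fun v => Le4 (f v) (g v)) := by
  refine DP.ex (DP.ex (DP.ex (DP.ex ?_)))
  refine DP.eq (PF.reindex (fun i : ι => Sum.inl (Sum.inl (Sum.inl (Sum.inl i)))) (hg.sub hf)) ?_
  exact ((((PF.proj _).pow 2).add ((PF.proj _).pow 2)).add ((PF.proj _).pow 2)).add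
    ((PF.proj _).pow 2)

end

section
variable {ι : Type} {f g : (ι → ℚ) → ℚ}

theorem DP.E1 (hf : PF f) (hg : PF g) : DP (fun v => E1 (f v) (g v)) := by
  refine (DP.P2 hf).and ((DP.P2 hg).and ((DP.DD hg).and ?_))
  refine DP.ex (DP.ex (DP.ex (DP.ex (DP.ex (DP.ex (DP.ex (DP.ex (DP.ex ?_))))))))
  have hf' := PF.reindex (fun i : ι => (Sum.inl (Sum.inl (Sum.inl (Sum.inl (Sum.inl (Sum.inl
    (Sum.inl (Sum.inl (Sum.inl i)))))))) : ((((((((ι ⊕ Unit) ⊕ Unit) ⊕ Unit) ⊕ Unit) ⊕ Unit) ⊕ Unit)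
      ⊕ Unit) ⊕ Unit) ⊕ Unit)) hf
  have hg' := PF.reindex (fun i : ι => (Sum.inl (Sum.inl (Sum.inl (Sum.inl (Sum.inl (Sum.inl
    (Sum.inl (Sum.inl (Sum.inl i)))))))) : ((((((((ι ⊕ Unit) ⊕ Unit) ⊕ Unit) ⊕ Unit) ⊕ Unit) ⊕ Unit)
      ⊕ Unit) ⊕ Unit) ⊕ Unit)) hg
  clear hf hg
  repeat' first
    | with_reducible apply DP.P2
    | with_reducible apply DP.DD
    | with_reducible apply DP.Le4
    | with_reducible apply DP.Test3
    | with_reducible apply DP.eq
    | with_reducible apply DP.and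
  all_goals (repeat' first
    | assumption
    | exact PF.proj _
    | exact PF.zero
    | exact PF.one
    | exact PF.ofNat _
    | exact PF.nat _
    | exact PF.int _
    | with_reducible apply PF.add
    | with_reducible apply PF.sub
    | with_reducible apply PF.mul
    | with_reducible apply PF.pow
    | (refine PF.reindex _ ?_; assumption))

end

open Pool.Agent.Helper967.Dio.Sys

theorem PF.evalQ {V ι : Type} {x : V → (ι → ℚ) → ℚ} (hx : ∀ i, PF (x i)) (q : Eqn V) :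
    PF (fun v => evalQ (fun i => x i v) q) := by
  have h1 := hx q.i
  have h2 := hx q.j
  have h3 := hx q.k
  have h4 := hx q.l
  have h5 := hx q.m
  unfold PQ.evalQ
  repeat' first
    | assumption
    | exact PF.proj _
    | exact PF.zero
    | exact PF.one
    | exact PF.ofNat _
    | exact PF.nat _
    | exact PF.int _
    | with_reducible apply PF.add
    | with_reducible apply PF.sub
    | with_reducible apply PF.mul
    | with_reducible apply PF.pow
    | (refine PF.reindex _ ?_; assumption)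

/-- the coding relation is existential -/
theorem DP.Code {ι V : Type} [Finite V] (f : V) (L : List (Eqn V)) (A : ℕ) {g : (ι → ℚ) → ℚ}
    (hg : PF g) : DP (fun v : ι → ℚ => Code f L A (g v)) := by
  unfold PQ.Code
  refine DP.ex (DP.ex (DP.ex ?_))
  have hg' := PF.reindex (fun i : ι => (Sum.inl (Sum.inl (Sum.inl i)) :
      ((ι ⊕ Unit) ⊕ Unit) ⊕ Unit)) hg
  have hS : PF (fun v : ((ι ⊕ Unit) ⊕ Unit) ⊕ Unit → ℚ => v (Sum.inl (Sum.inl (Sum.inr ())))) :=
    PF.proj _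
  have hC : PF (fun v : ((ι ⊕ Unit) ⊕ Unit) ⊕ Unit → ℚ => v (Sum.inl (Sum.inr ()))) := PF.proj _
  have hG : PF (fun v : ((ι ⊕ Unit) ⊕ Unit) ⊕ Unit → ℚ => v (Sum.inr ())) := PF.proj _
  refine (DP.P2 hS).and ((DP.P2 hC).and ((DP.P2 hG).and ((DP.Le4 (PF.nat A) hS).and
    ((DP.Le4 hg' hS).and ((DP.E1 (hS.pow 3) hC).and ((DP.E1 (hS.pow 4) hG).and ?_))))))
  refine DP.exs (DP.exs (DP.exs ?_))
  refine (DP.all fun a => ?_).and ((DP.list L fun q _ => ?_).and ?_)
  · repeat' first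
      | with_reducible apply DP.P2
      | with_reducible apply DP.Le4
      | with_reducible apply DP.Test3
      | with_reducible apply DP.eq
      | with_reducible apply DP.and
    all_goals (repeat' first
      | assumption
      | exact PF.proj _
      | exact PF.zero
      | exact PF.one
      | exact PF.ofNat _
      | exact PF.nat _
      | exact PF.int _
      | with_reducible apply PF.add
      | with_reducible apply PF.sub
      | with_reducible apply PF.mul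
      | with_reducible apply PF.pow
      | (refine PF.reindex _ ?_; assumption))
  · refine DP.Test3 ((PF.proj _).sub PF.one) ?_
    exact PF.evalQ (x := fun i v => v (Sum.inr i)) (fun i => PF.proj _) q
  · refine DP.Test3 ((PF.proj _).sub PF.one) ((PF.proj _).sub (PF.one.sub ((PF.ofNat 4).mul ?_)))
    exact PF.reindex (fun i : ι => (Sum.inl (Sum.inl (Sum.inl (Sum.inl (Sum.inl (Sum.inl i))))) :
      (((((ι ⊕ Unit) ⊕ Unit) ⊕ Unit) ⊕ V) ⊕ V) ⊕ V)) hg

end Pool.Agent.H324R2.PQ
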