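import Pool.Agent.H324R2.PQ.K5
import Pool.Agent.H324R2.PQ.N1
import Pool.Agent.H324R2.PQ.N2
import Pool.Agent.H324R2.PQ.N3
import Pool.Agent.H324R2.PQ.N4
import Pool.Agent.H324R2.PQ.N5
import Pool.Agent.H324R2.PQ.R1

/-! Task ES: soundness of `E1`. -/

set_option autoImplicit false

namespace Pool.Agent.H324R2.PQ

theorem ES_core1 {b m h0 : ℕ} (hb : 0 < b) (hbm : b ≤ m) (h2 : m - b ≡ 2 ^ h0 [MOD 2 ^ b])
    (h3 : padicValNat 2 b < padicValNat 2 m) : h0 = padicValNat 2 b := by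
  set β := padicValNat 2 b with hβ
  have d1 : 2 ^ β ∣ b := pow_padicValNat_dvd
  have d2 : ¬ 2 ^ (β + 1) ∣ b := pow_succ_padicValNat_not_dvd hb.ne'
  have hβb : β < b := lt_of_lt_of_le Nat.lt_two_pow_self (Nat.le_of_dvd hb d1)
  have d3 : 2 ^ (β + 1) ∣ m := (pow_dvd_pow 2 h3).trans pow_padicValNat_dvd
  have d4 : 2 ^ β ∣ m := (pow_dvd_pow 2 (Nat.le_succ β)).trans d3
  have d5 : 2 ^ β ∣ m - b := Nat.dvd_sub d4 d1
  have d6 : ¬ 2 ^ (β + 1) ∣ m - b := by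
    intro h
    apply d2
    have := Nat.dvd_sub d3 h
    rwa [Nat.sub_sub_self hbm] at this
  rcases lt_trichotomy h0 β with h | h | h
  · exfalso
    have e1 : 2 ^ (h0 + 1) ∣ m - b := (pow_dvd_pow 2 h).trans d5
    have e2 : m - b ≡ 2 ^ h0 [MOD 2 ^ (h0 + 1)] := h2.of_dvd (pow_dvd_pow 2 (by omega))
    have e3 : 2 ^ (h0 + 1) ∣ 2 ^ h0 := (e2.dvd_iff dvd_rfl).1 e1
    have := (Nat.pow_dvd_pow_iff_le_right (by norm_num : 1 < 2)).1 e3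
    omega
  · exact h
  · exfalso
    apply d6
    have e2 : m - b ≡ 2 ^ h0 [MOD 2 ^ (β + 1)] := h2.of_dvd (pow_dvd_pow 2 (by omega))
    exact (e2.dvd_iff dvd_rfl).2 (pow_dvd_pow 2 h)

theorem ES_core2 {b m1 r s β : ℕ} (hβ : β = padicValNat 2 b) (hb : 0 < b) (hbm1 : b ≤ m1)
    (h5 : m1 - b ≡ r [MOD 2 ^ b]) (hr : r < 2 ^ β) (hs : s ≤ β) (hsm : s < m1)
    (h6 : padicValNat 2 b = padicValNat 2 (m1 - s)) : r = s := by
  have d1 : 2 ^ β ∣ b := hβ ▸ pow_padicValNat_dvd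
  have hβb : β < b := lt_of_lt_of_le Nat.lt_two_pow_self (Nat.le_of_dvd hb d1)
  have d2 : 2 ^ β ∣ m1 - s := by
    rw [hβ, h6]
    exact pow_padicValNat_dvd
  have e1 : m1 - b ≡ r [MOD 2 ^ β] := h5.of_dvd (pow_dvd_pow 2 hβb.le)
  have e2 : m1 ≡ s [MOD 2 ^ β] := ((Nat.modEq_iff_dvd' hsm.le).2 d2).symm
  have e3 : m1 ≡ r [MOD 2 ^ β] := by
    have e4 : (m1 - b) + b ≡ r + 0 [MOD 2 ^ β] :=
      Nat.ModEq.add e1 ((Nat.modEq_zero_iff_dvd).2 d1)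
    rwa [Nat.sub_add_cancel hbm1, Nat.add_zero] at e4
  have e5 : r ≡ s [MOD 2 ^ β] := e3.symm.trans e2
  exact Nat.ModEq.eq_of_lt_of_lt e5 hr (lt_of_le_of_lt hs Nat.lt_two_pow_self)

theorem ES_vge {N F : ℚ} (hN : N ≠ 0) (h : Test3 N F) {p : ℕ} (hp : In3 p)
    (hodd : Odd (padicValRat p N)) {X : ℤ} (hX : F = X) : (p : ℤ) ∣ X := by
  have h1 := Test3.sound hN h hp hodd
  rw [hX] at h1
  exact (vge_int hp.1).1 h1

theorem ES_nat {p k : ℕ} (h : (p : ℤ) ∣ 2 ^ k - 1) : p ∣ 2 ^ k - 1 := by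
  have h1 : (((2 ^ k - 1 : ℕ)) : ℤ) = 2 ^ k - 1 := by
    rw [Nat.cast_sub Nat.one_le_two_pow]
    push_cast
    rfl
  rw [← h1] at h
  exact Int.natCast_dvd_natCast.1 h

theorem ES_pow_one {p k : ℕ} (h : (p : ℤ) ∣ 2 ^ k - 1) : (2 : ZMod p) ^ k = 1 := by
  have h1 := (ZMod.intCast_zmod_eq_zero_iff_dvd (2 ^ k - 1) p).2 h
  push_cast at h1
  exact sub_eq_zero.1 h1

theorem ES_neg_one {ε k : ℕ} (h : ε ∣ 2 ^ k + 1) : (2 : ZMod ε) ^ k = -1 := by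
  have h1 := (ZMod.natCast_eq_zero_iff (2 ^ k + 1) ε).2 h
  push_cast at h1
  exact eq_neg_of_add_eq_zero_left h1

theorem ES_two_inj {a b : ℕ} (h : (2 : ℚ) ^ a = 2 ^ b) : a = b :=
  pow_right_injective₀ (by norm_num) (by norm_num) h

/-- `2 ^ b ≡ 1 (mod 3)` forces `b` even -/
theorem ES_even {b k : ℕ} (h : 2 ^ b = 3 * k + 1) : Even b := by
  rcases Nat.even_or_odd b with hb | hb
  · exact hb
  · exfalso
    obtain ⟨j, rfl⟩ := hb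
    rw [pow_succ, pow_mul] at h
    have h4 : (2 ^ 2) ^ j % 3 = 1 := by
      rw [Nat.pow_mod]
      norm_num
    generalize (2 ^ 2) ^ j = x at h h4
    omega

theorem ES_unit2 {p : ℕ} (hp : p.Prime) (h2 : p ≠ 2) : IsUnit (2 : ZMod p) := by
  have : IsUnit (((2 : ℕ) : ZMod p)) := by
    rw [ZMod.isUnit_iff_coprime]
    exact (Nat.coprime_primes Nat.prime_two hp).2 (Ne.symm h2)
  simpa using this

theorem ES_modEq {p i j : ℕ} (hu : IsUnit (2 : ZMod p)) (h : (2 : ZMod p) ^ i = 2 ^ j) :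
    i ≡ j [MOD orderOf (2 : ZMod p)] := by
  rcases le_total i j with hij | hij
  · refine (Nat.modEq_iff_dvd' hij).2 (orderOf_dvd_of_pow_eq_one ?_)
    refine (hu.pow i).mul_left_cancel ?_
    rw [← pow_add, Nat.add_sub_cancel' hij, mul_one, h]
  · refine ((Nat.modEq_iff_dvd' hij).2 (orderOf_dvd_of_pow_eq_one ?_)).symm
    refine (hu.pow j).mul_left_cancel ?_
    rw [← pow_add, Nat.add_sub_cancel' hij, mul_one, h]

/-- the ratio part: congruence of exponents modulo `2 ^ b` -/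
theorem ES_ratio {p b m : ℕ} (hb : 0 < 2 ^ b) (hord : orderOf (2 : ZMod p) = 2 ^ b) {z : ℚ}
    (hz : z * ((2 : ℚ) ^ (2 ^ b) - 1) = 2 ^ (2 ^ m) - 1) (hbm : b ≤ m) {N : ℚ} (hN : N ≠ 0)
    (hp : In3 p) (hodd : Odd (padicValRat p N)) {r : ℕ} {w : ℚ} (hw : w = 2 ^ r)
    (ht : Test3 N (z - w)) : m - b ≡ r [MOD 2 ^ b] := by
  have hm : 2 ^ m = 2 ^ b * 2 ^ (m - b) := by
    rw [← pow_add, Nat.add_sub_cancel' hbm]
  rw [hm] at hz
  obtain ⟨Z, hZ, hdvd⟩ := ratio hb hz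
  have h1 : (p : ℤ) ∣ Z - 2 ^ r := by
    refine ES_vge hN ht hp hodd ?_
    rw [hZ, hw]
    push_cast
    rfl
  have h2 : (Z : ZMod p) = 2 ^ r := by
    have := (ZMod.intCast_zmod_eq_zero_iff_dvd _ p).2 h1
    push_cast at this
    exact sub_eq_zero.1 this
  have h3 : (p : ℤ) ∣ 2 ^ (2 ^ b) - 1 := by
    rw [← ZMod.intCast_zmod_eq_zero_iff_dvd]
    push_cast
    rw [sub_eq_zero, ← hord]
    exact pow_orderOf_eq_one _
  have h4 : (Z : ZMod p) = 2 ^ (m - b) := by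
    have := (ZMod.intCast_zmod_eq_zero_iff_dvd _ p).2 (h3.trans hdvd)
    push_cast at this
    exact sub_eq_zero.1 this
  rw [← hord]
  exact ES_modEq (ES_unit2 hp.1 hp.2.1) (h4.symm.trans h2)

/-- task ES -/
theorem E1.sound {t U : ℚ} (h : E1 t U) : ∃ s : ℕ, 1 ≤ s ∧ t = 2 ^ s ∧ U = 2 ^ (2 ^ s) := by
  obtain ⟨⟨r, rfl⟩, ⟨u, rfl⟩, hU, w, C, y, W, W', z, z', n, h, ⟨om, rfl⟩, ⟨c, rfl⟩, ⟨k, rfl⟩,
    ⟨a, rfl⟩, ⟨a', rfl⟩, hw, hC, hW, hW', hle1, hle2, hCy, hWh, hz, hz', hn, T1, T2, T3, T4, T5, T6⟩ := h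
  obtain ⟨s, hs1, rfl⟩ := DD_pow.1 hU
  obtain ⟨h0, hh0, rfl⟩ := DD_pow.1 hw
  obtain ⟨b, hb1, rfl⟩ := DD_pow.1 hC
  obtain ⟨m, hm1, rfl⟩ := DD_pow.1 hW
  obtain ⟨m1, hm11, rfl⟩ := DD_pow.1 hW'
  rw [le4_iff] at hle1 hle2
  refine ⟨s, hs1, ?_, rfl⟩
  -- inequalities
  have i1 : r + 1 ≤ 2 ^ h0 := by
    have e1 : (2 : ℚ) ^ (r + 1) ≤ 2 ^ (2 ^ h0) := by
      rw [pow_succ]
      linarith
    exact (pow_le_pow_iff_right₀ (by norm_num : (1 : ℚ) < 2)).1 e1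
  have i2 : s ≤ h0 := by
    have e1 := (pow_le_pow_iff_right₀ (by norm_num : (1 : ℚ) < 2)).1 hle2
    exact (Nat.pow_le_pow_iff_right (by norm_num)).1 e1
  -- b is even
  have hbk : 2 ^ b = 3 * k + 1 := by
    refine ES_two_inj ?_
    have e1 : (2 : ℚ) ^ (3 * k + 1) = 2 * (2 ^ k) ^ 3 := by
      rw [pow_succ, mul_comm 3 k, pow_mul]
      ring
    rw [e1, hCy]
  have hbe : Even b := ES_even hbk
  have hb2 : 2 ≤ b := by
    obtain ⟨j, hj⟩ := hbe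
    omega
  have hb0 : 0 < b := by omega
  obtain ⟨p, hp, hpo, hord⟩ := vis_c hb2
  obtain ⟨p', hp', hpo', hdiv'⟩ := vis_c1 hbe hb0
  have hC0 : (2 : ℚ) ^ (2 ^ b) - 1 ≠ 0 := by
    have : (1 : ℚ) < 2 ^ (2 ^ b) := one_lt_pow₀ (by norm_num) (by positivity)
    linarith
  have hneq : n = (2 * (2 : ℚ) ^ (2 ^ b) + 1) / 3 := by
    rw [eq_div_iff (by norm_num : (3 : ℚ) ≠ 0)]
    linarith
  have hn0 : n ≠ 0 := by
    rw [hneq]
    positivity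
  rw [← hneq] at hpo'
  -- (i), (iv)
  have hle : ∀ m' : ℕ, Test3 ((2 : ℚ) ^ (2 ^ b) - 1) (2 ^ (2 ^ m') - 1) → b ≤ m' := by
    intro m' hT
    have e1 : (p : ℤ) ∣ 2 ^ (2 ^ m') - 1 := by
      refine ES_vge hC0 hT hp hpo ?_
      push_cast
      rfl
    have e2 := orderOf_dvd_of_pow_eq_one (ES_pow_one e1)
    rw [hord] at e2
    exact (Nat.pow_dvd_pow_iff_le_right (by norm_num : 1 < 2)).1 e2
  have hbm : b ≤ m := hle m T1
  have hbm1 : b ≤ m1 := hle m1 T4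
  have hb0' : 0 < 2 ^ b := by positivity
  have c2 : m - b ≡ 2 ^ h0 [MOD 2 ^ b] := ES_ratio hb0' hord hz hbm hC0 hp hpo rfl T2
  have c5 : m1 - b ≡ r [MOD 2 ^ b] := ES_ratio hb0' hord hz' hbm1 hC0 hp hpo rfl T5
  have hM : Odd (2 ^ b + 1) := (Nat.even_pow.2 ⟨even_two, hb0.ne'⟩).add_one
  -- (iii)
  have hheq : h = 2 ^ (2 ^ m - 1) := by
    have e1 : 2 ^ m = (2 ^ m - 1) + 1 := (Nat.sub_add_cancel Nat.one_le_two_pow).symm
    rw [e1, pow_succ] at hWh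
    linarith
  have d3 : p' ∣ 2 ^ (2 * (2 ^ m - 1)) - 1 := by
    refine ES_nat (ES_vge hn0 T3 hp' hpo' ?_)
    rw [hheq]
    push_cast
    rw [← pow_mul, mul_comm]
  obtain ⟨ε, hε, hε2, hε3, hε4⟩ := common_prime hp' hM hdiv' d3
  have q1 : (2 : ZMod ε) ^ m = 1 := by
    refine ES_pow_one ?_
    have e2 : (((2 ^ m - 1 : ℕ)) : ℤ) = 2 ^ m - 1 := by
      rw [Nat.cast_sub Nat.one_le_two_pow]
      push_cast
      rfl
    rw [← e2]
    exact Int.natCast_dvd_natCast.2 hε4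
  have c3 := twoadic_lt hε2 hb0 (by omega) (ES_neg_one hε3) q1
  have hβ := ES_core1 hb0 hbm c2 c3
  have hβb : h0 < b := by
    rw [hβ]
    exact lt_of_lt_of_le Nat.lt_two_pow_self (Nat.le_of_dvd hb0 pow_padicValNat_dvd)
  have hsm : s < m1 := by omega
  -- (vi)
  have d6 : p' ∣ 2 ^ (2 * (2 ^ m1 + 2 ^ s)) - 1 := by
    refine ES_nat (ES_vge hn0 T6 hp' hpo' ?_)
    push_cast
    rw [← pow_add, ← pow_mul, mul_comm]
  obtain ⟨ε', hε', hε2', hε3', hε4'⟩ := common_prime hp' hM hdiv' d6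
  have q2 : (2 : ZMod ε') ^ (m1 - s) = -1 := by
    have hcop : IsUnit ((2 : ZMod ε') ^ s) := by
      refine IsUnit.pow s ?_
      have : IsUnit (((2 : ℕ) : ZMod ε')) := by
        rw [ZMod.isUnit_iff_coprime]
        refine (Nat.coprime_primes Nat.prime_two hε').2 ?_
        omega
      simpa using this
    have e3 := (ZMod.natCast_eq_zero_iff (2 ^ m1 + 2 ^ s) ε').2 hε4'
    push_cast at e3
    have e4 : (2 : ZMod ε') ^ m1 = 2 ^ (m1 - s) * 2 ^ s := by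
      rw [← pow_add, Nat.sub_add_cancel hsm.le]
    refine hcop.mul_right_cancel ?_
    rw [← e4, eq_neg_of_add_eq_zero_left e3]
    ring
  have c6 := twoadic_eq hε2' hb0 (by omega) (ES_neg_one hε3') q2
  have hrs : r = s := ES_core2 hβ hb0 hbm1 c5 (by omega) i2 hsm c6
  rw [hrs]

end Pool.Agent.H324R2.PQ
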