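import Pool.Agent.H324R2.PQ.Defs

/-!
# The norm form `c² + 3 e²` over `ℚ`: valuations at inert primes (K1)
-/

set_option autoImplicit false

namespace Pool.Agent.H324R2.PQ

private theorem K1_ne_zero {c e : ℚ} (h : ¬ (c = 0 ∧ e = 0)) : c ^ 2 + 3 * e ^ 2 ≠ 0 := by
  intro h0
  apply h
  have h1 : c ^ 2 = 0 := by nlinarith [sq_nonneg c, sq_nonneg e]
  have h2 : e ^ 2 = 0 := by nlinarith [sq_nonneg c, sq_nonneg e]
  exact ⟨pow_eq_zero_iff (two_ne_zero) |>.1 h1, pow_eq_zero_iff (two_ne_zero) |>.1 h2⟩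

private lemma K1_ne_three {q : ℕ} (hq : In3 q) : q ≠ 3 := by
  rintro rfl
  have := hq.2.2
  omega

private lemma K1_not_isSquare {q : ℕ} (hq : In3 q) : ¬ IsSquare (-3 : ZMod q) := by
  have := Fact.mk hq.1
  have : Fact (2 < q) := ⟨by
    have := hq.1.two_le
    have := hq.2.1
    omega⟩
  rintro ⟨x, hx⟩
  have h2 : (2 : ZMod q) ≠ 0 := by
    intro h
    have h' : ((2 : ℕ) : ZMod q) = 0 := by exact_mod_cast h
    rw [ZMod.natCast_eq_zero_iff] at h'
    exact hq.2.1 ((Nat.prime_dvd_prime_iff_eq hq.1 Nat.prime_two).1 h')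
  have h3 : (3 : ZMod q) ≠ 0 := by
    intro h
    have h' : ((3 : ℕ) : ZMod q) = 0 := by exact_mod_cast h
    rw [ZMod.natCast_eq_zero_iff] at h'
    exact K1_ne_three hq ((Nat.prime_dvd_prime_iff_eq hq.1 Nat.prime_three).1 h')
  set z : ZMod q := (x - 1) / 2 with hz
  have hxz : x = 2 * z + 1 := by
    rw [hz]
    field_simp
    ring
  have hz0 : z ^ 2 + z + 1 = 0 := by
    have h4 : (2 : ZMod q) * 2 * (z ^ 2 + z + 1) = 0 := by
      rw [hxz] at hx
      linear_combination -hx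
    rcases mul_eq_zero.1 h4 with h | h
    · exact absurd h (mul_ne_zero h2 h2)
    · exact h
  have hz3 : z ^ 3 = 1 := by
    linear_combination (z - 1) * hz0
  have hz1 : z ≠ 1 := by
    intro h
    rw [h] at hz0
    apply h3
    linear_combination hz0
  have hord : orderOf z = 3 := orderOf_eq_prime hz3 hz1
  have hzne : z ≠ 0 := by
    intro h
    rw [h] at hz3
    norm_num at hz3
  have hdvd : orderOf z ∣ q - 1 := by
    apply orderOf_dvd_of_pow_eq_one
    exact ZMod.pow_card_sub_one_eq_one hzne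
  rw [hord] at hdvd
  have := hq.2.2
  have := hq.1.two_le
  omega

/-- `c² + 3 e²` has no zero modulo an inert prime -/
private lemma K1_dvd_of_dvd {q : ℕ} (hq : In3 q) {a b : ℤ} (h : (q : ℤ) ∣ a ^ 2 + 3 * b ^ 2) :
    (q : ℤ) ∣ a ∧ (q : ℤ) ∣ b := by
  have := Fact.mk hq.1
  have h1 : (a : ZMod q) ^ 2 + 3 * (b : ZMod q) ^ 2 = 0 := by
    have := (ZMod.intCast_zmod_eq_zero_iff_dvd (a ^ 2 + 3 * b ^ 2) q).2 h
    push_cast at this
    exact this
  have hb : (b : ZMod q) = 0 := by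
    by_contra hb
    apply K1_not_isSquare hq
    refine ⟨(a : ZMod q) / b, ?_⟩
    have h2 : (a : ZMod q) ^ 2 = -3 * (b : ZMod q) ^ 2 := by linear_combination h1
    field_simp
    rw [h2]; ring
  have ha : (a : ZMod q) = 0 := by
    rw [hb] at h1
    have : (a : ZMod q) ^ 2 = 0 := by simpa using h1
    exact pow_eq_zero_iff (two_ne_zero) |>.1 this
  exact ⟨(ZMod.intCast_zmod_eq_zero_iff_dvd a q).1 ha, (ZMod.intCast_zmod_eq_zero_iff_dvd b q).1 hb⟩

private lemma K1_val_int {q : ℕ} (hq : In3 q) {a b : ℤ} (ha : a ≠ 0) (hb : b ≠ 0) :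
    padicValInt q (a ^ 2 + 3 * b ^ 2) = 2 * min (padicValInt q a) (padicValInt q b) := by
  have := Fact.mk hq.1
  set m := min (padicValInt q a) (padicValInt q b) with hm
  have hqz : (q : ℤ) ≠ 0 := by exact_mod_cast hq.1.ne_zero
  obtain ⟨a1, ha1⟩ : (q : ℤ) ^ m ∣ a :=
    (pow_dvd_pow _ (min_le_left _ _)).trans (padicValInt_dvd a)
  obtain ⟨b1, hb1⟩ : (q : ℤ) ^ m ∣ b :=
    (pow_dvd_pow _ (min_le_right _ _)).trans (padicValInt_dvd b)
  have ha10 : a1 ≠ 0 := by
    rintro rfl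
    apply ha
    rw [ha1, mul_zero]
  have hb10 : b1 ≠ 0 := by
    rintro rfl
    apply hb
    rw [hb1, mul_zero]
  have hpow : padicValInt q ((q : ℤ) ^ m) = m := by
    rw [← Nat.cast_pow, padicValInt.of_nat, padicValNat.prime_pow]
  have hva : padicValInt q a = m + padicValInt q a1 := by
    conv_lhs => rw [ha1]
    rw [padicValInt.mul (pow_ne_zero _ hqz) ha10, hpow]
  have hvb : padicValInt q b = m + padicValInt q b1 := by
    conv_lhs => rw [hb1]
    rw [padicValInt.mul (pow_ne_zero _ hqz) hb10, hpow]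
  have hnd : ¬ (q : ℤ) ∣ a1 ^ 2 + 3 * b1 ^ 2 := by
    intro h
    obtain ⟨h1, h2⟩ := K1_dvd_of_dvd hq h
    have e1 : 1 ≤ padicValInt q a1 := by
      by_contra hlt
      push Not at hlt
      have h0 : padicValInt q a1 = 0 := by omega
      rw [padicValInt.eq_zero_iff] at h0
      rcases h0 with h0 | h0 | h0
      · exact hq.1.one_lt.ne' h0
      · exact ha10 h0
      · exact h0 h1
    have e2 : 1 ≤ padicValInt q b1 := by
      by_contra hlt
      push Not at hlt
      have h0 : padicValInt q b1 = 0 := by omega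
      rw [padicValInt.eq_zero_iff] at h0
      rcases h0 with h0 | h0 | h0
      · exact hq.1.one_lt.ne' h0
      · exact hb10 h0
      · exact h0 h2
    omega
  have hfac : a ^ 2 + 3 * b ^ 2 = ((q : ℤ) ^ m * (q : ℤ) ^ m) * (a1 ^ 2 + 3 * b1 ^ 2) := by
    conv_lhs => rw [ha1, hb1]
    ring
  have hne : a1 ^ 2 + 3 * b1 ^ 2 ≠ 0 := by
    intro h
    apply hnd
    rw [h]
    exact dvd_zero _
  rw [hfac, padicValInt.mul (mul_ne_zero (pow_ne_zero _ hqz) (pow_ne_zero _ hqz)) hne,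
    padicValInt.mul (pow_ne_zero _ hqz) (pow_ne_zero _ hqz), hpow,
    padicValInt.eq_zero_of_not_dvd hnd]
  omega

theorem val_form3 {q : ℕ} (hq : In3 q) {c e : ℚ} (hc : c ≠ 0) (he : e ≠ 0) :
    padicValRat q (c ^ 2 + 3 * e ^ 2) = 2 * min (padicValRat q c) (padicValRat q e) := by
  have := Fact.mk hq.1
  set a : ℤ := c.num * e.den with ha
  set b : ℤ := e.num * c.den with hb
  set d : ℤ := c.den * e.den with hd
  have hcd : (c.den : ℤ) ≠ 0 := by exact_mod_cast c.den_nz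
  have hed : (e.den : ℤ) ≠ 0 := by exact_mod_cast e.den_nz
  have ha0 : a ≠ 0 := mul_ne_zero (Rat.num_ne_zero.2 hc) hed
  have hb0 : b ≠ 0 := mul_ne_zero (Rat.num_ne_zero.2 he) hcd
  have hd0 : d ≠ 0 := mul_ne_zero hcd hed
  have hdq : (d : ℚ) ≠ 0 := by exact_mod_cast hd0
  have hcdq : (c.den : ℚ) ≠ 0 := by exact_mod_cast c.den_nz
  have hedq : (e.den : ℚ) ≠ 0 := by exact_mod_cast e.den_nz
  have hc' : c = (a : ℚ) / d := by
    rw [ha, hd]
    push_cast
    rw [mul_div_mul_right _ _ hedq]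
    exact (Rat.num_div_den c).symm
  have he' : e = (b : ℚ) / d := by
    rw [hb, hd]
    push_cast
    rw [mul_comm (c.den : ℚ) (e.den : ℚ), mul_div_mul_right _ _ hcdq]
    exact (Rat.num_div_den e).symm
  have hval := K1_val_int hq ha0 hb0
  have haq : (a : ℚ) ≠ 0 := by exact_mod_cast ha0
  have hbq : (b : ℚ) ≠ 0 := by exact_mod_cast hb0
  have hn : ((a ^ 2 + 3 * b ^ 2 : ℤ) : ℚ) ≠ 0 := by
    push_cast
    exact K1_ne_zero (fun h => haq h.1)
  have e1 : c ^ 2 + 3 * e ^ 2 = ((a ^ 2 + 3 * b ^ 2 : ℤ) : ℚ) / ((d : ℚ) * d) := by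
    rw [hc', he']
    push_cast
    field_simp
  rw [e1, padicValRat.div hn (mul_ne_zero hdq hdq), padicValRat.mul hdq hdq, hc', he',
    padicValRat.div haq hdq, padicValRat.div hbq hdq, padicValRat.of_int, padicValRat.of_int,
    padicValRat.of_int, padicValRat.of_int, hval, min_sub_sub_right]
  push_cast
  ring

theorem N3.even_val {x : ℚ} (hx : N3 x) {q : ℕ} (hq : In3 q) : Even (padicValRat q x) := by
  have := Fact.mk hq.1
  obtain ⟨hx0, c, e, rfl⟩ := hx
  by_cases hc : c = 0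
  · have he : e ≠ 0 := by
      rintro rfl
      apply hx0
      rw [hc]
      ring
    have h1 : c ^ 2 + 3 * e ^ 2 = 3 * (e * e) := by
      rw [hc]
      ring
    have h2 : padicValRat q (3 : ℚ) = 0 := by
      have : padicValNat q 3 = 0 := by
        apply padicValNat.eq_zero_of_not_dvd
        intro h
        exact (K1_ne_three hq) ((Nat.prime_dvd_prime_iff_eq hq.1 Nat.prime_three).1 h)
      have h3 : padicValRat q ((3 : ℕ) : ℚ) = (padicValNat q 3 : ℤ) := padicValRat.of_nat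
      rw [this] at h3
      exact_mod_cast h3
    rw [h1, padicValRat.mul three_ne_zero (mul_ne_zero he he),
      padicValRat.mul he he, h2, zero_add]
    exact ⟨_, rfl⟩
  · by_cases he : e = 0
    · have h1 : c ^ 2 + 3 * e ^ 2 = c * c := by
        rw [he]
        ring
      rw [h1, padicValRat.mul hc hc]
      exact ⟨_, rfl⟩
    · rw [val_form3 hq hc he]
      exact even_two_mul _

theorem N3.mul {x y : ℚ} (hx : N3 x) (hy : N3 y) : N3 (x * y) := by
  obtain ⟨hx0, c, e, hx⟩ := hx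
  obtain ⟨hy0, c', e', hy⟩ := hy
  refine ⟨mul_ne_zero hx0 hy0, c * c' - 3 * e * e', c * e' + c' * e, ?_⟩
  rw [hx, hy]
  ring

theorem N3.inv {x : ℚ} (hx : N3 x) : N3 x⁻¹ := by
  obtain ⟨hx0, c, e, hx⟩ := hx
  refine ⟨inv_ne_zero hx0, c / x, e / x, ?_⟩
  rw [div_pow, div_pow, ← mul_div_assoc, ← add_div, ← hx, sq, ← div_div, div_self hx0, one_div]

theorem N3.sq {x : ℚ} (hx : x ≠ 0) : N3 (x ^ 2) :=
  ⟨pow_ne_zero _ hx, x, 0, by ring⟩

end Pool.Agent.H324R2.PQ
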