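import Pool.Agent.H324R2.PQ.Defs

/-!
# K2: norms from `ℚ(√-3)`
-/

set_option autoImplicit false

namespace Pool.Agent.H324R2.PQ

private theorem k2_one : N3 1 := ⟨one_ne_zero, 1, 0, by norm_num⟩

private theorem k2_mul {x y : ℚ} (hx : N3 x) (hy : N3 y) : N3 (x * y) := by
  obtain ⟨hx0, c, e, rfl⟩ := hx
  obtain ⟨hy0, c', e', rfl⟩ := hy
  exact ⟨mul_ne_zero hx0 hy0, c * c' - 3 * e * e', c * e' + e * c', by ring⟩

private theorem k2_sq {x : ℚ} (hx : x ≠ 0) : N3 (x ^ 2) := ⟨pow_ne_zero _ hx, x, 0, by ring⟩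

private theorem k2_root {p : ℕ} (hp : p.Prime) (h : p % 3 = 1) : ∃ x : ZMod p, x ^ 2 = -3 := by
  have := Fact.mk hp
  have h3 : 3 ∣ Fintype.card (ZMod p)ˣ := by
    rw [ZMod.card_units p]
    have := hp.two_le
    omega
  have : Fact (Nat.Prime 3) := ⟨Nat.prime_three⟩
  obtain ⟨w, hw⟩ := exists_prime_orderOf_dvd_card 3 h3
  have hw3 : w ^ 3 = 1 := by rw [← hw]; exact pow_orderOf_eq_one w
  have hw1 : w ≠ 1 := by
    rintro rfl
    rw [orderOf_one] at hw
    omega
  have h1 : (w : ZMod p) ^ 3 = 1 := by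
    rw [← Units.val_pow_eq_pow_val, hw3, Units.val_one]
  have h2 : (w : ZMod p) - 1 ≠ 0 := by
    intro h
    apply hw1
    apply Units.ext
    rw [Units.val_one]
    exact sub_eq_zero.mp h
  have h4 : (w : ZMod p) ^ 2 + w + 1 = 0 := by
    have : ((w : ZMod p) - 1) * ((w : ZMod p) ^ 2 + w + 1) = 0 := by
      linear_combination h1
    exact (mul_eq_zero.mp this).resolve_left h2
  exact ⟨2 * w + 1, by linear_combination 4 * h4⟩

private theorem k2_of_residue {p : ℕ} (hp : p.Prime) (hp2 : p % 2 = 1) {x : ZMod p}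
    (hx : x ^ 2 = -3) : N3 (p : ℚ) := by
  have := Fact.mk hp
  set k := Nat.sqrt p with hk
  have hk1 : p < (k + 1) * (k + 1) := Nat.lt_succ_sqrt p
  have hk2 : k * k < p := by
    rcases (Nat.sqrt_le p).lt_or_eq with h | h
    · exact h
    · exfalso
      have h2 : k * k = p := h
      have hpr := hp
      rw [← h2] at hpr
      have hk1' : k ≠ 1 := by
        intro h1
        rw [h1] at hpr
        exact Nat.not_prime_one hpr
      exact Nat.not_prime_mul hk1' hk1' hpr
  let s : Finset (ℕ × ℕ) := Finset.range (k + 1) ×ˢ Finset.range (k + 1)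
  let f : ℕ × ℕ → ZMod p := fun w => (w.1 : ZMod p) - x * w.2
  have hcard : (Finset.univ : Finset (ZMod p)).card < s.card := by
    rw [Finset.card_univ, ZMod.card, Finset.card_product, Finset.card_range]
    exact hk1
  obtain ⟨w1, h1, w2, h2, hne, heq⟩ :=
    Finset.exists_ne_map_eq_of_card_lt_of_maps_to hcard (f := f)
      (fun a _ => Finset.mem_coe.2 (Finset.mem_univ _))
  simp only [s, Finset.mem_product, Finset.mem_range] at h1 h2
  set u : ℤ := (w1.1 : ℤ) - w2.1 with hu
  set v : ℤ := (w1.2 : ℤ) - w2.2 with hv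
  have huv : ¬ (u = 0 ∧ v = 0) := by
    rintro ⟨h3, h4⟩
    apply hne
    apply Prod.ext
    · omega
    · omega
  have hdvd : (p : ℤ) ∣ u ^ 2 + 3 * v ^ 2 := by
    rw [← ZMod.intCast_zmod_eq_zero_iff_dvd]
    push_cast [hu, hv]
    have h5 : (w1.1 : ZMod p) - w2.1 = x * ((w1.2 : ZMod p) - w2.2) := by
      simp only [f] at heq
      linear_combination heq
    rw [h5, mul_pow, hx]
    ring
  have hku : u ^ 2 ≤ k * k := by
    have e1 : |u| ≤ |(k : ℤ)| := by
      have : |(k : ℤ)| = k := abs_of_nonneg (by positivity)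
      rw [this, abs_le]
      constructor <;> omega
    have := sq_le_sq.2 e1
    linarith [sq (k : ℤ)]
  have hkv : v ^ 2 ≤ k * k := by
    have e1 : |v| ≤ |(k : ℤ)| := by
      have : |(k : ℤ)| = k := abs_of_nonneg (by positivity)
      rw [this, abs_le]
      constructor <;> omega
    have := sq_le_sq.2 e1
    linarith [sq (k : ℤ)]
  have hkp : (k : ℤ) * k < p := by exact_mod_cast hk2
  have hpos : 0 < u ^ 2 + 3 * v ^ 2 := by
    rcases not_and_or.mp huv with h | h
    · have := sq_pos_of_ne_zero h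
      nlinarith [sq_nonneg v]
    · have := sq_pos_of_ne_zero h
      nlinarith [sq_nonneg u]
  obtain ⟨t, ht⟩ := hdvd
  have hp0 : (0 : ℤ) < p := by exact_mod_cast hp.pos
  have ht4 : t < 4 := by
    by_contra h
    push Not at h
    nlinarith
  have ht0 : 0 < t := by
    by_contra h
    push Not at h
    nlinarith
  have hpne : (p : ℚ) ≠ 0 := by exact_mod_cast hp.ne_zero
  have ht' : t = 1 ∨ t = 2 ∨ t = 3 := by omega
  rcases ht' with rfl | rfl | rfl
  · refine ⟨hpne, u, v, ?_⟩
    have : ((u ^ 2 + 3 * v ^ 2 : ℤ) : ℚ) = ((p * 1 : ℤ) : ℚ) := by rw [ht]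
    push_cast at this
    linarith
  · exfalso
    have hp4 : (p : ℤ) % 2 = 1 := by omega
    have h8 : ((p : ℤ) * 2) % 4 = 2 := by omega
    rw [← ht] at h8
    have hu4 : u ^ 2 % 4 = 0 ∨ u ^ 2 % 4 = 1 := by
      rcases Int.even_or_odd' u with ⟨m, hm | hm⟩
      · left; rw [hm]; ring_nf; omega
      · right; rw [hm]; ring_nf; omega
    have hv4 : v ^ 2 % 4 = 0 ∨ v ^ 2 % 4 = 1 := by
      rcases Int.even_or_odd' v with ⟨m, hm | hm⟩
      · left; rw [hm]; ring_nf; omega
      · right; rw [hm]; ring_nf; omega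
    omega
  · refine ⟨hpne, v, u / 3, ?_⟩
    have : ((u ^ 2 + 3 * v ^ 2 : ℤ) : ℚ) = ((p * 3 : ℤ) : ℚ) := by rw [ht]
    push_cast at this
    linarith

theorem N3_prime {p : ℕ} (hp : p.Prime) (h : p = 3 ∨ p % 3 = 1) : N3 (p : ℚ) := by
  rcases h with rfl | h
  · exact ⟨by norm_num, 0, 1, by norm_num⟩
  · obtain ⟨x, hx⟩ := k2_root hp h
    have hp2 : p % 2 = 1 := by
      rcases hp.eq_two_or_odd with h2 | h2
      · rw [h2] at h; omega
      · exact h2
    exact k2_of_residue hp hp2 hx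

private theorem k2_prod {s : Finset ℕ} (h : ∀ p ∈ s, N3 (p : ℚ)) : N3 ((∏ p ∈ s, p : ℕ) : ℚ) := by
  classical
  induction s using Finset.induction_on with
  | empty => simpa using k2_one
  | insert a s ha ih =>
    rw [Finset.prod_insert ha, Nat.cast_mul]
    exact k2_mul (h a (Finset.mem_insert_self a s))
      (ih (fun p hp => h p (Finset.mem_insert_of_mem hp)))

private theorem k2_nat {n : ℕ} (hn : n ≠ 0)
    (h : ∀ q : ℕ, q.Prime → q % 3 = 2 → Even (padicValNat q n)) : N3 (n : ℚ) := by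
  obtain ⟨s, k, hsk, hs⟩ := Nat.sq_mul_squarefree n
  have hk0 : k ≠ 0 := by
    rintro rfl
    apply hn
    rw [← hsk]
    ring
  have hs0 : s ≠ 0 := hs.ne_zero
  have hs' : N3 (s : ℚ) := by
    rw [← Nat.prod_primeFactors_of_squarefree hs]
    apply k2_prod
    intro p hp
    have hpp := Nat.prime_of_mem_primeFactors hp
    have := Fact.mk hpp
    have hps := Nat.dvd_of_mem_primeFactors hp
    apply N3_prime hpp
    by_contra hcon
    push Not at hcon
    have hp3 : p % 3 = 2 := by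
      have h0 : p % 3 ≠ 0 := by
        intro h0
        have h3 : 3 ∣ p := Nat.dvd_of_mod_eq_zero h0
        exact hcon.1 ((Nat.prime_dvd_prime_iff_eq Nat.prime_three hpp).mp h3).symm
      have := hcon.2
      omega
    have h1 := h p hpp hp3
    rw [← hsk, padicValNat.mul (pow_ne_zero _ hk0) hs0, padicValNat.pow] at h1
    have h2 : padicValNat p s = 1 := by
      have h3 : 1 ≤ padicValNat p s := one_le_padicValNat_of_dvd hs0 hps
      have h4 : ¬ 2 ≤ padicValNat p s := by
        intro h5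
        have h6 : p ^ 2 ∣ s := (pow_dvd_pow p h5).trans pow_padicValNat_dvd
        rw [sq] at h6
        have := hs p h6
        exact hpp.one_lt.ne' (Nat.isUnit_iff.1 this)
      omega
    rw [h2] at h1
    obtain ⟨r, hr⟩ := h1
    omega
  rw [← hsk]
  push_cast
  exact k2_mul (k2_sq (by exact_mod_cast hk0)) hs'

/-- positive rationals with even valuation at all primes `q ≡ 2 (mod 3)` (also `q = 2`) are norms -/
theorem N3_of_even {x : ℚ} (hx : 0 < x)
    (h : ∀ q : ℕ, q.Prime → q % 3 = 2 → Even (padicValRat q x)) : N3 x := by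
  set n : ℕ := x.num.natAbs * x.den with hn
  have hnum : x.num.natAbs ≠ 0 := Int.natAbs_ne_zero.2 (Rat.num_ne_zero.2 hx.ne')
  have hden : x.den ≠ 0 := x.den_nz
  have hn0 : n ≠ 0 := mul_ne_zero hnum hden
  have hN : N3 (n : ℚ) := by
    apply k2_nat hn0
    intro q hq hq3
    have := Fact.mk hq
    have h1 := h q hq hq3
    rw [padicValRat_def, padicValInt] at h1
    rw [hn, padicValNat.mul hnum hden]
    obtain ⟨r, hr⟩ := h1
    rw [Nat.even_iff]
    omega
  have hdq : (x.den : ℚ) ≠ 0 := by exact_mod_cast hden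
  have hN2 : N3 ((n : ℚ) * ((x.den : ℚ)⁻¹) ^ 2) := k2_mul hN (k2_sq (inv_ne_zero hdq))
  have habs : (n : ℚ) * ((x.den : ℚ)⁻¹) ^ 2 = |x| := by
    rw [hn]
    push_cast
    rw [← Rat.num_div_den x]
    rw [abs_div, Nat.abs_cast]
    simp only [Rat.num_div_den]
    field_simp
    rw [Nat.cast_natAbs, Int.cast_abs]
  rw [habs, abs_of_pos hx] at hN2
  exact hN2

end Pool.Agent.H324R2.PQ
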