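import Pool.Agent.H324R2.PQ.Defs

/-!
# K3: Legendre's theorem for `l z² = A x² + B y²`
-/

set_option autoImplicit false

namespace Pool.Agent.H324R2.PQ

private theorem K3_sq_crt (c : ℤ) {n : ℕ} : Squarefree n →
    (∀ p : ℕ, p.Prime → p ∣ n → ∃ s : ℤ, (p : ℤ) ∣ s ^ 2 - c) →
    ∃ s : ℤ, (n : ℤ) ∣ s ^ 2 - c := by
  induction n using induction_on_primes with
  | zero => intro h; exact absurd h not_squarefree_zero
  | one => intro _ _; exact ⟨0, by simp⟩
  | prime_mul p a hp ih =>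
    intro hsf h
    obtain ⟨hcop, -, hsa⟩ := Nat.squarefree_mul_iff.1 hsf
    obtain ⟨s2, h2⟩ := ih hsa fun q hq hqa => h q hq (hqa.mul_left p)
    obtain ⟨s1, h1⟩ := h p hp (dvd_mul_right p a)
    have hc : IsCoprime (p : ℤ) (a : ℤ) := Nat.isCoprime_iff_coprime.2 hcop
    obtain ⟨u, v, huv⟩ := hc
    refine ⟨s1 * (v * a) + s2 * (u * p), ?_⟩
    push_cast
    have hc : IsCoprime (p : ℤ) (a : ℤ) := ⟨u, v, huv⟩
    refine hc.mul_dvd ?_ ?_
    · have e : s1 * (v * a) + s2 * (u * p) = s1 + p * (u * (s2 - s1)) := by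
        linear_combination s1 * huv
      rw [e]
      have : (s1 + p * (u * (s2 - s1))) ^ 2 - c = (s1 ^ 2 - c)
        + p * (2 * s1 * (u * (s2 - s1)) + p * (u * (s2 - s1)) ^ 2) := by ring
      rw [this]
      exact dvd_add h1 (dvd_mul_right _ _)
    · have e : s1 * (v * a) + s2 * (u * p) = s2 + a * (v * (s1 - s2)) := by
        linear_combination s2 * huv
      rw [e]
      have : (s2 + a * (v * (s1 - s2))) ^ 2 - c = (s2 ^ 2 - c)
        + a * (2 * s2 * (v * (s1 - s2)) + a * (v * (s1 - s2)) ^ 2) := by ring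
      rw [this]
      exact dvd_add h2 (dvd_mul_right _ _)

private theorem K3_sq_lift (c : ℤ) {p : ℕ} [NeZero p] (h : IsSquare (c : ZMod p)) :
    ∃ s : ℤ, (p : ℤ) ∣ s ^ 2 - c := by
  obtain ⟨w, hw⟩ := h
  refine ⟨(w.val : ℤ), ?_⟩
  rw [← ZMod.intCast_zmod_eq_zero_iff_dvd]
  push_cast
  rw [ZMod.natCast_val, ZMod.cast_id', id, hw]
  ring

/-- `A l` is not a square if the prime `l` does not divide `A` -/
private theorem K3_ns {A l : ℕ} (hl : l.Prime) (hAl : A.Coprime l) (y : ℤ) : y ^ 2 ≠ A * l := by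
  intro hy
  have hlp : Prime (l : ℤ) := Nat.prime_iff_prime_int.1 hl
  have hd : (l : ℤ) ∣ y := hlp.dvd_of_dvd_pow (n := 2) ⟨A, by rw [hy]; ring⟩
  obtain ⟨v, rfl⟩ := hd
  have hl0' : (l : ℤ) ≠ 0 := by exact_mod_cast hl.ne_zero
  have : (A : ℤ) = l * v ^ 2 := by
    apply mul_left_cancel₀ hl0'
    linear_combination -hy
  have hd : l ∣ A := by
    have : (l : ℤ) ∣ (A : ℤ) := ⟨_, this⟩
    exact_mod_cast this
  have := Nat.Coprime.eq_one_of_dvd (hAl.symm) hd
  exact hl.one_lt.ne' this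

private theorem K3_sqb (n : ℕ) (v : ℤ) (hv : |v| ≤ Nat.sqrt n) : v ^ 2 ≤ n := by
  have e := Nat.sqrt_le n
  have e' : (Nat.sqrt n : ℤ) * Nat.sqrt n ≤ n := by exact_mod_cast e
  calc v ^ 2 = |v| * |v| := by rw [abs_mul_abs_self]; ring
    _ ≤ (Nat.sqrt n : ℤ) * Nat.sqrt n := mul_le_mul hv hv (abs_nonneg _) (by positivity)
    _ ≤ n := e'

theorem legendre_gen {A B l : ℕ} (hA : Squarefree A) (hB : Squarefree B) (hl : l.Prime)
    (hAB : A.Coprime B) (hAl : A.Coprime l) (hBl : B.Coprime l) (h1 : 1 < A * B)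
    (hA' : ∀ p : ℕ, p.Prime → p ∣ A → IsSquare ((B * l : ℕ) : ZMod p))
    (hB' : ∀ p : ℕ, p.Prime → p ∣ B → IsSquare ((A * l : ℕ) : ZMod p))
    (hl' : IsSquare (-((A * B : ℕ) : ZMod l))) :
    ∃ x y z : ℤ, (x, y, z) ≠ (0, 0, 0) ∧ l * z ^ 2 = A * x ^ 2 + B * y ^ 2 := by
  have hA0 : A ≠ 0 := hA.ne_zero
  have hB0 : B ≠ 0 := hB.ne_zero
  have hl0 : l ≠ 0 := hl.ne_zero
  have : NeZero A := ⟨hA0⟩
  have : NeZero B := ⟨hB0⟩
  have : NeZero l := ⟨hl0⟩
  obtain ⟨s, hs⟩ : ∃ s : ℤ, (A : ℤ) ∣ s ^ 2 - (B * l) := by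
    refine K3_sq_crt _ hA fun p hp hpr => ?_
    have : NeZero p := ⟨hp.ne_zero⟩
    refine K3_sq_lift _ ?_
    have := hA' p hp hpr
    push_cast at this ⊢
    exact this
  obtain ⟨t, ht⟩ : ∃ t : ℤ, (B : ℤ) ∣ t ^ 2 - (A * l) := by
    refine K3_sq_crt _ hB fun p hp hpr => ?_
    have : NeZero p := ⟨hp.ne_zero⟩
    refine K3_sq_lift _ ?_
    have := hB' p hp hpr
    push_cast at this ⊢
    exact this
  obtain ⟨w, hw⟩ : ∃ w : ℤ, (l : ℤ) ∣ w ^ 2 - (-(A * B)) := by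
    refine K3_sq_lift _ ?_
    push_cast at hl' ⊢
    exact hl'
  have hABns : ∀ z : ℤ, z ^ 2 ≠ A * B := by
    intro z hz
    have hsf : Squarefree (A * B) := (Nat.squarefree_mul hAB).2 ⟨hA, hB⟩
    have hz' : z.natAbs * z.natAbs = A * B := by
      have : (z.natAbs : ℤ) * z.natAbs = A * B := by
        rw [← hz, Int.natAbs_mul_self', sq]
      exact_mod_cast this
    have hu : IsUnit z.natAbs := hsf z.natAbs ⟨1, by rw [mul_one]; exact hz'.symm⟩
    rw [Nat.isUnit_iff] at hu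
    rw [hu] at hz'
    omega
  -- pigeonhole
  set X := Nat.sqrt (B * l) with hX
  set Y := Nat.sqrt (A * l) with hY
  set Z := Nat.sqrt (A * B) with hZ
  have hcard : A * B * l < (X + 1) * ((Y + 1) * (Z + 1)) := by
    have e1 := Nat.lt_succ_sqrt (B * l)
    have e2 := Nat.lt_succ_sqrt (A * l)
    have e3 := Nat.lt_succ_sqrt (A * B)
    simp only [Nat.succ_eq_add_one, ← hX, ← hY, ← hZ] at e1 e2 e3
    by_contra hcon
    rw [not_lt] at hcon
    have e4 : ((X + 1) * ((Y + 1) * (Z + 1))) * ((X + 1) * ((Y + 1) * (Z + 1)))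
        ≤ (A * B * l) * (A * B * l) := Nat.mul_le_mul hcon hcon
    have e5 : (B * l) * ((A * l) * (A * B)) <
        ((X + 1) * (X + 1)) * (((Y + 1) * (Y + 1)) * ((Z + 1) * (Z + 1))) :=
      Nat.mul_lt_mul'' e1 (Nat.mul_lt_mul'' e2 e3)
    have e6 : (B * l) * ((A * l) * (A * B)) = (A * B * l) * (A * B * l) := by ring
    have e7 : ((X + 1) * (X + 1)) * (((Y + 1) * (Y + 1)) * ((Z + 1) * (Z + 1)))
      = ((X + 1) * ((Y + 1) * (Z + 1))) * ((X + 1) * ((Y + 1) * (Z + 1))) := by ring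
    omega
  let F : ℕ × ℕ × ℕ → ZMod A × ZMod B × ZMod l := fun q =>
    (((s * q.2.1 - l * q.2.2 : ℤ) : ZMod A), ((t * q.1 - l * q.2.2 : ℤ) : ZMod B),
      ((A * q.1 - w * q.2.1 : ℤ) : ZMod l))
  obtain ⟨q, hq, q', hq', hne, heq⟩ := Finset.exists_ne_map_eq_of_card_lt_of_maps_to
    (s := Finset.range (X + 1) ×ˢ (Finset.range (Y + 1) ×ˢ Finset.range (Z + 1)))
    (t := (Finset.univ : Finset (ZMod A × ZMod B × ZMod l))) (f := F)
    (by
      rw [Finset.card_univ, Finset.card_product, Finset.card_product]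
      simp only [Fintype.card_prod, ZMod.card, Finset.card_range]
      calc _ = A * B * l := by ring
        _ < _ := hcard) (fun _ _ => Finset.mem_univ _)
  obtain ⟨x0, y0, z0⟩ := q
  obtain ⟨x1, y1, z1⟩ := q'
  simp only [Finset.mem_product, Finset.mem_range] at hq hq'
  simp only [F, Prod.mk.injEq] at heq
  obtain ⟨g1, g2, g3⟩ := heq
  rw [ZMod.intCast_eq_intCast_iff_dvd_sub] at g1 g2 g3
  set x : ℤ := x1 - x0 with hx
  set y : ℤ := y1 - y0 with hy
  set z : ℤ := z1 - z0 with hz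
  have k1 : (A : ℤ) ∣ s * y - l * z := by
    refine g1.trans (dvd_of_eq ?_)
    rw [hy, hz]; ring
  have k2 : (B : ℤ) ∣ t * x - l * z := by
    refine g2.trans (dvd_of_eq ?_)
    rw [hx, hz]; ring
  have k3 : (l : ℤ) ∣ A * x - w * y := by
    refine g3.trans (dvd_of_eq ?_)
    rw [hx, hy]; ring
  have hxyz : ¬ (x = 0 ∧ y = 0 ∧ z = 0) := by
    rintro ⟨e1, e2, e3⟩
    apply hne
    have e1' : x1 = x0 := by omega
    have e2' : y1 = y0 := by omega
    have e3' : z1 = z0 := by omega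
    rw [e1', e2', e3']
  have hxX : |x| ≤ X := by rw [abs_le]; omega
  have hyY : |y| ≤ Y := by rw [abs_le]; omega
  have hzZ : |z| ≤ Z := by rw [abs_le]; omega
  have hx2 : x ^ 2 < B * l := by
    have e1 := K3_sqb _ _ hxX
    push_cast at e1
    exact lt_of_le_of_ne e1 (K3_ns hl hBl x)
  have hy2 : y ^ 2 < A * l := by
    have e1 := K3_sqb _ _ hyY
    push_cast at e1
    exact lt_of_le_of_ne e1 (K3_ns hl hAl y)
  have hz2 : z ^ 2 < A * B := by
    have e1 := K3_sqb _ _ hzZ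
    push_cast at e1
    exact lt_of_le_of_ne e1 (hABns z)
  -- divisibility
  set f : ℤ := A * x ^ 2 + B * y ^ 2 - l * z ^ 2 with hf
  have d1 : (A : ℤ) ∣ f := by
    have hc : IsCoprime (A : ℤ) (l : ℤ) := Nat.isCoprime_iff_coprime.2 hAl
    refine hc.dvd_of_dvd_mul_left ?_
    have e : l * f = (s * y - l * z) * (s * y + l * z) - y ^ 2 * (s ^ 2 - (B * l))
      + A * (l * x ^ 2) := by rw [hf]; ring
    rw [e]
    exact dvd_add (dvd_sub (k1.mul_right _) (hs.mul_left _)) (dvd_mul_right _ _)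
  have d2 : (B : ℤ) ∣ f := by
    have hc : IsCoprime (B : ℤ) (l : ℤ) := Nat.isCoprime_iff_coprime.2 hBl
    refine hc.dvd_of_dvd_mul_left ?_
    have e : l * f = (t * x - l * z) * (t * x + l * z) - x ^ 2 * (t ^ 2 - (A * l))
      + B * (l * y ^ 2) := by rw [hf]; ring
    rw [e]
    exact dvd_add (dvd_sub (k2.mul_right _) (ht.mul_left _)) (dvd_mul_right _ _)
  have d3 : (l : ℤ) ∣ f := by
    have hc : IsCoprime (l : ℤ) (A : ℤ) := Nat.isCoprime_iff_coprime.2 hAl.symm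
    refine hc.dvd_of_dvd_mul_left ?_
    have e : A * f = (A * x - w * y) * (A * x + w * y) + y ^ 2 * (w ^ 2 - (-(A * B)))
      + l * (-A * z ^ 2) := by rw [hf]; ring
    rw [e]
    exact dvd_add (dvd_add (k3.mul_right _) (hw.mul_left _)) (dvd_mul_right _ _)
  have c12 : IsCoprime (A : ℤ) (B : ℤ) := Nat.isCoprime_iff_coprime.2 hAB
  have c3 : IsCoprime ((A * B : ℕ) : ℤ) (l : ℤ) :=
    Nat.isCoprime_iff_coprime.2 (Nat.Coprime.mul_left hAl hBl)
  have dm : (A * B * l : ℤ) ∣ f := by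
    have e1 : (A * B : ℤ) ∣ f := c12.mul_dvd d1 d2
    have e2 : (((A * B : ℕ) : ℤ) * l) ∣ f := c3.mul_dvd (by push_cast; exact e1) d3
    push_cast at e2
    exact e2
  have hAp : (0 : ℤ) < A := by exact_mod_cast Nat.pos_of_ne_zero hA0
  have hBp : (0 : ℤ) < B := by exact_mod_cast Nat.pos_of_ne_zero hB0
  have hlp : (0 : ℤ) < l := by exact_mod_cast Nat.pos_of_ne_zero hl0
  have b1 : -(A * B * l) < f := by
    have e1 : (l : ℤ) * z ^ 2 < l * (A * B) := mul_lt_mul_of_pos_left hz2 hlp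
    have e2 : 0 ≤ A * x ^ 2 := by positivity
    have e3 : 0 ≤ B * y ^ 2 := by positivity
    have e4 : (l : ℤ) * (A * B) = A * B * l := by ring
    rw [hf]; linarith
  have b2 : f < 2 * (A * B * l) := by
    have e1 : (A : ℤ) * x ^ 2 < A * (B * l) := mul_lt_mul_of_pos_left hx2 hAp
    have e2 : (B : ℤ) * y ^ 2 < B * (A * l) := mul_lt_mul_of_pos_left hy2 hBp
    have e3 : 0 ≤ l * z ^ 2 := by positivity
    have e4 : (A : ℤ) * (B * l) = A * B * l := by ring
    have e5 : (B : ℤ) * (A * l) = A * B * l := by ring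
    rw [hf]; linarith
  obtain ⟨k, hk⟩ := dm
  have hmp : (0 : ℤ) < A * B * l := by positivity
  have hk1 : -1 < k := by
    by_contra hcon
    have := mul_le_mul_of_nonneg_left (not_lt.1 hcon) hmp.le
    linarith
  have hk2 : k < 2 := by
    by_contra hcon
    have := mul_le_mul_of_nonneg_left (not_lt.1 hcon) hmp.le
    linarith
  have hk3 : k = 0 ∨ k = 1 := by omega
  rcases hk3 with rfl | rfl
  · refine ⟨x, y, z, ?_, ?_⟩
    · simpa [Prod.ext_iff] using hxyz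
    · have : f = 0 := by rw [hk]; ring
      rw [hf] at this; linarith
  · refine ⟨x * z + B * y, y * z - A * x, z ^ 2 + A * B, ?_, ?_⟩
    · intro h
      simp only [Prod.mk.injEq] at h
      have h3 := h.2.2
      have : 0 < z ^ 2 + A * B := by positivity
      omega
    · have e : f = A * B * l := by rw [hk]; ring
      rw [hf] at e
      linear_combination (-(z ^ 2 + A * B : ℤ)) * e

end Pool.Agent.H324R2.PQ
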