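import Pool.Agent.H324R2.PQ.K1
import Pool.Agent.H324R2.PQ.K2
import Pool.Agent.H324R2.PQ.K3

/-! # Task K4 of the project PQ: representation by a norm from `ℚ(√-3)` (helper219) -/

set_option autoImplicit false

namespace Pool.Agent.H324R2.PQ

open NumberTheorySymbols in
/-- the symbol computation -/
private lemma K4_jacobi_calc {a r l : ℕ} (hao : Odd a) (hr : r % 12 = 1) (har : a.Coprime r)
    (hl : l % 12 = 1) (hla : (l : ℤ) % a = (r : ℤ) % a)
    (hlr : (l : ℤ) % r = (3 * a : ℤ) % r) :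
    J((-((r * (3 * a) : ℕ) : ℤ)) | l) = 1 := by
  have hro : Odd r := by rw [Nat.odd_iff]; omega
  have hlo : Odd l := by rw [Nat.odd_iff]; omega
  have e1 : J((l : ℤ) | a) = J((r : ℤ) | a) := jacobiSym.mod_left' hla
  have e2 : J((l : ℤ) | r) = J((3 * a : ℤ) | r) := jacobiSym.mod_left' hlr
  have e3 : J((a * r : ℤ) | l) = J((l : ℤ) | (a * r)) := by
    have := jacobiSym.quadratic_reciprocity_one_mod_four (a := l) (b := a * r) (by omega)
      (hao.mul hro)
    rw [this]; push_cast; rfl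
  have e4 : J((3 : ℤ) | l) = 1 := by
    have h := jacobiSym.quadratic_reciprocity_one_mod_four (a := l) (b := 3) (by omega)
      (by decide)
    have h' : J((l : ℤ) | 3) = 1 := by
      have : J((l : ℤ) | 3) = J((1 : ℤ) | 3) := jacobiSym.mod_left' (by push_cast; omega)
      rw [this, jacobiSym.one_left]
    rw [h'] at h
    exact_mod_cast h.symm
  have e5 : J((3 : ℤ) | r) = 1 := by
    have h := jacobiSym.quadratic_reciprocity_one_mod_four (a := r) (b := 3) (by omega)
      (by decide)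
    have h' : J((r : ℤ) | 3) = 1 := by
      have : J((r : ℤ) | 3) = J((1 : ℤ) | 3) := jacobiSym.mod_left' (by push_cast; omega)
      rw [this, jacobiSym.one_left]
    rw [h'] at h
    exact_mod_cast h.symm
  have e6 : J((-1 : ℤ) | l) = 1 := by
    rw [jacobiSym.at_neg_one hlo]
    rw [ZMod.χ₄_nat_one_mod_four (by omega)]
  have e7 : J((r : ℤ) | a) = J((a : ℤ) | r) :=
    jacobiSym.quadratic_reciprocity_one_mod_four (a := r) (b := a) (by omega) hao
  have e8 : J((r : ℤ) | a) * J((r : ℤ) | a) = 1 := by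
    have := jacobiSym.sq_one (a := (r : ℤ)) (b := a) (by
      rw [Int.gcd_natCast_natCast]; exact har.symm)
    rw [← this]; ring
  have e9 : J((3 * a : ℤ) | r) = J((a : ℤ) | r) := by
    rw [jacobiSym.mul_left, e5]
    ring
  calc J((-((r * (3 * a) : ℕ) : ℤ)) | l) = J((-1 : ℤ) | l) * (J((3 : ℤ) | l) * J((a * r : ℤ) | l)) := by
        rw [← jacobiSym.mul_left, ← jacobiSym.mul_left]; congr 1; push_cast; ring
    _ = J((l : ℤ) | (a * r)) := by rw [e4, e3, e6, one_mul, one_mul]
    _ = J((l : ℤ) | a) * J((l : ℤ) | r) := by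
        have : NeZero a := ⟨by rintro rfl; simp at hao⟩
        have : NeZero r := ⟨by rintro rfl; simp at hro⟩
        rw [jacobiSym.mul_right]
    _ = 1 := by rw [e1, e2, e9, ← e7, e8]

private lemma K4_exists_l {a r : ℕ} (ha : a ≠ 0) (ha6 : a.Coprime 6) (hr : r % 12 = 1)
    (har : a.Coprime r) :
    ∃ l : ℕ, l.Prime ∧ 3 * a < l ∧ r < l ∧ l % 12 = 1 ∧ (l : ℤ) % a = (r : ℤ) % a ∧
      (l : ℤ) % r = (3 * a : ℤ) % r := by
  have hr0 : r ≠ 0 := by rintro rfl; simp at hr
  have hr6 : r.Coprime 12 := by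
    have h : r ≡ 1 [MOD 12] := hr
    rw [Nat.coprime_iff_gcd_eq_one, h.gcd_eq]; rfl
  have ha12 : a.Coprime 12 := by
    rw [show (12 : ℕ) = 2 * 6 by norm_num]
    exact Nat.Coprime.mul_right (Nat.Coprime.coprime_dvd_right (by norm_num) ha6) ha6
  have h8 : Nat.Coprime 12 (a * r) := (Nat.Coprime.mul_left ha12 hr6).symm
  obtain ⟨x, hx1, hx2⟩ := Nat.chineseRemainder har r (3 * a)
  obtain ⟨y, hy1, hy2⟩ := Nat.chineseRemainder h8 1 x
  have hya : y ≡ r [MOD a] := (hy2.of_mul_right r).trans hx1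
  have hyr : y ≡ 3 * a [MOD r] := (hy2.of_mul_left a).trans hx2
  have : NeZero (12 * (a * r)) := ⟨by positivity⟩
  have hcc : Nat.Coprime (3 * a) r :=
    Nat.Coprime.mul_left (Nat.Coprime.coprime_dvd_right (by norm_num) hr6).symm har
  have hcop : Nat.Coprime y (12 * (a * r)) := by
    apply Nat.Coprime.mul_right
    · rw [Nat.coprime_iff_gcd_eq_one, hy1.gcd_eq]; rfl
    · apply Nat.Coprime.mul_right
      · rw [Nat.coprime_iff_gcd_eq_one, hya.gcd_eq]; exact har.symm
      · rw [Nat.coprime_iff_gcd_eq_one, hyr.gcd_eq]; exact hcc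
  have hu : IsUnit ((y : ℕ) : ZMod (12 * (a * r))) := by
    rw [ZMod.isUnit_iff_coprime]; exact hcop
  obtain ⟨l, hl1, hl2, hl3⟩ := Nat.forall_exists_prime_gt_and_eq_mod hu (3 * a + r)
  have hl4 : l ≡ y [MOD (12 * (a * r))] := (ZMod.natCast_eq_natCast_iff _ _ _).1 hl3
  refine ⟨l, hl2, by omega, by omega, ?_, ?_, ?_⟩
  · have : l ≡ 1 [MOD 12] := (hl4.of_mul_right (a * r)).trans hy1
    exact this
  · have : l ≡ r [MOD a] := ((hl4.of_mul_left 12).of_mul_right r).trans hya
    have := (Int.natCast_modEq_iff).2 this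
    exact this
  · have : l ≡ 3 * a [MOD r] := ((hl4.of_mul_left 12).of_mul_left a).trans hyr
    have := (Int.natCast_modEq_iff).2 this
    push_cast at this
    exact this

theorem exists_repr3 {a r : ℕ} (ha : Squarefree a) (ha6 : a.Coprime 6) (hr : r % 12 = 1)
    (har : a.Coprime r) : ∃ w : ℚ, N3 (r + 3 * a * w ^ 2) := by
  obtain ⟨r0, k, hk, hr0⟩ := Nat.sq_mul_squarefree r
  have hao : Odd a := by
    have : a.Coprime 2 := Nat.Coprime.coprime_dvd_right (by norm_num) ha6
    exact Nat.coprime_two_right.1 this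
  have ha3 : a.Coprime 3 := Nat.Coprime.coprime_dvd_right (by norm_num) ha6
  have hk12 : k % 12 < 12 := Nat.mod_lt _ (by norm_num)
  have hr12 : r0 % 12 < 12 := Nat.mod_lt _ (by norm_num)
  have hkr : (k % 12) ^ 2 * (r0 % 12) % 12 = 1 := by
    have : (k ^ 2 * r0) % 12 = 1 := by rw [hk]; exact hr
    rw [Nat.mul_mod, Nat.pow_mod] at this
    rw [Nat.mul_mod]
    simpa using this
  have hr08 : r0 % 12 = 1 := by
    generalize k % 12 = u at *
    generalize r0 % 12 = v at *
    interval_cases u <;> simp at hkr <;> interval_cases v <;> simp_all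
  have har0 : a.Coprime r0 := by
    rw [← hk] at har
    exact (Nat.coprime_mul_iff_right.1 har).2
  have ha0 : a ≠ 0 := ha.ne_zero
  have hr03 : r0.Coprime 3 := by
    rw [Nat.coprime_comm, Nat.Prime.coprime_iff_not_dvd Nat.prime_three]
    omega
  obtain ⟨l, hl, hal, hrl, hl8, hla, hlr⟩ := K4_exists_l ha0 ha6 hr08 har0
  have : Fact l.Prime := ⟨hl⟩
  have hlr' : (l : ℤ) ≡ 3 * a [ZMOD r0] := hlr
  have hla' : (l : ℤ) ≡ r0 [ZMOD a] := hla
  have hc1 : (3 * a).Coprime l := by
    rw [Nat.coprime_comm]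
    exact (Nat.Prime.coprime_iff_not_dvd hl).2 (Nat.not_dvd_of_pos_of_lt (by omega) hal)
  have hc2 : r0.Coprime l := by
    rw [Nat.coprime_comm]
    exact (Nat.Prime.coprime_iff_not_dvd hl).2
      (Nat.not_dvd_of_pos_of_lt (Nat.pos_of_ne_zero hr0.ne_zero) hrl)
  have hB : Squarefree (3 * a) :=
    (Nat.squarefree_mul ha3.symm).2 ⟨Nat.prime_three.squarefree, ha⟩
  obtain ⟨x, y, z, hne, hxyz⟩ := legendre_gen (A := r0) (B := 3 * a) (l := l) hr0 hB hl
    (Nat.Coprime.mul_right hr03 har0.symm) hc2 hc1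
    (by
      have h1 : 1 ≤ r0 := Nat.pos_of_ne_zero hr0.ne_zero
      have h2 : 1 ≤ a := Nat.pos_of_ne_zero ha0
      nlinarith)
    (by
      intro p hp hpr
      have h : (l : ℤ) ≡ 3 * a [ZMOD p] := hlr'.of_dvd (by exact_mod_cast hpr)
      have h' : ((l : ℤ) : ZMod p) = ((3 * a : ℤ) : ZMod p) := (ZMod.intCast_eq_intCast_iff _ _ _).2 h
      push_cast at h'
      refine ⟨3 * a, ?_⟩
      push_cast
      rw [h'])
    (by
      intro p hp hpa
      rcases (Nat.Prime.dvd_mul hp).1 hpa with h3 | hpa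
      · have hp3 : p = 3 := (Nat.prime_dvd_prime_iff_eq hp Nat.prime_three).1 h3
        subst hp3
        refine ⟨1, ?_⟩
        have h1 : ((r0 * l : ℕ) : ZMod 3) = ((1 : ℕ) : ZMod 3) := by
          rw [ZMod.natCast_eq_natCast_iff]
          have e1 : r0 ≡ 1 [MOD 3] := by unfold Nat.ModEq; omega
          have e2 : l ≡ 1 [MOD 3] := by unfold Nat.ModEq; omega
          simpa using e1.mul e2
        rw [h1]; simp
      have h : (l : ℤ) ≡ r0 [ZMOD p] := hla'.of_dvd (by exact_mod_cast hpa)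
      have h' : ((l : ℤ) : ZMod p) = ((r0 : ℤ) : ZMod p) := (ZMod.intCast_eq_intCast_iff _ _ _).2 h
      push_cast at h'
      refine ⟨r0, ?_⟩
      push_cast
      rw [h'])
    (by
      have h := K4_jacobi_calc hao hr08 har0 hl8 hla hlr
      rw [← jacobiSym.legendreSym.to_jacobiSym] at h
      have h0 : (((-((r0 * (3 * a) : ℕ) : ℤ) : ℤ)) : ZMod l) ≠ 0 := by
        intro h0
        rw [(legendreSym.eq_zero_iff l _).2 h0] at h
        exact zero_ne_one h
      have h2 := (legendreSym.eq_one_iff l h0).1 h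
      push_cast at h2 ⊢
      exact h2)
  have ha0' : (a : ℤ) ≠ 0 := by exact_mod_cast ha0
  have hr0' : (r0 : ℤ) ≠ 0 := by exact_mod_cast hr0.ne_zero
  have hl0' : (l : ℤ) ≠ 0 := by exact_mod_cast hl.ne_zero
  have hapos : (0 : ℤ) < a := by exact_mod_cast Nat.pos_of_ne_zero ha0
  have hrpos : (0 : ℤ) < r0 := by exact_mod_cast Nat.pos_of_ne_zero hr0.ne_zero
  have hlpos : (0 : ℤ) < l := by exact_mod_cast hl.pos
  push_cast at hxyz
  have hz : z ≠ 0 := by
    rintro rfl
    apply hne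
    have h3 : (0 : ℤ) ≤ r0 * x ^ 2 := by positivity
    have h4 : (0 : ℤ) ≤ 3 * a * y ^ 2 := by positivity
    have h5 : (r0 * x ^ 2 : ℤ) = 0 := by nlinarith
    have h6 : (3 * a * y ^ 2 : ℤ) = 0 := by nlinarith
    have h7 : x = 0 := by
      rcases mul_eq_zero.1 h5 with h | h
      · exact absurd h hr0'
      · exact pow_eq_zero_iff (by norm_num) |>.1 h
    have h8 : y = 0 := by
      rcases mul_eq_zero.1 h6 with h | h
      · exfalso
        rcases mul_eq_zero.1 h with h | h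
        · norm_num at h
        · exact ha0' h
      · exact pow_eq_zero_iff (by norm_num) |>.1 h
    rw [h7, h8]
  have hxz : x ≠ 0 := by
    rintro rfl
    have h0 : (l * z ^ 2 : ℤ) = 3 * a * y ^ 2 := by rw [hxyz]; ring
    have hy : y ≠ 0 := by
      rintro rfl
      have : (l * z ^ 2 : ℤ) = 0 := by rw [h0]; ring
      rcases mul_eq_zero.1 this with h | h
      · exact hl0' h
      · exact hz (pow_eq_zero_iff (by norm_num) |>.1 h)
    have h1 := congrArg (padicValInt l) h0
    have h3a : ((3 * a : ℕ) : ℤ) ≠ 0 := by push_cast; positivity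
    rw [show (3 * (a : ℤ) * y ^ 2) = ((3 * a : ℕ) : ℤ) * y ^ 2 by push_cast; ring] at h1
    rw [padicValInt.mul hl0' (pow_ne_zero _ hz), padicValInt.mul h3a (pow_ne_zero _ hy)] at h1
    rw [pow_two, pow_two, padicValInt.mul hz hz, padicValInt.mul hy hy] at h1
    have h2 : padicValInt l ((3 * a : ℕ) : ℤ) = 0 := by
      rw [padicValInt.of_nat]
      exact padicValNat.eq_zero_of_not_dvd (Nat.not_dvd_of_pos_of_lt (by omega) hal)
    have h4 : padicValInt l (l : ℤ) = 1 := by
      rw [padicValInt.of_nat]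
      exact padicValNat.self hl.one_lt
    omega
  have hk0 : k ≠ 0 := by
    rintro rfl
    simp at hk
    omega
  refine ⟨k * y / x, ?_⟩
  have hxq : (x : ℚ) ≠ 0 := by exact_mod_cast hxz
  have hzq : (z : ℚ) ≠ 0 := by exact_mod_cast hz
  have hkq : (k : ℚ) ≠ 0 := by exact_mod_cast hk0
  have key : ((r : ℚ) + 3 * a * (k * y / x) ^ 2) = l * (k * z / x) ^ 2 := by
    have h1 : (l * z ^ 2 : ℚ) = r0 * x ^ 2 + 3 * a * y ^ 2 := by exact_mod_cast hxyz
    have h2 : (r : ℚ) = k ^ 2 * r0 := by exact_mod_cast hk.symm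
    rw [h2]
    field_simp
    linear_combination -h1
  rw [key]
  exact (N3_prime hl (Or.inr (by omega))).mul (N3.sq (by positivity))

end Pool.Agent.H324R2.PQ
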