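import Pool.Agent.H324R2.PQ.K4

/-!
# K5: the meaning of `Test3`
-/

set_option autoImplicit false

namespace Pool.Agent.H324R2.PQ

private theorem K5_val_144 {q : ℕ} (hq : In3 q) : padicValRat q (144 : ℚ) = 0 := by
  have := Fact.mk hq.1
  have h : padicValRat q ((144 : ℕ) : ℚ) = 0 := by
    rw [padicValRat.of_nat]
    have : padicValNat q 144 = 0 := by
      apply padicValNat.eq_zero_of_not_dvd
      intro h
      have h1 : q ∣ 12 ^ 2 := by norm_num; exact h
      have h2 : q ∣ 12 := hq.1.dvd_of_dvd_pow h1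
      have h3 : q ≤ 12 := Nat.le_of_dvd (by norm_num) h2
      obtain ⟨_, h4, h5⟩ := hq
      interval_cases q <;> omega
    rw [this]; rfl
  simpa using h

private theorem K5_val_144_two : padicValRat 2 (144 : ℚ) = 4 := by
  have := Fact.mk Nat.prime_two
  have h : padicValRat 2 ((144 : ℕ) : ℚ) = 4 := by
    rw [padicValRat.of_nat]
    have : padicValNat 2 144 = 4 := by
      have h9 : padicValNat 2 9 = 0 := padicValNat.eq_zero_of_not_dvd (by norm_num)
      have e : (144 : ℕ) = 2 ^ 4 * 9 := by norm_num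
      rw [e, padicValNat.mul (by norm_num) (by norm_num), padicValNat.prime_pow, h9]
    rw [this]; rfl
  simpa using h

/-- soundness of `T3` -/
private theorem K5_sound {N F : ℚ} (h : T3 N F) {q : ℕ} (hq : In3 q)
    (hodd : Odd (padicValRat q N)) :
    F = 0 ∨ padicValRat q N < 2 * padicValRat q F := by
  have := Fact.mk hq.1
  have hN : N ≠ 0 := by
    rintro rfl
    rw [padicValRat.zero] at hodd
    exact absurd hodd (by decide)
  obtain ⟨w, hw⟩ := h
  by_cases hF : F = 0
  · exact Or.inl hF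
  right
  by_contra hcon
  push Not at hcon
  have hD : F ^ 2 + 3 * w ^ 2 ≠ 0 := by positivity
  obtain ⟨k, hk, hkF⟩ : ∃ k : ℤ, padicValRat q (F ^ 2 + 3 * w ^ 2) = 2 * k ∧
      k ≤ padicValRat q F := by
    by_cases hw0 : w = 0
    · refine ⟨padicValRat q F, ?_, le_rfl⟩
      rw [hw0]
      have : F ^ 2 + 3 * (0 : ℚ) ^ 2 = F ^ 2 := by ring
      rw [this, padicValRat.pow]
      norm_num
    · exact ⟨_, val_form3 hq hF hw0, min_le_left _ _⟩
  obtain ⟨j, hj⟩ := hodd
  have hlt : padicValRat q (F ^ 2 + 3 * w ^ 2) < padicValRat q N := by omega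
  have hsum0 : N + (F ^ 2 + 3 * w ^ 2) ≠ 0 := by
    intro h0
    have h1 : N = -(F ^ 2 + 3 * w ^ 2) := by linarith
    have h2 : padicValRat q N = padicValRat q (F ^ 2 + 3 * w ^ 2) := by
      rw [h1, padicValRat.neg]
    omega
  have hval : padicValRat q (N + (F ^ 2 + 3 * w ^ 2)) = padicValRat q (F ^ 2 + 3 * w ^ 2) := by
    rw [add_comm]
    rw [add_comm] at hsum0
    exact padicValRat.add_eq_of_lt hsum0 hD hN hlt
  have he := hw.even_val hq
  have hrw : N * (N + F ^ 2 + 3 * w ^ 2) = N * (N + (F ^ 2 + 3 * w ^ 2)) := by ring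
  rw [hrw, padicValRat.mul hN hsum0, hval] at he
  obtain ⟨i, hi⟩ := he
  omega

/-- completeness of `T3` -/
private theorem K5_compl {a : ℕ} (ha : Squarefree a) (ha6 : a.Coprime 6) (g : ℤ) :
    T3 (144 * a) (144 * a * g) := by
  have ha0 : (a : ℚ) ≠ 0 := by
    have := ha.ne_zero
    exact_mod_cast this
  obtain ⟨w, hw⟩ := exists_repr3 (r := 1 + 144 * a * g.natAbs ^ 2) ha ha6
    (by
      have : 144 * a * g.natAbs ^ 2 = 12 * (12 * a * g.natAbs ^ 2) := by ring
      omega)
    (by
      have : 1 + 144 * a * g.natAbs ^ 2 = 1 + a * (144 * g.natAbs ^ 2) := by ring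
      rw [this, Nat.coprime_add_mul_left_right]
      exact Nat.coprime_one_right a)
  refine ⟨12 * a * w, ?_⟩
  have h64 : (144 * a : ℚ) ≠ 0 := by positivity
  have := (N3.sq h64).mul hw
  convert this using 1
  have hg : ((g.natAbs : ℕ) : ℚ) ^ 2 = (g : ℚ) ^ 2 := by
    have := Int.natAbs_sq g
    have h2 : ((g.natAbs : ℤ) : ℚ) ^ 2 = (g : ℚ) ^ 2 := by exact_mod_cast this
    rwa [Int.cast_natCast] at h2
  push_cast
  rw [hg]
  ring

private theorem K5_compl' {a : ℕ} (ha : Squarefree a) (ha6 : a.Coprime 6) :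
    T3 (1 / (144 * a)) 1 := by
  have ha0 : (a : ℚ) ≠ 0 := by
    have := ha.ne_zero
    exact_mod_cast this
  obtain ⟨w, hw⟩ := exists_repr3 (r := 1 + 144 * a) ha ha6
    (by omega)
    (by
      have : 1 + 144 * a = 1 + a * 144 := by ring
      rw [this, Nat.coprime_add_mul_left_right]
      exact Nat.coprime_one_right a)
  refine ⟨w / 12, ?_⟩
  have h64 : (1 / (144 * a) : ℚ) ≠ 0 := by positivity
  have := (N3.sq h64).mul hw
  convert this using 1
  push_cast
  field_simp
  ring

/-- products of distinct primes -/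
private theorem K5_prod_primes (S : Finset ℕ) (hS : ∀ q ∈ S, q.Prime) :
    Squarefree (∏ q ∈ S, q) ∧ ∀ q, q.Prime → (q ∣ (∏ q ∈ S, q) ↔ q ∈ S) := by
  classical
  induction S using Finset.induction_on with
  | empty =>
    refine ⟨by simp, ?_⟩
    intro q hq
    simp [hq.one_lt.ne']
  | insert p S hp ih =>
    obtain ⟨h1, h2⟩ := ih (fun q hq => hS q (Finset.mem_insert_of_mem hq))
    have hpp : p.Prime := hS p (Finset.mem_insert_self _ _)
    rw [Finset.prod_insert hp]
    have hcop : Nat.Coprime p (∏ q ∈ S, q) := by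
      rw [hpp.coprime_iff_not_dvd, h2 p hpp]
      exact hp
    refine ⟨?_, ?_⟩
    · rw [Nat.squarefree_mul hcop]
      exact ⟨hpp.prime.squarefree, h1⟩
    · intro q hq
      rw [hq.dvd_mul, h2 q hq, Finset.mem_insert, Nat.prime_dvd_prime_iff_eq hq hpp]

/-- the valuation of a squarefree number -/
private theorem K5_val_squarefree {a : ℕ} (ha : Squarefree a) {q : ℕ} (hq : q.Prime) :
    padicValRat q (a : ℚ) = if q ∣ a then 1 else 0 := by
  have := Fact.mk hq
  rw [padicValRat.of_nat]
  split_ifs with h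
  · have h1 : padicValNat q a ≤ 1 := by
      have h2 := (Nat.squarefree_iff_factorization_le_one ha.ne_zero).1 ha q
      rwa [Nat.factorization_def a hq] at h2
    have h2 : 1 ≤ padicValNat q a := one_le_padicValNat_of_dvd ha.ne_zero h
    have h3 : padicValNat q a = 1 := le_antisymm h1 h2
    rw [h3]; rfl
  · rw [padicValNat.eq_zero_of_not_dvd h]; rfl

/-- soundness of `Test3` -/
theorem Test3.sound {N F : ℚ} (hN : N ≠ 0) (h : Test3 N F) {q : ℕ} (hq : In3 q)
    (hodd : Odd (padicValRat q N)) : Vge q 1 F := by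
  obtain ⟨ν, e, hν, h1, h2, h3⟩ := h
  have := Fact.mk hq.1
  have hν0 : ν ≠ 0 := hν.1
  have hNν : N * ν ≠ 0 := mul_ne_zero hN hν0
  obtain ⟨i, hi⟩ := hν.even_val hq
  have hodd' : Odd (padicValRat q (N * ν)) := by
    rw [padicValRat.mul hN hν0, hi]
    exact hodd.add_even ⟨i, rfl⟩
  have hpos : 0 < padicValRat q (N * ν) := by
    have h4 : Odd (padicValRat q (1 / (N * ν))) := by
      rw [one_div, padicValRat.inv]
      exact hodd'.neg
    rcases K5_sound h1 hq h4 with h5 | h5
    · exact absurd h5 one_ne_zero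
    · rw [one_div, padicValRat.inv, padicValRat.one] at h5
      omega
  have h32 : padicValRat q (144 : ℚ) = 0 := K5_val_144 hq
  have he : e ≠ 0 ∧ padicValRat q e = 0 := by
    rcases K5_sound h2 hq hodd' with h5 | h5
    · have : e = 1 := by linarith
      rw [this]
      exact ⟨one_ne_zero, padicValRat.one⟩
    · have he1 : e - 1 ≠ 0 := by
        intro h6
        rw [h6, mul_zero, padicValRat.zero] at h5
        omega
      rw [padicValRat.mul (by norm_num) he1, h32] at h5
      have h6 : 0 < padicValRat q (e - 1) := by omega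
      have he0 : e ≠ 0 := by
        rintro rfl
        have : (0 : ℚ) - 1 = -1 := by ring
        rw [this, padicValRat.neg, padicValRat.one] at h6
        omega
      refine ⟨he0, ?_⟩
      have h7 : padicValRat q (1 + (e - 1)) = padicValRat q (1 : ℚ) := by
        apply padicValRat.add_eq_of_lt
        · intro h; apply he0; linarith
        · exact one_ne_zero
        · exact he1
        · rw [padicValRat.one]; exact h6
      have h8 : 1 + (e - 1) = e := by ring
      rw [h8, padicValRat.one] at h7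
      exact h7
  rcases K5_sound h3 hq hodd' with h5 | h5
  · left
    have h32 : (144 : ℚ) * e ≠ 0 := mul_ne_zero (by norm_num) he.1
    exact (mul_eq_zero.1 h5).resolve_left h32
  · by_cases hF : F = 0
    · exact Or.inl hF
    right
    rw [padicValRat.mul (mul_ne_zero (by norm_num) he.1) hF,
      padicValRat.mul (by norm_num) he.1, h32, he.2] at h5
    omega

/-- completeness of `Test3` -/
theorem Test3.compl {N F : ℚ} (hN : 0 < N) (h2 : Even (padicValRat 2 N))
    (h : ∀ q : ℕ, In3 q → Odd (padicValRat q N) → Vge q 1 F) : Test3 N F := by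
  classical
  have hN' : N ≠ 0 := hN.ne'
  -- the product of the relevant primes
  set S : Finset ℕ := (N.num.natAbs * N.den).primeFactors.filter
    (fun q => In3 q ∧ Odd (padicValRat q N)) with hS
  have hSp : ∀ q ∈ S, q.Prime := by
    intro q hq
    rw [hS, Finset.mem_filter] at hq
    exact hq.2.1.1
  have hmem : ∀ q, q ∈ S ↔ (In3 q ∧ Odd (padicValRat q N)) := by
    intro q
    rw [hS, Finset.mem_filter]
    constructor
    · exact fun h => h.2
    · rintro ⟨hq, hodd⟩
      refine ⟨?_, hq, hodd⟩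
      have hnum : N.num.natAbs ≠ 0 := by
        rw [Int.natAbs_ne_zero]
        exact Rat.num_ne_zero.2 hN'
      rw [Nat.mem_primeFactors]
      refine ⟨hq.1, ?_, mul_ne_zero hnum N.den_ne_zero⟩
      by_contra hnd
      rw [hq.1.dvd_mul, not_or] at hnd
      have h1 : padicValRat q N = 0 := by
        unfold padicValRat padicValInt
        rw [padicValNat.eq_zero_of_not_dvd hnd.1, padicValNat.eq_zero_of_not_dvd hnd.2]
        rfl
      rw [h1] at hodd
      exact absurd hodd (by decide)
  set a : ℕ := ∏ q ∈ S, q with ha_def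
  obtain ⟨ha, hdvd⟩ := K5_prod_primes S hSp
  rw [← ha_def] at ha hdvd
  have ha2 : ¬ 2 ∣ a := by
    rw [hdvd 2 Nat.prime_two, hmem]
    rintro ⟨⟨_, h1, _⟩, _⟩
    exact h1 rfl
  have ha3 : ¬ 3 ∣ a := by
    rw [hdvd 3 Nat.prime_three, hmem]
    rintro ⟨⟨_, _, h1⟩, _⟩
    omega
  have ha6 : a.Coprime 6 := by
    have e1 : Nat.Coprime a 2 := ((Nat.Prime.coprime_iff_not_dvd Nat.prime_two).2 ha2).symm
    have e2 : Nat.Coprime a 3 := ((Nat.Prime.coprime_iff_not_dvd Nat.prime_three).2 ha3).symm
    have : (6 : ℕ) = 2 * 3 := rfl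
    rw [this]
    exact Nat.Coprime.mul_right e1 e2
  have ha0 : (a : ℚ) ≠ 0 := by
    have := ha.ne_zero
    exact_mod_cast this
  have hap : (0 : ℚ) < a := by
    have := Nat.pos_of_ne_zero ha.ne_zero
    exact_mod_cast this
  have h64 : (144 * a : ℚ) ≠ 0 := by positivity
  -- the norm
  have hν : N3 (144 * a / N) := by
    apply N3_of_even (by positivity)
    intro q hqp hq3
    have := Fact.mk hqp
    by_cases hq2 : q = 2
    · subst hq2
      rw [padicValRat.div h64 hN', padicValRat.mul (by norm_num) ha0, K5_val_144_two,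
        K5_val_squarefree ha hqp, if_neg ha2]
      obtain ⟨k, hk⟩ := h2
      rw [hk]
      exact ⟨2 - k, by ring⟩
    have hq : In3 q := ⟨hqp, hq2, hq3⟩
    rw [padicValRat.div h64 hN', padicValRat.mul (by norm_num) ha0, K5_val_144 hq,
      K5_val_squarefree ha hqp]
    by_cases hqS : q ∈ S
    · rw [if_pos ((hdvd q hqp).2 hqS)]
      obtain ⟨k, hk⟩ := ((hmem q).1 hqS).2
      rw [hk]
      exact ⟨-k, by ring⟩
    · rw [if_neg (fun h => hqS ((hdvd q hqp).1 h))]
      have : ¬ Odd (padicValRat q N) := fun h => hqS ((hmem q).2 ⟨hq, h⟩)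
      rw [Int.not_odd_iff_even] at this
      obtain ⟨k, hk⟩ := this
      rw [hk]
      exact ⟨-k, by ring⟩
  have hNν : N * (144 * a / N) = 144 * a := by field_simp
  -- the primes of `a` divide the numerator of `F` and not its denominator
  have hF : ∀ q ∈ S, q ∣ F.num.natAbs ∧ ¬ q ∣ F.den := by
    intro q hq
    have hq' := (hmem q).1 hq
    have := Fact.mk hq'.1.1
    rcases h q hq'.1 hq'.2 with h1 | h1
    · rw [h1]
      refine ⟨by simp, ?_⟩
      have : (0 : ℚ).den = 1 := rfl
      rw [this, Nat.dvd_one]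
      exact hq'.1.1.one_lt.ne'
    · have h2 : 1 ≤ (padicValNat q F.num.natAbs : ℤ) - padicValNat q F.den := h1
      have h3 : q ∣ F.num.natAbs := by
        by_contra h4
        rw [padicValNat.eq_zero_of_not_dvd h4] at h2
        have h5 : (0 : ℤ) ≤ (padicValNat q F.den : ℤ) := Int.natCast_nonneg _
        rw [Nat.cast_zero] at h2
        linarith
      refine ⟨h3, ?_⟩
      intro h4
      have h5 := Nat.dvd_gcd h3 h4
      rw [F.reduced] at h5
      exact hq'.1.1.one_lt.ne' (Nat.dvd_one.1 h5)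
  have haF : (a : ℤ) ∣ F.num := by
    rw [Int.natCast_dvd]
    exact Finset.prod_primes_dvd _ (fun q hq => (hSp q hq).prime) (fun q hq => (hF q hq).1)
  have hcop : Nat.Coprime a F.den := by
    rw [Nat.Coprime, Nat.eq_one_iff_not_exists_prime_dvd]
    intro q hq hqd
    exact (hF q ((hdvd q hq).1 (hqd.trans (Nat.gcd_dvd_left _ _)))).2
      (hqd.trans (Nat.gcd_dvd_right _ _))
  have hcop' : IsCoprime (a : ℤ) (F.den : ℤ) := Nat.isCoprime_iff_coprime.2 hcop
  obtain ⟨u, v, huv⟩ := hcop'
  obtain ⟨c, hc⟩ := haF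
  refine ⟨144 * a / N, ((v * F.den : ℤ) : ℚ), hν, ?_, ?_, ?_⟩
  · rw [hNν]; exact K5_compl' ha ha6
  · rw [hNν]
    have h1 : (144 : ℚ) * (((v * F.den : ℤ) : ℚ) - 1) = 144 * a * ((-u : ℤ) : ℚ) := by
      have h2 : ((v * F.den : ℤ) : ℚ) = 1 - ((u * a : ℤ) : ℚ) := by
        have h3 : (v * F.den : ℤ) = 1 - u * a := by linarith
        rw [h3]; push_cast; ring
      rw [h2]; push_cast; ring
    rw [h1]
    exact K5_compl ha ha6 _
  · rw [hNν]
    have h1 : (144 : ℚ) * ((v * F.den : ℤ) : ℚ) * F = 144 * a * ((v * c : ℤ) : ℚ) := by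
      have h2 : F * F.den = F.num := Rat.mul_den_eq_num F
      have h3 : ((F.num : ℤ) : ℚ) = a * c := by rw [hc]; push_cast; ring
      push_cast
      calc (144 : ℚ) * (v * F.den) * F = 144 * v * (F * F.den) := by ring
        _ = 144 * v * (a * c) := by rw [h2, h3]
        _ = _ := by ring
    rw [h1]
    exact K5_compl ha ha6 _

end Pool.Agent.H324R2.PQ
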