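import Pool.Agent.H324R2.PQ.DPForm
import Pool.Agent.H324R2.PQ.CS
import Pool.Agent.H324R2.PQ.CC

/-!
# DPRM over `ℚ` with a predicate for powers of two
-/

set_option autoImplicit false

namespace Pool.Agent.H324R2.PQ

open MvPolynomial Pool.Agent.Helper967.Dio.Sys Pool.Agent.Helper967.Dio

/-! ### an injective polynomial `ℕ ^ k → ℕ` -/

def J : (k : ℕ) → (Fin k → ℕ) → ℕ
  | 0, _ => 0
  | k + 1, v => Nat.pair (v 0) (J k (fun i => v i.succ) + 1 + v 0)

def JQ : (k : ℕ) → (Fin k → ℚ) → ℚ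
  | 0, _ => 0
  | k + 1, v => (JQ k (fun i => v i.succ) + 1 + v 0) ^ 2 + v 0

theorem JQ_cast : ∀ (k : ℕ) (v : Fin k → ℕ), JQ k (fun i => (v i : ℚ)) = (J k v : ℚ)
  | 0, _ => by simp [JQ, J]
  | k + 1, v => by
    have h : v 0 < J k (fun i => v i.succ) + 1 + v 0 := by omega
    rw [JQ, J, JQ_cast k (fun i => v i.succ), Nat.pair, if_pos h]
    push_cast
    ring

theorem PF.JQ {ι : Type} : ∀ (k : ℕ) {g : Fin k → (ι → ℚ) → ℚ}, (∀ i, PF (g i)) →
    PF (fun v => PQ.JQ k (fun i => g i v))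
  | 0, _, _ => PF.zero
  | k + 1, _, hg =>
    ((((PF.JQ k (fun i => hg i.succ)).add PF.one).add (hg 0)).pow 2).add (hg 0)

def step (K : ℕ) : ℕ := (Nat.unpair K).2 - 1 - (Nat.unpair K).1

def D (K i : ℕ) : ℕ := (Nat.unpair (step^[i] K)).1

theorem step_J (k : ℕ) (v : Fin (k + 1) → ℕ) : step (J (k + 1) v) = J k (fun i => v i.succ) := by
  rw [step, J, Nat.unpair_pair]
  simp only
  omega

theorem D_J : ∀ (k : ℕ) (v : Fin k → ℕ) (i : Fin k), D (J k v) i = v i
  | 0, _, i => i.elim0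
  | k + 1, v, i => by
    refine Fin.cases ?_ (fun j => ?_) i
    · rw [D, J]
      simp
    · rw [D, Fin.val_succ, Function.iterate_succ_apply, step_J]
      exact D_J k (fun i => v i.succ) j

theorem computable_D (k : ℕ) : Computable (fun K : ℕ => (fun i : Fin k => D K i)) := by
  refine Primrec.to_comp ?_
  rw [Primrec.fin_curry]
  have hstep : Primrec step := by
    have h1 : Primrec fun K : ℕ => (Nat.unpair K).1 := Primrec.fst.comp Primrec.unpair
    have h2 : Primrec fun K : ℕ => (Nat.unpair K).2 := Primrec.snd.comp Primrec.unpair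
    exact Primrec.nat_sub.comp (Primrec.nat_sub.comp h2 (Primrec.const 1)) h1
  have h : Primrec₂ fun (K : ℕ) (i : Fin k) => step^[(i : ℕ)] K :=
    Primrec.nat_iterate (Primrec.fin_val.comp Primrec.snd) Primrec.fst
      (hstep.comp Primrec.snd).to₂
  exact (Primrec.fst.comp (Primrec.unpair.comp h)).to₂

theorem re_comp {α β : Type} [Primcodable α] [Primcodable β] {p : β → Prop} (hp : REPred p)
    {g : α → β} (hg : Computable g) : REPred (fun a => p (g a)) :=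
  Partrec.comp hp hg

/-- traces on `ℕ ^ k` of existentially definable sets -/
theorem trace_of_re {k : ℕ} {R : (Fin k → ℕ) → Prop} (hR : REPred R) :
    ∃ Q : (Fin k → ℚ) → Prop, DP Q ∧ ∀ a : Fin k → ℕ, R a ↔ Q (fun i => (a i : ℚ)) := by
  have hS : REPred (fun K : ℕ => R (fun i => D K i)) := re_comp hR (computable_D k)
  obtain ⟨V, _, f, L, hL⟩ := exists_system _ (dprm hS)
  obtain ⟨A, hA8, hA⟩ : ∃ A : ℕ, 8 ≤ A ∧
      ∀ q ∈ L, |q.e| + |q.a| + |q.b| + |q.c| + |q.d| ≤ (A : ℤ) := by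
    clear hL
    induction L with
    | nil => exact ⟨8, le_rfl, by simp⟩
    | cons q L ih =>
      obtain ⟨A, h8, hA⟩ := ih
      refine ⟨A + (|q.e| + |q.a| + |q.b| + |q.c| + |q.d|).toNat, by omega, ?_⟩
      intro q' hq'
      rcases List.mem_cons.1 hq' with rfl | hq'
      · push_cast
        have := Int.self_le_toNat (|q'.e| + |q'.a| + |q'.b| + |q'.c| + |q'.d|)
        linarith [Int.natCast_nonneg A]
      · have := hA q' hq'
        push_cast
        linarith [Int.natCast_nonneg (|q.e| + |q.a| + |q.b| + |q.c| + |q.d|).toNat]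
  refine ⟨fun v => Code f L A (JQ k v), DP.Code f L A (PF.JQ k fun i => PF.proj i), fun a => ?_⟩
  change R a ↔ Code f L A (JQ k (fun i => (a i : ℚ)))
  rw [JQ_cast]
  have h1 : (∃ x : V → ℤ, x f = 1 - 4 * (J k a : ℤ) ∧ ∀ q ∈ L, q.Holds x) ↔ R a := by
    rw [hL]
    constructor
    · rintro ⟨n, hn, e⟩
      have : n = J k a := by omega
      subst this
      simpa only [D_J] using hn
    · intro h
      exact ⟨J k a, by simpa only [D_J] using h, rfl⟩
  rw [← h1]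
  exact ⟨fun h => Code.compl h, fun h => Code.sound hA8 hA h⟩

/-- normal form of an existential definition -/
theorem DP.fin {ι : Type} {Q : (ι → ℚ) → Prop} (hQ : DP Q) :
    ∃ (m n : ℕ) (f : MvPolynomial (ι ⊕ Fin m ⊕ Fin n) ℤ), ∀ v : ι → ℚ, Q v ↔
      ∃ (u : Fin m → ℕ) (y : Fin n → ℚ),
        aeval (Sum.elim v (Sum.elim (fun i => (2 : ℚ) ^ (u i)) y)) f = 0 := by
  obtain ⟨κ, μ, _, _, f, hf⟩ := hQ
  obtain ⟨m, ⟨e⟩⟩ := Finite.exists_equiv_fin κ
  obtain ⟨n, ⟨e'⟩⟩ := Finite.exists_equiv_fin μ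
  refine ⟨m, n, rename (Sum.map id (Sum.map e e')) f, fun v => ?_⟩
  rw [hf]
  constructor
  · rintro ⟨u, y, h⟩
    refine ⟨u ∘ e.symm, y ∘ e'.symm, ?_⟩
    rw [aeval_rename]
    convert h using 2
    congr 1
    funext i
    rcases i with i | i | i <;> simp
  · rintro ⟨u, y, h⟩
    refine ⟨u ∘ e, y ∘ e', ?_⟩
    rw [aeval_rename] at h
    convert h using 2
    congr 1
    funext i
    rcases i with i | i | i <;> simp

theorem main_kary {k : ℕ} {R : (Fin k → ℕ) → Prop} (hR : REPred R) :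
    ∃ (m n : ℕ) (f : MvPolynomial (Fin k ⊕ Fin m ⊕ Fin n) ℤ), ∀ a : Fin k → ℕ, R a ↔
      ∃ (u : Fin m → ℕ) (y : Fin n → ℚ),
        aeval (Sum.elim (fun i => (a i : ℚ)) (Sum.elim (fun i => (2 : ℚ) ^ (u i)) y)) f = 0 := by
  obtain ⟨Q, hQ, h⟩ := trace_of_re hR
  obtain ⟨m, n, f, hf⟩ := hQ.fin
  exact ⟨m, n, f, fun a => (h a).trans (hf _)⟩

/-- if the powers of two are diophantine over `ℚ`, the additional quantifiers can be removed -/
theorem main_of_diophantine {r : ℕ} (g : MvPolynomial (Unit ⊕ Fin r) ℤ)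
    (hg : ∀ x : ℚ, (∃ k : ℕ, x = 2 ^ k) ↔
      ∃ z : Fin r → ℚ, aeval (Sum.elim (fun _ => x) z) g = 0)
    {k : ℕ} {R : (Fin k → ℕ) → Prop} (hR : REPred R) :
    ∃ (n : ℕ) (f : MvPolynomial (Fin k ⊕ Fin n) ℤ), ∀ a : Fin k → ℕ, R a ↔
      ∃ y : Fin n → ℚ, aeval (Sum.elim (fun i => (a i : ℚ)) y) f = 0 := by
  obtain ⟨m, n, f, hf⟩ := main_kary hR
  let μ := Fin m ⊕ (Fin m × Fin r) ⊕ Fin n
  let σ : Fin k ⊕ Fin m ⊕ Fin n → Fin k ⊕ μ :=
    Sum.elim Sum.inl (Sum.elim (fun i => Sum.inr (Sum.inl i))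
      (fun i => Sum.inr (Sum.inr (Sum.inr i))))
  let τ : Fin m → Unit ⊕ Fin r → Fin k ⊕ μ := fun i =>
    Sum.elim (fun _ => Sum.inr (Sum.inl i)) (fun j => Sum.inr (Sum.inr (Sum.inl (i, j))))
  let F : MvPolynomial (Fin k ⊕ μ) ℤ := rename σ f ^ 2 + ∑ i, (rename (τ i) g) ^ 2
  have key1 : ∀ (a : Fin k → ℚ) (w : μ → ℚ), aeval (Sum.elim a w) (rename σ f) =
      aeval (Sum.elim a (Sum.elim (fun i => w (Sum.inl i)) (fun i => w (Sum.inr (Sum.inr i))))) f := by
    intro a w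
    rw [aeval_rename]
    congr 2
    funext i
    rcases i with i | i | i <;> rfl
  have key2 : ∀ (a : Fin k → ℚ) (w : μ → ℚ) (i : Fin m), aeval (Sum.elim a w) (rename (τ i) g) =
      aeval (Sum.elim (fun _ => w (Sum.inl i)) (fun j => w (Sum.inr (Sum.inl (i, j))))) g := by
    intro a w i
    rw [aeval_rename]
    congr 2
    funext i
    rcases i with i | i <;> rfl
  have key : ∀ (a : Fin k → ℚ) (w : μ → ℚ), aeval (Sum.elim a w) F = 0 ↔
      aeval (Sum.elim a (Sum.elim (fun i => w (Sum.inl i)) (fun i => w (Sum.inr (Sum.inr i))))) f = 0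
      ∧ ∀ i, aeval (Sum.elim (fun _ => w (Sum.inl i)) (fun j => w (Sum.inr (Sum.inl (i, j))))) g
        = 0 := by
    intro a w
    simp only [F, map_add, map_pow, map_sum, key1, key2]
    rw [add_eq_zero_iff_of_nonneg (sq_nonneg _) (Finset.sum_nonneg fun i _ => sq_nonneg _),
      Finset.sum_eq_zero_iff_of_nonneg (fun i _ => sq_nonneg _)]
    simp
  obtain ⟨N, ⟨e⟩⟩ := Finite.exists_equiv_fin μ
  refine ⟨N, rename (Sum.map id e) F, fun a => ?_⟩
  rw [hf]
  have hN : ∀ y : Fin N → ℚ, aeval (Sum.elim (fun i => (a i : ℚ)) y) (rename (Sum.map id e) F) =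
      aeval (Sum.elim (fun i => (a i : ℚ)) (y ∘ e)) F := by
    intro y
    rw [aeval_rename]
    congr 2
    funext i
    rcases i with i | i <;> rfl
  constructor
  · rintro ⟨u, y, h⟩
    choose z hz using fun i => (hg (2 ^ (u i))).1 ⟨u i, rfl⟩
    refine ⟨(Sum.elim (fun i => 2 ^ (u i)) (Sum.elim (fun p => z p.1 p.2) y)) ∘ e.symm, ?_⟩
    rw [hN, Function.comp_assoc, Equiv.symm_comp_self, Function.comp_id, key]
    exact ⟨h, hz⟩
  · rintro ⟨y, h⟩
    rw [hN, key] at h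
    obtain ⟨h1, h2⟩ := h
    choose u hu using fun i => (hg _).2 ⟨_, h2 i⟩
    refine ⟨u, fun i => (y ∘ e) (Sum.inr (Sum.inr i)), ?_⟩
    simp only [hu] at h1
    exact h1

theorem exists_re_not_computable : ∃ A : ℕ → Prop, REPred A ∧ ¬ ComputablePred A := by
  refine ⟨fun n => (Nat.Partrec.Code.eval (Denumerable.ofNat Nat.Partrec.Code n) 0).Dom, ?_, ?_⟩
  · exact re_comp (ComputablePred.halting_problem_re 0) (Computable.ofNat _)
  · intro h
    refine ComputablePred.halting_problem 0 ?_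
    refine ComputablePred.computable_of_manyOneReducible (q := fun n : ℕ =>
      (Nat.Partrec.Code.eval (Denumerable.ofNat Nat.Partrec.Code n) 0).Dom) ?_ h
    refine ⟨Encodable.encode, Computable.encode, fun c => ?_⟩
    simp only [Denumerable.ofNat_encode]

theorem undecidable_P2 :
    ∃ (m n : ℕ) (f : MvPolynomial (Fin 1 ⊕ Fin m ⊕ Fin n) ℤ), ¬ ComputablePred (fun a : ℕ =>
      ∃ (u : Fin m → ℕ) (y : Fin n → ℚ),
        aeval (Sum.elim (fun _ => (a : ℚ)) (Sum.elim (fun i => (2 : ℚ) ^ (u i)) y)) f = 0) := by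
  obtain ⟨A, hA, hA'⟩ := exists_re_not_computable
  have h1 : REPred (fun v : Fin 1 → ℕ => A (v 0)) :=
    re_comp hA (Primrec.fin_app.comp Primrec.id (Primrec.const 0)).to_comp
  obtain ⟨m, n, f, hf⟩ := main_kary h1
  refine ⟨m, n, f, fun h => hA' (h.of_eq fun a => ?_)⟩
  exact (hf (fun _ => a)).symm

theorem undecidable_of_diophantine {r : ℕ} (g : MvPolynomial (Unit ⊕ Fin r) ℤ)
    (hg : ∀ x : ℚ, (∃ k : ℕ, x = 2 ^ k) ↔
      ∃ z : Fin r → ℚ, aeval (Sum.elim (fun _ => x) z) g = 0) :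
    ∃ (n : ℕ) (f : MvPolynomial (Fin 1 ⊕ Fin n) ℤ), ¬ ComputablePred (fun a : ℕ =>
      ∃ y : Fin n → ℚ, aeval (Sum.elim (fun _ => (a : ℚ)) y) f = 0) := by
  obtain ⟨A, hA, hA'⟩ := exists_re_not_computable
  have h1 : REPred (fun v : Fin 1 → ℕ => A (v 0)) :=
    re_comp hA (Primrec.fin_app.comp Primrec.id (Primrec.const 0)).to_comp
  obtain ⟨n, f, hf⟩ := main_of_diophantine g hg h1
  refine ⟨n, f, fun h => hA' (h.of_eq fun a => ?_)⟩
  exact (hf (fun _ => a)).symm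

end Pool.Agent.H324R2.PQ
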