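import Pool.Agent.H324R2.PQ.Defs

/-!
# Stubs, layer 1 (tasks K1, K2, K3, N1 - N5, R1)
Each task's proofs go to `Pool/Agent/H324R2/PQ/<task>.lean` (importing only `Defs`), with exactly
these names and statements; helper lemmas there are `private` or named `<task>_...`.
-/

set_option autoImplicit false

namespace Pool.Agent.H324R2.PQ

/-! ### K1: adapt `Pool/Agent/H528R2/NormVal.lean` (there the form is `c² - 2 e²`) -/

theorem val_form3 {q : ℕ} (hq : In3 q) {c e : ℚ} (hc : c ≠ 0) (he : e ≠ 0) :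
    padicValRat q (c ^ 2 + 3 * e ^ 2) = 2 * min (padicValRat q c) (padicValRat q e) := by
  sorry

theorem N3.even_val {x : ℚ} (hx : N3 x) {q : ℕ} (hq : In3 q) : Even (padicValRat q x) := by
  sorry

theorem N3.mul {x y : ℚ} (hx : N3 x) (hy : N3 y) : N3 (x * y) := by
  sorry

theorem N3.inv {x : ℚ} (hx : N3 x) : N3 x⁻¹ := by
  sorry

theorem N3.sq {x : ℚ} (hx : x ≠ 0) : N3 (x ^ 2) := by
  sorry

/-! ### K2: adapt `Pool/Agent/H528R2/NormRep.lean` -/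

theorem N3_prime {p : ℕ} (hp : p.Prime) (h : p = 3 ∨ p % 3 = 1) : N3 (p : ℚ) := by
  sorry

/-- positive rationals with even valuation at all primes `q ≡ 2 (mod 3)` (also `q = 2`) are norms -/
theorem N3_of_even {x : ℚ} (hx : 0 < x)
    (h : ∀ q : ℕ, q.Prime → q % 3 = 2 → Even (padicValRat q x)) : N3 x := by
  sorry

/-! ### K3: adapt `Pool/Agent/H528R2/Legendre.lean` -/

theorem legendre_gen {A B l : ℕ} (hA : Squarefree A) (hB : Squarefree B) (hl : l.Prime)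
    (hAB : A.Coprime B) (hAl : A.Coprime l) (hBl : B.Coprime l) (h1 : 1 < A * B)
    (hA' : ∀ p : ℕ, p.Prime → p ∣ A → IsSquare ((B * l : ℕ) : ZMod p))
    (hB' : ∀ p : ℕ, p.Prime → p ∣ B → IsSquare ((A * l : ℕ) : ZMod p))
    (hl' : IsSquare (-((A * B : ℕ) : ZMod l))) :
    ∃ x y z : ℤ, (x, y, z) ≠ (0, 0, 0) ∧ l * z ^ 2 = A * x ^ 2 + B * y ^ 2 := by
  sorry

/-! ### N1 -/

theorem DD_pow {d : ℕ} : DD ((2 : ℚ) ^ d) ↔ ∃ s : ℕ, 1 ≤ s ∧ d = 2 ^ s := by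
  sorry

/-! ### N2 -/

theorem vis_c {b : ℕ} (hb : 2 ≤ b) : ∃ p : ℕ, In3 p ∧
    Odd (padicValRat p ((2 : ℚ) ^ (2 ^ b) - 1)) ∧ orderOf (2 : ZMod p) = 2 ^ b := by
  sorry

/-! ### N3 -/

theorem vis_c1 {b : ℕ} (hb : Even b) (hb0 : 0 < b) : ∃ p : ℕ, In3 p ∧
    Odd (padicValRat p ((2 * (2 : ℚ) ^ (2 ^ b) + 1) / 3)) ∧ p ∣ 2 ^ (2 ^ b + 1) + 1 := by
  sorry

/-! ### N4 -/

theorem twoadic_lt {ε b m : ℕ} (hε : 2 < ε) (hb0 : 0 < b) (hm0 : 0 < m)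
    (h1 : (2 : ZMod ε) ^ b = -1) (h2 : (2 : ZMod ε) ^ m = 1) :
    padicValNat 2 b < padicValNat 2 m := by
  sorry

theorem twoadic_eq {ε b m : ℕ} (hε : 2 < ε) (hb0 : 0 < b) (hm0 : 0 < m)
    (h1 : (2 : ZMod ε) ^ b = -1) (h2 : (2 : ZMod ε) ^ m = -1) :
    padicValNat 2 b = padicValNat 2 m := by
  sorry

/-! ### N5 -/

theorem common_prime {p M N : ℕ} (hp : In3 p) (hM : Odd M) (h1 : p ∣ 2 ^ M + 1)
    (h2 : p ∣ 2 ^ (2 * N) - 1) : ∃ ε : ℕ, ε.Prime ∧ 2 < ε ∧ ε ∣ M ∧ ε ∣ N := by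
  sorry

/-! ### R1 -/

/-- geometric sums: `(2 ^ (c k) - 1) / (2 ^ c - 1)` is an integer, congruent to `k` -/
theorem ratio {c k : ℕ} (hc : 0 < c) {z : ℚ} (h : z * ((2 : ℚ) ^ c - 1) = 2 ^ (c * k) - 1) :
    ∃ Z : ℤ, z = Z ∧ ((2 : ℤ) ^ c - 1) ∣ Z - k := by
  sorry

theorem vge_int {q : ℕ} (hq : q.Prime) {F : ℤ} : Vge q 1 (F : ℚ) ↔ (q : ℤ) ∣ F := by
  sorry

theorem le4_iff {x y : ℚ} : Le4 x y ↔ x ≤ y := by
  sorry

end Pool.Agent.H324R2.PQ
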