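import Pool.Agent.H324R2.PQ.Stubs

/-! # Stub of task K4 (file `K4.lean`, which imports `Stubs`): adapt `Pool/Agent/H528R2/LOne.lean` -/

set_option autoImplicit false

namespace Pool.Agent.H324R2.PQ

theorem exists_repr3 {a r : ℕ} (ha : Squarefree a) (ha6 : a.Coprime 6) (hr : r % 12 = 1)
    (har : a.Coprime r) : ∃ w : ℚ, N3 (r + 3 * a * w ^ 2) := by
  sorry

end Pool.Agent.H324R2.PQ
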