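import Pool.Agent.H324R2.PQ.Stubs4

/-! # Stubs of task K5 (file `K5.lean`, which imports `Stubs4`): adapt
`Pool/Agent/H528R2/TestIff.lean` -/

set_option autoImplicit false

namespace Pool.Agent.H324R2.PQ

/-- soundness of `Test3` -/
theorem Test3.sound {N F : ℚ} (hN : N ≠ 0) (h : Test3 N F) {q : ℕ} (hq : In3 q)
    (hodd : Odd (padicValRat q N)) : Vge q 1 F := by
  sorry

/-- completeness of `Test3` -/
theorem Test3.compl {N F : ℚ} (hN : 0 < N) (h2 : Even (padicValRat 2 N))
    (h : ∀ q : ℕ, In3 q → Odd (padicValRat q N) → Vge q 1 F) : Test3 N F := by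
  sorry

end Pool.Agent.H324R2.PQ
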