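import Pool.Agent.H324R2.PQ.StubsE
import Pool.Agent.H324R2.PQ.DefsCode

/-! # Stubs of tasks CS (file `CS.lean`) and CC (file `CC.lean`), which import `StubsE` and
`DefsCode` -/

set_option autoImplicit false

namespace Pool.Agent.H324R2.PQ

open Pool.Agent.Helper967.Dio.Sys

/-- task CS -/
theorem Code.sound {V : Type} {f : V} {L : List (Eqn V)} {A a : ℕ} (hA : 8 ≤ A)
    (hL : ∀ q ∈ L, |q.e| + |q.a| + |q.b| + |q.c| + |q.d| ≤ (A : ℤ))
    (h : Code f L A (2 ^ a)) :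
    ∃ x : V → ℤ, x f = 1 - 4 * 2 ^ a ∧ ∀ q ∈ L, q.Holds x := by
  sorry

/-- task CC -/
theorem Code.compl {V : Type} [Finite V] {f : V} {L : List (Eqn V)} {A a : ℕ}
    (h : ∃ x : V → ℤ, x f = 1 - 4 * 2 ^ a ∧ ∀ q ∈ L, q.Holds x) :
    Code f L A (2 ^ a) := by
  sorry

end Pool.Agent.H324R2.PQ
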