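import Pool.Agent.H324R2.PQ.Stubs5

/-! # Stubs of tasks ES (file `ES.lean`) and EC (file `EC.lean`), which import `Stubs5` -/

set_option autoImplicit false

namespace Pool.Agent.H324R2.PQ

/-- task ES -/
theorem E1.sound {t U : ℚ} (h : E1 t U) : ∃ s : ℕ, 1 ≤ s ∧ t = 2 ^ s ∧ U = 2 ^ (2 ^ s) := by
  sorry

/-- task EC -/
theorem E1.compl {s : ℕ} (hs : 1 ≤ s) : E1 (2 ^ s) (2 ^ (2 ^ s)) := by
  sorry

end Pool.Agent.H324R2.PQ
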